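import Pool.Agent.H65.RM.Defs
import Pool.Agent.H4.Singer.Levels

/-!
# Project SM (Smith theory): the finite special subgroups act faithfully

`C` is a subgroup of the right-angled Coxeter group of `G` which contains the generators of `u` and `v`, and `u`, `v` are
not adjacent (and different). If `C` acts properly on a nonempty complex then no product `g` of different generators, with
`v` but without `u`, acts trivially: otherwise all conjugates of `g` with the powers of `s_u s_v` act trivially, and
their images in the infinite dihedral group of `u` and `v` are different.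
-/

set_option autoImplicit false
set_option linter.unusedSectionVars false

open Finset Pointwise
open Pool.Agent.H65.RM Pool.Agent.H4.Singer

namespace Pool.Agent.H8.SM

variable {V U : Type} [DecidableEq V] [DecidableEq U] {K B : Set (Finset U)}

/-- the retraction onto the infinite dihedral group of two letters which are not adjacent -/
private theorem exists_dih (G : SimpleGraph V) {u v : V} (huv : u ≠ v) (hadj : ¬ G.Adj u v) :
    ∃ r : RGrp G →* DihedralGroup 0, r (gen G v) = DihedralGroup.sr 0 ∧
      r (gen G u) = DihedralGroup.sr 1 ∧ ∀ w, w ≠ u → w ≠ v → r (gen G w) = 1 := by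
  obtain ⟨r, hr⟩ := exists_lift G (fun w => if w = v then (DihedralGroup.sr 0 : DihedralGroup 0)
    else if w = u then DihedralGroup.sr 1 else 1) (fun w => by
      split_ifs
      · exact DihedralGroup.sr_mul_self 0
      · exact DihedralGroup.sr_mul_self 1
      · exact one_mul 1) (fun a b hab => by
      by_cases ha : a = v
      · have hb : b ≠ v := fun h => G.loopless.irrefl v (by rw [← ha] at h ⊢; rw [h] at hab; exact hab)
        have hb' : b ≠ u := fun h => hadj (by rw [← h, ← ha]; exact hab.symm)
        rw [if_neg hb, if_neg hb', mul_one, one_mul]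
      · by_cases ha' : a = u
        · have hb : b ≠ v := fun h => hadj (by rw [← h, ← ha']; exact hab)
          have hb' : b ≠ u := fun h => G.loopless.irrefl u (by rw [← ha'] at h ⊢; rw [h] at hab; exact hab)
          rw [if_neg hb, if_neg hb', mul_one, one_mul]
        · rw [if_neg ha, if_neg ha', mul_one, one_mul])
  refine ⟨r, ?_, ?_, fun w hw hw' => ?_⟩
  · rw [hr, if_pos rfl]
  · rw [hr, if_neg huv, if_pos rfl]
  · rw [hr, if_neg hw', if_neg hw]

/-- **Faithfulness.** -/
theorem not_trivial (G : SimpleGraph V) (C : Subgroup (RGrp G)) [MulAction C U]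
    (hA : PAct C K B) (hne : ∃ w, {w} ∈ K) {u v : V} (huv : u ≠ v) (hadj : ¬ G.Adj u v)
    (hu : gen G u ∈ C) (hv : gen G v ∈ C) (l : List V) (hl : l.Nodup) (hvl : v ∈ l)
    (hul : u ∉ l) (g : C) (hg : (g : RGrp G) = (l.map (gen G)).prod)
    (htriv : ∀ w, {w} ∈ K → g • w = w) : False := by
  classical
  obtain ⟨r, hrv, hru, hr1⟩ := exists_dih G huv hadj
  -- the image of the product
  have h1 : ∀ l : List V, u ∉ l → l.Nodup →
      r (l.map (gen G)).prod = if v ∈ l then DihedralGroup.sr 0 else 1 := by
    intro l
    induction l with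
    | nil => intro _ _; simp
    | cons a l ih =>
      intro h2 h3
      rw [List.nodup_cons] at h3
      rw [List.map_cons, List.prod_cons, map_mul, ih (fun h => h2 (List.mem_cons_of_mem a h)) h3.2]
      by_cases hav : a = v
      · subst hav
        rw [hrv, if_neg h3.1, mul_one, if_pos List.mem_cons_self]
      · have hau : a ≠ u := fun h => h2 (by rw [h]; exact List.mem_cons_self)
        rw [hr1 a hau hav, one_mul]
        by_cases hvl : v ∈ l
        · rw [if_pos hvl, if_pos (List.mem_cons_of_mem a hvl)]
        · rw [if_neg hvl, if_neg]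
          intro h
          rcases List.mem_cons.1 h with h | h
          · exact hav h.symm
          · exact hvl h
  have hrg : r (g : RGrp G) = DihedralGroup.sr 0 := by
    rw [hg, h1 l hul hl, if_pos hvl]
  obtain ⟨x, hx⟩ : ∃ x : C, x = ⟨gen G v * gen G u, mul_mem hv hu⟩ := ⟨_, rfl⟩
  have hrx : r (x : RGrp G) = DihedralGroup.r 1 := by
    rw [hx]
    show r (gen G v * gen G u) = _
    rw [map_mul, hrv, hru, DihedralGroup.sr_mul_sr, sub_zero]
  obtain ⟨w, hw⟩ := hne
  -- the conjugates
  have h4 : ∀ y : C, ∀ w', {w'} ∈ K → (y * g * y⁻¹) • w' = w' := by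
    intro y w' hw'
    have h5 : ({y⁻¹ • w'} : Finset U) ∈ K := by
      have := hA.K_mem y⁻¹ _ hw'
      rwa [Finset.smul_finset_singleton] at this
    rw [mul_smul, mul_smul, htriv _ h5, smul_inv_smul]
  have hinj : Function.Injective fun k : ℕ => x ^ k * g * (x ^ k)⁻¹ := by
    intro k k' h
    have h6 := congrArg (fun y : C => r (y : RGrp G)) h
    simp only [Subgroup.coe_mul, Subgroup.coe_inv, Subgroup.coe_pow, map_mul, map_inv, map_pow,
      hrg, hrx] at h6
    have h7 : ∀ k : ℕ, (DihedralGroup.r (1 : ZMod 0)) ^ k * DihedralGroup.sr 0 *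
        ((DihedralGroup.r (1 : ZMod 0)) ^ k)⁻¹ = DihedralGroup.sr (-(2 * k : ZMod 0)) := by
      intro k
      rw [DihedralGroup.r_one_pow, DihedralGroup.inv_r, DihedralGroup.r_mul_sr,
        DihedralGroup.sr_mul_r]
      congr 1
      ring
    rw [h7, h7, DihedralGroup.sr.injEq, neg_inj] at h6
    have h8 : (2 * (k : ℤ)) = 2 * (k' : ℤ) := h6
    omega
  exact Set.infinite_of_injective_forall_mem hinj (fun k => h4 (x ^ k) w hw) (hA.proper w w hw)

end Pool.Agent.H8.SM
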