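import Pool.Agent.H8.SM.Fixed
import Pool.Agent.H8.SM.Faith
import Pool.Agent.H19.SR.Defs

/-!
# Project SM (Smith theory): the links

`InC G n`: the right-angled Coxeter group of `G` acts properly (and without inversions) on an acyclic homology
manifold of dimension `n`. Full subgraphs are in `InC G' n`, and if no vertex of the clique `t` is adjacent to all other
vertices, then the link of `t` is in `InC _ m`, `m + |t| ≤ n`.
-/

set_option autoImplicit false
set_option linter.unusedSectionVars false

open Finset Pointwise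
open Pool.Agent.H37.TM
open Pool.Agent.H65.RM Pool.Agent.H4.Singer
open Pool.Agent.H19.SR

namespace Pool.Agent.H8.SM

/-- The right-angled Coxeter group of the graph `G` acts properly on an acyclic homology manifold of dimension `n`
(coefficients: the field of two elements), simplicially, such that an element which preserves a simplex fixes its
vertices. -/
def InC {V : Type} (G : SimpleGraph V) (n : ℕ) : Prop :=
  ∃ (U : Type) (_ : DecidableEq U) (_ : MulAction (RGrp G) U) (K B : Set (Finset U)),
    Mfd K B n ∧ Acyc K ∧ PAct (RGrp G) K B ∧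
      ∀ g : RGrp G, ∀ s ∈ K, g • s = s → ∀ u ∈ s, g • u = u

section

variable {U : Type} [DecidableEq U] {K B : Set (Finset U)}

theorem pact_comp {A A' : Type} [Group A] [Group A'] [MulAction A U] (f : A' →* A)
    (hf : Function.Injective f) (h : PAct A K B) :
    @PAct A' _ U _ (MulAction.compHom U f) K B := by
  letI : MulAction A' U := MulAction.compHom U f
  refine ⟨fun g s hs => h.K_mem (f g) s hs, fun g s hs => h.B_mem (f g) s hs, fun u w hu => ?_⟩
  exact ((h.proper u w hu).preimage (f := f) hf.injOn).subset fun g hg => hg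

end

/-- the homomorphism of a full subgraph, and the retraction -/
theorem exists_incl {V V' : Type} (e : V' ↪ V) (G : SimpleGraph V) :
    ∃ f : RGrp (G.comap e) →* RGrp G, Function.Injective f ∧ ∀ v, f (gen (G.comap e) v) = gen G (e v) := by
  classical
  obtain ⟨f, hf⟩ := exists_lift (G.comap e) (fun v => gen G (e v)) (fun v => gen_mul_gen G (e v))
    (fun u v h => gen_comm G (e u) (e v) h)
  obtain ⟨r, hr⟩ := exists_lift G (fun w => if h : ∃ v, e v = w then gen (G.comap e) h.choose else 1)
    (fun w => by
      by_cases h : ∃ v, e v = w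
      · simp only [dif_pos h]
        exact gen_mul_gen _ _
      · simp only [dif_neg h, mul_one])
    (fun u w huw => by
      by_cases h : ∃ v, e v = u
      · by_cases h' : ∃ v, e v = w
        · simp only [dif_pos h, dif_pos h']
          refine gen_comm _ _ _ ?_
          show G.Adj (e h.choose) (e h'.choose)
          rw [h.choose_spec, h'.choose_spec]
          exact huw
        · simp only [dif_neg h', mul_one, one_mul]
      · simp only [dif_neg h, mul_one, one_mul])
  refine ⟨f, ?_, hf⟩
  have h1 : ∀ v, r (f (gen (G.comap e) v)) = gen (G.comap e) v := by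
    intro v
    have h2 : ∃ v', e v' = e v := ⟨v, rfl⟩
    rw [hf, hr, dif_pos h2]
    exact congrArg _ (e.injective h2.choose_spec)
  have h3 : r.comp f = MonoidHom.id _ :=
    (racg (G.comap e)).toCoxeterSystem.ext_simple fun v => h1 v
  intro a b hab
  have h4 : ∀ x, r (f x) = x := fun x => DFunLike.congr_fun h3 x
  rw [← h4 a, hab, h4]

theorem InC.comap {V V' : Type} (e : V' ↪ V) {G : SimpleGraph V} {n : ℕ} (h : InC G n) :
    InC (G.comap e) n := by
  obtain ⟨U, _, _, K, B, hM, hK, hA, hreg⟩ := h
  obtain ⟨f, hf, -⟩ := exists_incl e G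
  refine ⟨U, inferInstance, MulAction.compHom U f, K, B, hM, hK, pact_comp f hf hA, ?_⟩
  exact fun g s hs hgs u hu => hreg (f g) s hs hgs u hu

/-- **The links.** -/
theorem InC.link {V : Type} [DecidableEq V] [Fintype V] {G : SimpleGraph V} {n : ℕ} (h : InC G n)
    {t : Finset V} (ht : G.IsClique (t : Set V)) (hcone : ∀ v ∈ t, ∃ u, u ≠ v ∧ ¬ G.Adj u v) :
    ∃ m, m + t.card ≤ n ∧ InC (G.comap (Function.Embedding.subtype fun w => w ∈ lkF G t)) m := by
  classical
  obtain ⟨U, _, _, K, B, hM, hK, hA, hreg⟩ := h
  obtain ⟨f, hf, hfg⟩ := exists_incl (Function.Embedding.subtype fun w => w ∈ lkF G t) G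
  -- a vertex
  obtain ⟨s₀, hs₀⟩ := acyc_nonempty hK
  obtain ⟨w₀, hw₀⟩ := hM.ne s₀ hs₀
  have hne : ∃ w, {w} ∈ K := ⟨w₀, hM.down s₀ hs₀ _ (singleton_subset_iff.2 hw₀) (singleton_nonempty w₀)⟩
  have hclo : ∀ x ∈ f.range, ∀ v ∈ t, x * gen G v = gen G v * x := by
    rintro _ ⟨y, rfl⟩ v hv
    have h1 : y ∈ Subgroup.closure (Set.range (gen (G.comap (Function.Embedding.subtype fun w => w ∈ lkF G t)))) := by
      have := (racg (G.comap (Function.Embedding.subtype fun w => w ∈ lkF G t))).toCoxeterSystem.subgroup_closure_range_simple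
      have h2 : Subgroup.closure (Set.range (gen (G.comap (Function.Embedding.subtype fun w => w ∈ lkF G t)))) = ⊤ := this
      rw [h2]
      trivial
    induction h1 using Subgroup.closure_induction with
    | mem x hx =>
      obtain ⟨w, rfl⟩ := hx
      rw [hfg]
      have hw : (w : V) ∈ lkF G t := w.2
      unfold lkF at hw
      rw [mem_filter] at hw
      exact (gen_comm G v w (hw.2 v hv)).symm
    | one => rw [map_one, one_mul, mul_one]
    | mul x y _ _ hx hy => rw [map_mul, mul_assoc, hy, ← mul_assoc, hx, mul_assoc]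
    | inv x _ hx =>
      rw [map_inv, inv_mul_eq_iff_eq_mul, ← mul_assoc, hx, mul_assoc, mul_inv_cancel, mul_one]
  obtain ⟨K', B', m, hm, hM', hK', hA', hreg'⟩ := fixed hM hK hA hreg (gen G) t
    (fun v _ => gen_mul_gen G v) (fun v hv w hw => by
      by_cases hvw : v = w
      · rw [hvw]
      · exact gen_comm G v w (ht (mem_coe.2 hv) (mem_coe.2 hw) hvw))
    (fun l hl hlt htriv => by
      by_contra hne'
      obtain ⟨v, hv⟩ := List.exists_mem_of_ne_nil l hne'
      obtain ⟨u, huv, hadj⟩ := hcone v (hlt v hv)
      have hul : u ∉ l := by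
        intro hu
        exact hadj (ht (mem_coe.2 (hlt u hu)) (mem_coe.2 (hlt v hv)) huv)
      refine not_trivial (K := K) (B := B) G ⊤ ⟨fun g s hs => hA.K_mem (g : RGrp G) s hs,
        fun g s hs => hA.B_mem (g : RGrp G) s hs, fun u w hu =>
        ((hA.proper u w hu).preimage (f := fun g : (⊤ : Subgroup (RGrp G)) => (g : RGrp G))
          Subtype.val_injective.injOn).subset fun g hg => hg⟩
        hne huv hadj (Subgroup.mem_top _) (Subgroup.mem_top _) l hl hv hul
        ⟨(l.map (gen G)).prod, Subgroup.mem_top _⟩ rfl fun w hw => htriv w hw)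
    f.range hclo
  refine ⟨m, hm, U, inferInstance, MulAction.compHom U f.rangeRestrict, K', B', hM', hK',
    pact_comp f.rangeRestrict (fun a b hab => hf (congrArg Subtype.val hab)) hA', ?_⟩
  exact fun g s hs hgs u hu => hreg' (f.rangeRestrict g) s hs hgs u hu

end Pool.Agent.H8.SM
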