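import Pool.Agent.H8.SM.Link
import Pool.Agent.H19.SR.Lks
import Pool.Agent.H73.GC.Cone
import Pool.Agent.H73.GC.Prod2

/-!
# Project SM (Smith theory): the induction

`range_of_step`: the range for all right-angled Coxeter groups which act on acyclic homology manifolds follows from
the step with `n - i + e` walls (`e = 1`: project SR, `e = 0`: project SR6).
-/

set_option autoImplicit false
set_option linter.unusedSectionVars false

open Finset
open Pool.Agent.H73.GC
open Pool.Agent.H19.SR

namespace Pool.Agent.H8.SM

/-- The condition on the degree `i`, the dimension `n` and the bound `d` for the cliques. -/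
def Rng (e d n i : ℕ) : Prop :=
  ∀ j, i + j = min d n → 2 * (j + 1) * n + 2 + 2 * e * j ≤ 2 * (j + 2) * i + j * (j + 1)

private theorem num_rec {e j n i r c m k : ℤ} (he : 0 ≤ e)
    (h : 2 * (j + 1) * n + 2 + 2 * e * j ≤ 2 * (j + 2) * i + j * (j + 1)) (hjn : i + j ≤ n)
    (hr : r ≤ n - i + e - 1) (hc : 2 ≤ c) (hcj : c ≤ j + 1) (hm : m + r + c ≤ n) (hk : 0 ≤ k)
    (hkd : k ≤ j + 1 - c) :
    2 * (k + 1) * m + 2 + 2 * e * k ≤ 2 * (k + 2) * (i - r - 1) + k * (k + 1) := by
  have hA : (k + 1) * m ≤ (k + 1) * (n - r - c) :=
    mul_le_mul_of_nonneg_left (by linarith) (by linarith)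
  -- from `k` to `j + 1 - c`
  have hB : 0 ≤ (j + 1 - c - k) * (2 * (n - r - c) - 2 * (i - r - 1) + 2 * e - (j + 1 - c + k + 1)) := by
    rcases eq_or_lt_of_le hkd with h1 | h1
    · rw [h1]; simp
    · exact mul_nonneg (by linarith) (by linarith [Int.add_one_le_iff.2 h1])
  -- from `c` to `2`
  have hC : 0 ≤ (c - 2) * (2 * (n - i + e) + 1 - c) := mul_nonneg (by linarith) (by linarith)
  nlinarith [hA, hB, hC]

private theorem num_two {e j n i : ℤ} (he : 0 ≤ e) (he1 : e ≤ 1) (hj : 1 ≤ j)
    (h : 2 * (j + 1) * n + 2 + 2 * e * j ≤ 2 * (j + 2) * i + j * (j + 1)) (hjn : i + j ≤ n)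
    (hi : 1 ≤ i) : n + e + 1 ≤ 2 * i := by
  by_contra h1
  have h2 : 2 * i ≤ n + e := by linarith [Int.add_one_le_iff.2 (not_le.1 h1)]
  have h3 : (j + 2) * (2 * i) ≤ (j + 2) * (n + e) := mul_le_mul_of_nonneg_left h2 (by linarith)
  have h4 : 0 ≤ j * (n - j - 1) := mul_nonneg (by linarith) (by linarith)
  nlinarith [h3, h4, mul_nonneg he (by linarith : (0 : ℤ) ≤ j - 1)]

/-- **The induction.** -/
theorem range_of_step (e : ℕ) (he : e ≤ 1)
    (hstep : ∀ {V : Type} [DecidableEq V] [Fintype V] (G : SimpleGraph V) (n i : ℕ), InC G n →
      1 ≤ i → i ≤ n → n + 1 ≤ 2 * i →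
      (∀ r < max (n - i + e) 1, ∀ t : Finset V, G.IsClique (t : Set V) → r + 2 ≤ t.card →
        GZ G (lkF G t) (i - r - 1)) → GZ G univ i)
    (N : ℕ) : ∀ {V : Type} [DecidableEq V] [Fintype V] (G : SimpleGraph V) (n d i : ℕ),
      Fintype.card V ≤ N → InC G n → (∀ s : Finset V, G.IsClique (s : Set V) → s.card ≤ d) →
      1 ≤ i → Rng e d n i → GZ G univ i := by
  induction N with
  | zero =>
    intro V _ _ G n d i hN _ _ hi _
    refine gz_high fun s _ => ?_
    have h1 : s.card ≤ Fintype.card V := card_le_univ s
    omega
  | succ N ih =>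
    intro V _ _ G n d i hN hG hd hi hR
    classical
    by_cases hcone : ∃ v, ∀ w, w ≠ v → G.Adj v w
    · -- a cone vertex
      obtain ⟨v, hv⟩ := hcone
      have h1 := ih (G.comap (Function.Embedding.subtype fun w => w ≠ v)) n d i
        (by
          have h2 : Fintype.card {w // w ≠ v} < Fintype.card V :=
            Fintype.card_subtype_lt (x := v) (by simp)
          omega)
        (hG.comap _) (fun s hs => by
          have h2 := hd (s.map (Function.Embedding.subtype fun w => w ≠ v)) (by
            intro a ha b hb hab
            obtain ⟨a', ha', rfl⟩ := mem_map.1 (mem_coe.1 ha)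
            obtain ⟨b', hb', rfl⟩ := mem_map.1 (mem_coe.1 hb)
            exact hs (mem_coe.2 ha') (mem_coe.2 hb') fun h => hab (by rw [h]))
          rwa [card_map] at h2) hi hR
      have h2 := gz_map (Function.Embedding.subtype fun w => w ≠ v) G univ h1
      have h3 : (univ : Finset {w // w ≠ v}).map (Function.Embedding.subtype fun w => w ≠ v) =
          (univ : Finset V).erase v := by
        ext w
        rw [mem_map, mem_erase]
        constructor
        · rintro ⟨a, _, rfl⟩
          exact ⟨a.2, mem_univ _⟩
        · intro hw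
          exact ⟨⟨w, hw.1⟩, mem_univ _, rfl⟩
      rw [h3] at h2
      have h4 := gz_cone (notMem_erase v univ) (fun w hw => hv w (mem_erase.1 hw).1) h2
      rwa [insert_erase (mem_univ v)] at h4
    · have hnc : ∀ v, ∃ u, u ≠ v ∧ ¬ G.Adj u v := by
        intro v
        by_contra h1
        refine hcone ⟨v, fun w hw => ?_⟩
        by_contra h2
        exact h1 ⟨w, hw, fun h3 => h2 h3.symm⟩
      have hlink := fun (t : Finset V) (ht : G.IsClique (t : Set V)) =>
        hG.link ht fun v _ => hnc v
      -- the cliques have at most `D` vertices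
      obtain ⟨D, hD⟩ : ∃ D, D = min d n := ⟨_, rfl⟩
      have hDc : ∀ s : Finset V, G.IsClique (s : Set V) → s.card ≤ D := by
        intro s hs
        obtain ⟨m, hm, -⟩ := hlink s hs
        have := hd s hs
        omega
      rcases Nat.lt_or_ge D i with hDi | hDi
      · exact gz_high fun s hs => by
          have := hDc s hs.1
          omega
      obtain ⟨j, hj⟩ : ∃ j, i + j = D := ⟨D - i, by omega⟩
      have hR' := hR j (by rw [hj, hD])
      have hjn : i + j ≤ n := by omega
      have hR'' : 2 * ((j : ℤ) + 1) * n + 2 + 2 * e * j ≤ 2 * (j + 2) * i + j * (j + 1) := by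
        exact_mod_cast hR'
      have h2i : n + 1 ≤ 2 * i := by
        rcases Nat.eq_zero_or_pos j with rfl | hj0
        · omega
        · have h3 : (n : ℤ) + e + 1 ≤ 2 * i := num_two (j := (j : ℤ)) (by positivity)
            (by exact_mod_cast he) (by exact_mod_cast hj0) hR'' (by exact_mod_cast hjn)
            (by exact_mod_cast hi)
          have h4 : (n : ℤ) + 1 ≤ 2 * i := by
            have : (0 : ℤ) ≤ e := by positivity
            linarith
          exact_mod_cast h4
      refine hstep G n i hG hi (by omega) h2i fun r hr t ht hrt => ?_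
      obtain ⟨c, hc⟩ : ∃ c, t.card = r + c := ⟨t.card - r, by omega⟩
      have hc2 : 2 ≤ c := by omega
      obtain ⟨m, hm, hGm⟩ := hlink t ht
      -- the cliques of the link
      have hdl : ∀ s : Finset {w // w ∈ lkF G t},
          (G.comap (Function.Embedding.subtype fun w => w ∈ lkF G t)).IsClique (s : Set _) →
          s.card + t.card ≤ D := by
        intro s hs
        have h2 := hDc (s.map (Function.Embedding.subtype fun w => w ∈ lkF G t) ∪ t) (by
          rw [coe_union]
          intro a ha b hb hab
          have hlk : ∀ a' : {w // w ∈ lkF G t}, ∀ v ∈ t, G.Adj v a' := by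
            intro a' v hv
            have h3 : (a' : V) ∈ lkF G t := a'.2
            unfold lkF at h3
            rw [mem_filter] at h3
            exact h3.2 v hv
          rcases ha with ha | ha
          · obtain ⟨a', ha', rfl⟩ := mem_map.1 (mem_coe.1 ha)
            rcases hb with hb | hb
            · obtain ⟨b', hb', rfl⟩ := mem_map.1 (mem_coe.1 hb)
              exact hs (mem_coe.2 ha') (mem_coe.2 hb') fun h => hab (by rw [h])
            · exact (hlk a' b (mem_coe.1 hb)).symm
          · rcases hb with hb | hb
            · obtain ⟨b', hb', rfl⟩ := mem_map.1 (mem_coe.1 hb)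
              exact hlk b' a (mem_coe.1 ha)
            · exact ht ha hb hab)
        rw [card_union_of_disjoint (by
          rw [disjoint_left]
          intro a ha ha'
          obtain ⟨b, _, rfl⟩ := mem_map.1 ha
          have h3 : (b : V) ∈ lkF G t := b.2
          unfold lkF at h3
          rw [mem_filter] at h3
          exact G.loopless.irrefl _ (h3.2 _ ha')), card_map] at h2
        exact h2
      have h7 : (univ : Finset {w // w ∈ lkF G t}).map
          (Function.Embedding.subtype fun w => w ∈ lkF G t) = lkF G t := by
        ext w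
        rw [mem_map]
        constructor
        · rintro ⟨a, _, rfl⟩
          exact a.2
        · intro hw
          exact ⟨⟨w, hw⟩, mem_univ _, rfl⟩
      have hfin : GZ (G.comap (Function.Embedding.subtype fun w => w ∈ lkF G t)) univ (i - r - 1) →
          GZ G (lkF G t) (i - r - 1) := by
        intro h5
        have h6 := gz_map (Function.Embedding.subtype fun w => w ∈ lkF G t) G univ h5
        rwa [h7] at h6
      refine hfin ?_
      rcases Nat.lt_or_ge (j + 1) c with hcj | hcj
      · -- above the dimension of the link
        refine gz_high fun s hs => ?_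
        have h5 := hdl s hs.1
        omega
      · have hj1 : 1 ≤ j := by omega
        have hr' : r ≤ n - i + e - 1 := by omega
        have h3 : (n : ℤ) + e + 1 ≤ 2 * i := num_two (j := (j : ℤ)) (by positivity)
            (by exact_mod_cast he) (by exact_mod_cast hj1) hR'' (by exact_mod_cast hjn)
            (by exact_mod_cast hi)
        have hi' : r + 2 ≤ i := by
          have : n + e + 1 ≤ 2 * i := by exact_mod_cast h3
          omega
        refine ih _ m (D - t.card) (i - r - 1) ?_ hGm (fun s hs => ?_) (by omega) ?_
        · have h8 : Fintype.card {w // w ∈ lkF G t} < Fintype.card V := by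
            obtain ⟨v, hv⟩ : t.Nonempty := card_pos.1 (by omega)
            refine Fintype.card_subtype_lt (x := v) fun h9 => ?_
            unfold lkF at h9
            rw [mem_filter] at h9
            exact G.loopless.irrefl _ (h9.2 v hv)
          omega
        · have := hdl s hs
          omega
        · intro k hk
          have hk1 : k ≤ j + 1 - c := by omega
          have h10 : (2 : ℤ) * (k + 1) * m + 2 + 2 * e * k ≤
              2 * (k + 2) * ((i : ℤ) - r - 1) + k * (k + 1) := by
            refine num_rec (j := (j : ℤ)) (n := (n : ℤ)) (c := (c : ℤ)) (by positivity) hR''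
              (by exact_mod_cast hjn) ?_ (by exact_mod_cast hc2) (by exact_mod_cast hcj) ?_
              (by positivity) ?_
            · omega
            · omega
            · omega
          have h11 : ((i - r - 1 : ℕ) : ℤ) = (i : ℤ) - r - 1 := by omega
          have h12 : (2 : ℤ) * (k + 1) * m + 2 + 2 * e * k ≤
              2 * (k + 2) * ((i - r - 1 : ℕ) : ℤ) + k * (k + 1) := by
            rw [h11]
            exact h10
          exact_mod_cast h12

end Pool.Agent.H8.SM
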