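import Mathlib

/-!
# Project SM (Smith theory): the algebra of the Smith sequence

`C` a complex, `D` the subcomplex of the invariant cochains off the fixed set, `F` the complex of the fixed set:
`0 → D → C → D ⊕ F → 0` (the maps are `σ = 1 + τ` and the restriction `ρ`) is exact. The index is the number of the
vertices, there is nothing in degree `0`.
-/

set_option autoImplicit false

namespace Pool.Agent.H8.SM

/-- the Smith sequence -/
structure Sq (V : Type) [AddCommGroup V] where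
  C : ℕ → AddSubgroup V
  D : ℕ → AddSubgroup V
  F : ℕ → AddSubgroup V
  d : V →+ V
  e : V →+ V
  σ : V →+ V
  ρ : V →+ V
  two : ∀ x : V, x + x = 0
  zero : ∀ x ∈ C 0, x = 0
  D_le : ∀ k, ∀ x ∈ D k, x ∈ C k
  dC : ∀ k, ∀ x ∈ C k, d x ∈ C (k + 1)
  dD : ∀ k, ∀ x ∈ D k, d x ∈ D (k + 1)
  eF : ∀ k, ∀ x ∈ F k, e x ∈ F (k + 1)
  dd : ∀ k, ∀ x ∈ C k, d (d x) = 0
  σC : ∀ k, ∀ x ∈ C k, σ x ∈ D k
  ρC : ∀ k, ∀ x ∈ C k, ρ x ∈ F k
  σd : ∀ k, ∀ x ∈ C k, σ (d x) = d (σ x)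
  ρd : ∀ k, ∀ x ∈ C k, ρ (d x) = e (ρ x)
  σD : ∀ k, ∀ x ∈ D k, σ x = 0
  ρD : ∀ k, ∀ x ∈ D k, ρ x = 0
  surj : ∀ k, ∀ x ∈ D k, ∀ y ∈ F k, ∃ c ∈ C k, σ c = x ∧ ρ c = y
  ker : ∀ k, ∀ c ∈ C k, σ c = 0 → ρ c = 0 → c ∈ D k

/-- the cocycles in `X (k + 1)` are coboundaries -/
def HZ {V : Type} [AddCommGroup V] (X : ℕ → AddSubgroup V) (d : V →+ V) (k : ℕ) : Prop :=
  ∀ x ∈ X (k + 1), d x = 0 → ∃ y ∈ X k, d y = x

/-- the cohomology in `X (k + 1)` has exactly one element which is not zero -/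
def HO {V : Type} [AddCommGroup V] (X : ℕ → AddSubgroup V) (d : V →+ V) (k : ℕ) : Prop :=
  ∃ x ∈ X (k + 1), d x = 0 ∧ (¬ ∃ y ∈ X k, d y = x) ∧
    ∀ z ∈ X (k + 1), d z = 0 → (∃ y ∈ X k, d y = z) ∨ ∃ y ∈ X k, d y = z + x

theorem HO.not {V : Type} [AddCommGroup V] {X : ℕ → AddSubgroup V} {d : V →+ V} {k : ℕ} (h : HO X d k) :
    ¬ HZ X d k := by
  obtain ⟨x, hx, hdx, hne, -⟩ := h
  exact fun h0 => hne (h0 x hx hdx)

namespace Sq

variable {V : Type} [AddCommGroup V] (S : Sq V)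

include S in
theorem eq_of_add {x y : V} (h : x + y = 0) : x = y := by
  have h1 := S.two y
  calc x = x + (y + y) := by rw [h1, add_zero]
    _ = (x + y) + y := by rw [add_assoc]
    _ = y := by rw [h, zero_add]

include S in
theorem add_cancel (x y : V) : x + y + y = x := by rw [add_assoc, S.two, add_zero]

/-- injectivity of the connecting homomorphism -/
theorem inj {k : ℕ} (hC : HZ S.C S.d k) {c w : V} (hc : c ∈ S.C (k + 1)) (hw : w ∈ S.D (k + 1))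
    (h : S.d c = S.d w) : (∃ x ∈ S.D k, S.d x = S.σ c) ∧ ∃ y ∈ S.F k, S.e y = S.ρ c := by
  obtain ⟨g, hg, hgc⟩ := hC (c + w) ((S.C (k + 1)).add_mem hc (S.D_le _ w hw)) (by
    rw [map_add, h, S.two])
  have h1 : c = S.d g + w := by rw [hgc, S.add_cancel]
  refine ⟨⟨S.σ g, S.σC _ g hg, ?_⟩, ⟨S.ρ g, S.ρC _ g hg, ?_⟩⟩
  · rw [h1, map_add, S.σD _ w hw, add_zero, S.σd _ g hg]
  · rw [h1, map_add, S.ρD _ w hw, add_zero, S.ρd _ g hg]

/-- the connecting homomorphism: a pair of cocycles has a lift whose coboundary is a cocycle of `D` -/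
theorem lift {k : ℕ} {x y : V} (hx : x ∈ S.D k) (hdx : S.d x = 0) (hy : y ∈ S.F k) (hey : S.e y = 0) :
    ∃ c ∈ S.C k, S.σ c = x ∧ S.ρ c = y ∧ S.d c ∈ S.D (k + 1) := by
  obtain ⟨c, hc, h1, h2⟩ := S.surj k x hx y hy
  refine ⟨c, hc, h1, h2, S.ker _ _ (S.dC _ c hc) ?_ ?_⟩
  · rw [S.σd _ c hc, h1, hdx]
  · rw [S.ρd _ c hc, h2, hey]

theorem mem_of_D {k : ℕ} (h : HZ S.D S.d (k + 1)) (hC : HZ S.C S.d k) : HZ S.D S.d k ∧ HZ S.F S.e k := by
  constructor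
  · intro x hx hdx
    obtain ⟨c, hc, h1, -, h3⟩ := S.lift hx hdx (S.F (k + 1)).zero_mem (map_zero _)
    obtain ⟨w, hw, hwd⟩ := h _ h3 (S.dd _ c hc)
    obtain ⟨⟨y, hy, hyd⟩, -⟩ := S.inj hC hc hw hwd.symm
    exact ⟨y, hy, by rw [hyd, h1]⟩
  · intro x hx hdx
    obtain ⟨c, hc, -, h2, h3⟩ := S.lift (S.D (k + 1)).zero_mem (map_zero _) hx hdx
    obtain ⟨w, hw, hwd⟩ := h _ h3 (S.dd _ c hc)
    obtain ⟨-, ⟨y, hy, hyd⟩⟩ := S.inj hC hc hw hwd.symm
    exact ⟨y, hy, by rw [hyd, h2]⟩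

theorem hz_of_bot {X : ℕ → AddSubgroup V} {d : V →+ V} {k : ℕ} (h : ∀ x ∈ X (k + 1), x = 0) : HZ X d k :=
  fun x hx _ => ⟨0, (X k).zero_mem, by rw [map_zero, h x hx]⟩

theorem F_bot {k : ℕ} (h : ∀ x ∈ S.C k, x = 0) : ∀ y ∈ S.F k, y = 0 := by
  intro y hy
  obtain ⟨c, hc, -, h2⟩ := S.surj k 0 (S.D k).zero_mem y hy
  rw [← h2, h c hc, map_zero]

/-- **Smith.** If `C` is acyclic then `D` and `F` are acyclic. -/
theorem acyclic {N : ℕ} (hN : ∀ k, N < k → ∀ x ∈ S.C k, x = 0) (hC : ∀ k, HZ S.C S.d k) (k : ℕ) :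
    HZ S.D S.d k ∧ HZ S.F S.e k := by
  have key : ∀ j, ∀ k, N ≤ k + j → HZ S.D S.d k ∧ HZ S.F S.e k := by
    intro j
    induction j with
    | zero =>
      intro k hk
      exact ⟨hz_of_bot fun x hx => hN (k + 1) (by omega) x (S.D_le _ x hx),
        hz_of_bot (S.F_bot (hN (k + 1) (by omega)))⟩
    | succ j ih =>
      intro k hk
      exact S.mem_of_D (ih (k + 1) (by omega)).1 (hC k)
  exact key N k (by omega)

/-- the coboundary of a cochain with invariant class -/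
theorem one_step {k : ℕ} (h : HO S.D S.d (k + 1)) (hC : HZ S.C S.d k)
    (hB : ∀ x ∈ S.D (k + 2), S.d x = 0 → ∃ c ∈ S.C (k + 1), S.d c = x) :
    (HO S.D S.d k ∧ HZ S.F S.e k) ∨ (HZ S.D S.d k ∧ HO S.F S.e k) := by
  obtain ⟨x, hx, hdx, hne, hall⟩ := h
  obtain ⟨c, hc, hcx⟩ := hB x hx hdx
  -- the two components of the class
  have hσc : S.σ c ∈ S.D (k + 1) := S.σC _ c hc
  have hσd : S.d (S.σ c) = 0 := by rw [← S.σd _ c hc, hcx, S.σD _ x hx]
  have hρc : S.ρ c ∈ S.F (k + 1) := S.ρC _ c hc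
  have hρd : S.e (S.ρ c) = 0 := by rw [← S.ρd _ c hc, hcx, S.ρD _ x hx]
  -- any lift: its components are those of `0` or of `c`
  have hcomp : ∀ c' ∈ S.C (k + 1), S.d c' ∈ S.D (k + 2) →
      ((∃ a ∈ S.D k, S.d a = S.σ c') ∧ ∃ b ∈ S.F k, S.e b = S.ρ c') ∨
      ((∃ a ∈ S.D k, S.d a = S.σ c' + S.σ c) ∧ ∃ b ∈ S.F k, S.e b = S.ρ c' + S.ρ c) := by
    intro c' hc' hd'
    rcases hall _ hd' (S.dd _ c' hc') with ⟨w, hw, hwd⟩ | ⟨w, hw, hwd⟩
    · exact Or.inl (S.inj hC hc' hw hwd.symm)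
    · right
      have h1 := S.inj hC ((S.C (k + 1)).add_mem hc' hc) hw (by rw [map_add, hcx, hwd])
      rwa [map_add, map_add] at h1
  by_cases hσ : ∃ a ∈ S.D k, S.d a = S.σ c
  · -- the class comes from the fixed set
    right
    have hρne : ¬ ∃ b ∈ S.F k, S.e b = S.ρ c := by
      rintro ⟨b, hb, hbe⟩
      obtain ⟨a, ha, had⟩ := hσ
      obtain ⟨g, hg, hg1, hg2⟩ := S.surj k a ha b hb
      apply hne
      refine ⟨c + S.d g, ?_, ?_⟩
      · refine S.ker _ _ ((S.C (k + 1)).add_mem hc (S.dC _ g hg)) ?_ ?_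
        · rw [map_add, S.σd _ g hg, hg1, had, S.two]
        · rw [map_add, S.ρd _ g hg, hg2, hbe, S.two]
      · rw [map_add, S.dd _ g hg, add_zero, hcx]
    constructor
    · intro u hu hdu
      obtain ⟨c', hc', h1, h2, h3⟩ := S.lift hu hdu (S.F (k + 1)).zero_mem (map_zero _)
      rcases hcomp c' hc' h3 with ⟨⟨a, ha, had⟩, -⟩ | ⟨-, ⟨b, hb, hbe⟩⟩
      · exact ⟨a, ha, by rw [had, h1]⟩
      · exact absurd ⟨b, hb, by rw [hbe, h2, zero_add]⟩ hρne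
    · refine ⟨S.ρ c, hρc, hρd, hρne, fun z hz hez => ?_⟩
      obtain ⟨c', hc', h1, h2, h3⟩ := S.lift (S.D (k + 1)).zero_mem (map_zero _) hz hez
      rcases hcomp c' hc' h3 with ⟨-, ⟨b, hb, hbe⟩⟩ | ⟨-, ⟨b, hb, hbe⟩⟩
      · exact Or.inl ⟨b, hb, by rw [hbe, h2]⟩
      · exact Or.inr ⟨b, hb, by rw [hbe, h2]⟩
  · left
    -- the component in the fixed set is a coboundary
    have hρ : HZ S.F S.e k := by
      intro z hz hez
      obtain ⟨c', hc', h1, h2, h3⟩ := S.lift (S.D (k + 1)).zero_mem (map_zero _) hz hez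
      rcases hcomp c' hc' h3 with ⟨-, ⟨b, hb, hbe⟩⟩ | ⟨⟨a, ha, had⟩, -⟩
      · exact ⟨b, hb, by rw [hbe, h2]⟩
      · exact absurd ⟨a, ha, by rw [had, h1, zero_add]⟩ hσ
    refine ⟨⟨S.σ c, hσc, hσd, hσ, fun z hz hdz => ?_⟩, hρ⟩
    obtain ⟨c', hc', h1, h2, h3⟩ := S.lift hz hdz (S.F (k + 1)).zero_mem (map_zero _)
    rcases hcomp c' hc' h3 with ⟨⟨a, ha, had⟩, -⟩ | ⟨⟨a, ha, had⟩, -⟩
    · exact Or.inl ⟨a, ha, by rw [had, h1]⟩
    · exact Or.inr ⟨a, ha, by rw [had, h1]⟩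

/-- the properties of the degree `m` of the cohomology of the fixed set -/
structure Deg (S : Sq V) (N m : ℕ) : Prop where
  le : m ≤ N
  one : HO S.F S.e m
  F_hz : ∀ k, k ≠ m → HZ S.F S.e k
  D_one : ∀ k, m < k → k ≤ N → HO S.D S.d k
  D_hz : ∀ k, k ≤ m → HZ S.D S.d k

/-- **Smith.** The cohomology of `C` is `F₂` in degree `N + 1` (given by the functional `ε`, which vanishes on the
image of `σ`) and zero in the other degrees: then the cohomology of `F` is `F₂` in exactly one degree. -/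
theorem one {N : ℕ} (hN : ∀ k, N + 1 < k → ∀ x ∈ S.C k, x = 0) (hC : ∀ k, k < N → HZ S.C S.d k)
    (ε : V →+ ZMod 2) (hε : ∀ x ∈ S.C (N + 1), ε x = 0 → ∃ y ∈ S.C N, S.d y = x)
    (hεd : ∀ y ∈ S.C N, ε (S.d y) = 0) (hεσ : ∀ x ∈ S.C (N + 1), ε (S.σ x) = 0)
    (hε1 : ∃ x ∈ S.C (N + 1), ε x ≠ 0) : ∃ m, S.Deg N m := by
  have z2 : ∀ a : ZMod 2, a ≠ 0 → a = 1 := by decide
  -- cocycles of `D` are coboundaries of `C`
  have hB : ∀ k, k ≤ N → ∀ x ∈ S.D (k + 1), S.d x = 0 → ∃ c ∈ S.C k, S.d c = x := by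
    intro k hk x hx hdx
    rcases Nat.lt_or_eq_of_le hk with h | h
    · exact hC k h x (S.D_le _ x hx) hdx
    · subst h
      obtain ⟨c, hc, h1, -⟩ := S.surj _ x hx 0 (S.F _).zero_mem
      exact hε x (S.D_le _ x hx) (by rw [← h1]; exact hεσ c hc)
  have hFtop : ∀ k, N < k → HZ S.F S.e k := fun k hk => hz_of_bot (S.F_bot (hN (k + 1) (by omega)))
  -- every element of `C (N + 1)` is a cocycle
  have hcoc : ∀ x ∈ S.C (N + 1), S.d x = 0 := fun x hx => hN (N + 2) (by omega) _ (S.dC _ x hx)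
  have hcocF : ∀ y ∈ S.F (N + 1), S.e y = 0 := fun y hy =>
    S.F_bot (hN (N + 2) (by omega)) _ (S.eF _ y hy)
  -- the top degree
  have htop : (HO S.D S.d N ∧ HZ S.F S.e N) ∨ (HZ S.D S.d N ∧ HO S.F S.e N) := by
    obtain ⟨x, hx, hx1⟩ := hε1
    have hx1' := z2 _ hx1
    -- a cochain `c` with `σ c = d a`, `ρ c = e b` is a coboundary
    have hcob : ∀ c ∈ S.C (N + 1), (∃ a ∈ S.D N, S.d a = S.σ c) → (∃ b ∈ S.F N, S.e b = S.ρ c) →
        ε c = 0 := by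
      rintro c hc ⟨a, ha, had⟩ ⟨b, hb, hbe⟩
      obtain ⟨g, hg, hg1, hg2⟩ := S.surj N a ha b hb
      have h1 : c + S.d g ∈ S.D (N + 1) := by
        refine S.ker _ _ ((S.C (N + 1)).add_mem hc (S.dC _ g hg)) ?_ ?_
        · rw [map_add, S.σd _ g hg, hg1, had, S.two]
        · rw [map_add, S.ρd _ g hg, hg2, hbe, S.two]
      obtain ⟨g', hg', hgd⟩ := hB N le_rfl _ h1 (hcoc _ (S.D_le _ _ h1))
      have h2 : ε (c + S.d g) = 0 := by rw [← hgd]; exact hεd g' hg'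
      rw [map_add, hεd g hg, add_zero] at h2
      exact h2
    -- the components of any cochain
    have hcomp : ∀ c ∈ S.C (N + 1),
        ((∃ a ∈ S.D N, S.d a = S.σ c) ∧ ∃ b ∈ S.F N, S.e b = S.ρ c) ∨
        ((∃ a ∈ S.D N, S.d a = S.σ c + S.σ x) ∧ ∃ b ∈ S.F N, S.e b = S.ρ c + S.ρ x) := by
      intro c hc
      by_cases h : ε c = 0
      · left
        obtain ⟨g, hg, hgd⟩ := hε c hc h
        exact ⟨⟨S.σ g, S.σC _ g hg, by rw [← S.σd _ g hg, hgd]⟩,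
          ⟨S.ρ g, S.ρC _ g hg, by rw [← S.ρd _ g hg, hgd]⟩⟩
      · right
        obtain ⟨g, hg, hgd⟩ := hε (c + x) ((S.C (N + 1)).add_mem hc hx) (by
          rw [map_add, z2 _ h, hx1']; decide)
        exact ⟨⟨S.σ g, S.σC _ g hg, by rw [← S.σd _ g hg, hgd, map_add]⟩,
          ⟨S.ρ g, S.ρC _ g hg, by rw [← S.ρd _ g hg, hgd, map_add]⟩⟩
    by_cases hσ : ∃ a ∈ S.D N, S.d a = S.σ x
    · right
      have hρne : ¬ ∃ b ∈ S.F N, S.e b = S.ρ x := fun h => hx1 (hcob x hx hσ h)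
      constructor
      · intro u hu hdu
        obtain ⟨c, hc, h1, h2⟩ := S.surj _ u hu 0 (S.F _).zero_mem
        rcases hcomp c hc with ⟨⟨a, ha, had⟩, -⟩ | ⟨-, ⟨b, hb, hbe⟩⟩
        · exact ⟨a, ha, by rw [had, h1]⟩
        · exact absurd ⟨b, hb, by rw [hbe, h2, zero_add]⟩ hρne
      · refine ⟨S.ρ x, S.ρC _ x hx, hcocF _ (S.ρC _ x hx), hρne, fun z hz hez => ?_⟩
        obtain ⟨c, hc, h1, h2⟩ := S.surj _ 0 (S.D _).zero_mem z hz
        rcases hcomp c hc with ⟨-, ⟨b, hb, hbe⟩⟩ | ⟨-, ⟨b, hb, hbe⟩⟩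
        · exact Or.inl ⟨b, hb, by rw [hbe, h2]⟩
        · exact Or.inr ⟨b, hb, by rw [hbe, h2]⟩
    · left
      have hρ : HZ S.F S.e N := by
        intro z hz hez
        obtain ⟨c, hc, h1, h2⟩ := S.surj _ 0 (S.D _).zero_mem z hz
        rcases hcomp c hc with ⟨-, ⟨b, hb, hbe⟩⟩ | ⟨⟨a, ha, had⟩, -⟩
        · exact ⟨b, hb, by rw [hbe, h2]⟩
        · exact absurd ⟨a, ha, by rw [had, h1, zero_add]⟩ hσ
      refine ⟨⟨S.σ x, S.σC _ x hx, hcoc _ (S.D_le _ _ (S.σC _ x hx)), hσ, fun z hz hdz => ?_⟩, hρ⟩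
      obtain ⟨c, hc, h1, h2⟩ := S.surj _ z hz 0 (S.F _).zero_mem
      rcases hcomp c hc with ⟨⟨a, ha, had⟩, -⟩ | ⟨⟨a, ha, had⟩, -⟩
      · exact Or.inl ⟨a, ha, by rw [had, h1]⟩
      · exact Or.inr ⟨a, ha, by rw [had, h1]⟩
  -- descending induction
  have key : ∀ j k, k + j = N →
      (HO S.D S.d k ∧ (∀ i, k ≤ i → HZ S.F S.e i) ∧ ∀ i, k ≤ i → i ≤ N → HO S.D S.d i) ∨
      (HZ S.D S.d k ∧ ∃ m, k ≤ m ∧ m ≤ N ∧ HO S.F S.e m ∧ (∀ i, k ≤ i → i ≠ m → HZ S.F S.e i) ∧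
        (∀ i, m < i → i ≤ N → HO S.D S.d i) ∧ ∀ i, k ≤ i → i ≤ m → HZ S.D S.d i) := by
    intro j
    induction j with
    | zero =>
      intro k hk
      obtain rfl : k = N := by omega
      rcases htop with ⟨h1, h2⟩ | ⟨h1, h2⟩
      · left
        refine ⟨h1, fun i hi => ?_, fun i hi hi' => ?_⟩
        · rcases Nat.lt_or_eq_of_le hi with h | h
          · exact hFtop i h
          · rw [← h]; exact h2
        · obtain rfl : i = k := by omega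
          exact h1
      · right
        refine ⟨h1, k, le_rfl, le_rfl, h2, fun i hi hne => ?_, fun i hi hi' => by omega, fun i hi hi' => ?_⟩
        · exact hFtop i (by omega)
        · obtain rfl : i = k := by omega
          exact h1
    | succ j ih =>
      intro k hk
      have hlt : k < N := by omega
      rcases ih (k + 1) (by omega) with ⟨h1, h2, h3⟩ | ⟨h1, m, hm1, hm2, hm3, hm4, hm5, hm6⟩
      · rcases S.one_step h1 (hC k hlt) (fun x hx hdx => hB (k + 1) (by omega) x hx hdx) with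
          ⟨h4, h5⟩ | ⟨h4, h5⟩
        · left
          refine ⟨h4, fun i hi => ?_, fun i hi hi' => ?_⟩
          · rcases Nat.lt_or_eq_of_le hi with h | h
            · exact h2 i h
            · rw [← h]; exact h5
          · rcases Nat.lt_or_eq_of_le hi with h | h
            · exact h3 i h hi'
            · rw [← h]; exact h4
        · right
          refine ⟨h4, k, le_rfl, hlt.le, h5, fun i hi hne => h2 i (by omega), fun i hi hi' => h3 i hi hi',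
            fun i hi hi' => ?_⟩
          obtain rfl : i = k := by omega
          exact h4
      · right
        obtain ⟨h4, h5⟩ := S.mem_of_D h1 (hC k hlt)
        refine ⟨h4, m, by omega, hm2, hm3, fun i hi hne => ?_, hm5, fun i hi hi' => ?_⟩
        · rcases Nat.lt_or_eq_of_le hi with h | h
          · exact hm4 i h hne
          · rw [← h]; exact h5
        · rcases Nat.lt_or_eq_of_le hi with h | h
          · exact hm6 i h hi'
          · rw [← h]; exact h4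
  rcases key N 0 (by omega) with ⟨⟨x, hx, hdx, hne, -⟩, -, -⟩ | ⟨-, m, -, hm2, hm3, hm4, hm5, hm6⟩
  · exfalso
    obtain ⟨c, hc, hcx⟩ := hB 0 (Nat.zero_le _) x hx hdx
    exact hne ⟨0, (S.D 0).zero_mem, by rw [map_zero, ← hcx, S.zero c hc, map_zero]⟩
  · exact ⟨m, hm2, hm3, fun k hk => hm4 k (Nat.zero_le _) hk, hm5, fun k hk => hm6 k (Nat.zero_le _) hk⟩

end Sq

end Pool.Agent.H8.SM
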