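import Pool.Agent.H8.SM.Loc

/-!
# Project SM (Smith theory): the stars of the fixed simplices
-/

set_option autoImplicit false
set_option linter.unusedSectionVars false

open Finset
open Pool.Agent.H37.TM

namespace Pool.Agent.H8.SM

variable {U : Type} [DecidableEq U] {K B : Set (Finset U)} {n : ℕ} {τ : U → U} {s : Finset U}

theorem Inv.injective (h : Inv τ K B) : Function.Injective τ := fun a b hab => by
  rw [← h.inv a, hab, h.inv b]

theorem Inv.K_iff (h : Inv τ K B) (t : Finset U) : t.image τ ∈ K ↔ t ∈ K := by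
  constructor
  · intro h1
    have h2 := h.K_mem _ h1
    rwa [image_image h.inv] at h2
  · exact h.K_mem t

theorem Inv.B_iff (h : Inv τ K B) (t : Finset U) : t.image τ ∈ B ↔ t ∈ B := by
  constructor
  · intro h1
    have h2 := h.B_mem _ h1
    rwa [image_image h.inv] at h2
  · exact h.B_mem t

/-- the star of a fixed simplex (outside `B`) -/
theorem good_st (hM : Mfd K B n) (h : Inv τ K B) (hs : s ∈ Fx τ K) : Good τ (St K B s) where
  inv := h.inv
  fin := (hM.locfin s hs.1).subset fun t ht => ⟨ht.1, ht.2.2⟩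
  ne := fun t ht => hM.ne t ht.1
  conv := fun t ht t' ht' r h1 h2 =>
    ⟨hM.down t' ht'.1 r h2 ((hM.ne t ht.1).mono h1), fun hr => ht.2.1
      (hM.bd_down r hr t h1 (hM.ne t ht.1)), ht.2.2.trans h1⟩
  mem := fun t ht => ⟨h.K_mem t ht.1, fun h1 => ht.2.1 ((h.B_iff t).1 h1), by
    intro u hu
    rw [← hs.2 u hu]
    exact mem_image_of_mem τ (ht.2.2 hu)⟩
  reg := fun t ht => h.reg t ht.1

/-- the simplices of the star of `s` which do not contain `s'` -/
theorem good_diff (hM : Mfd K B n) (h : Inv τ K B) (hs : s ∈ Fx τ K) {s' : Finset U}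
    (hs' : s' ∈ Fx τ K) : Good τ {t | t ∈ St K B s ∧ ¬ s' ⊆ t} where
  inv := h.inv
  fin := (good_st hM h hs).fin.subset fun t ht => ht.1
  ne := fun t ht => (good_st hM h hs).ne t ht.1
  conv := fun t ht t' ht' r h1 h2 =>
    ⟨(good_st hM h hs).conv t ht.1 t' ht'.1 r h1 h2, fun h3 => ht'.2 (h3.trans h2)⟩
  mem := fun t ht => ⟨(good_st hM h hs).mem t ht.1, fun h1 => ht.2 (by
    intro u hu
    have h2 := h1 hu
    rw [← hs'.2 u hu] at h2
    obtain ⟨w, hw, hwu⟩ := mem_image.1 h2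
    rwa [← h.injective hwu])⟩
  reg := fun t ht => (good_st hM h hs).reg t ht.1

theorem mem_Cc_st {k : ℕ} {f : Finset U → ZMod 2} : f ∈ Cc (St K B s) k ↔ Rel K B s k f := by
  constructor
  · intro h t ht
    obtain ⟨⟨h1, h2, h3⟩, h4⟩ := h t ht
    exact ⟨h1, h2, h3, h4⟩
  · intro h t ht
    obtain ⟨h1, h2, h3, h4⟩ := h t ht
    exact ⟨⟨h1, h2, h3⟩, h4⟩

theorem sum_sdiff_eq {k : ℕ} {g : Finset U → ZMod 2} (hg : Rel K B s k g) (t : Finset U) :
    ∑ v ∈ t \ s, g (t.erase v) = ∑ v ∈ t, g (t.erase v) := by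
  refine sum_subset sdiff_subset fun v hv hv' => ?_
  by_contra h
  have h1 : v ∈ s := by
    by_contra h2
    exact hv' (mem_sdiff.2 ⟨hv, h2⟩)
  exact notMem_erase v t ((hg _ h).2.2.1 h1)

/-- coboundaries in the sense of `Mfd` -/
theorem isCob_iff {k : ℕ} {g f : Finset U → ZMod 2} (hg : Rel K B s k g) (hf : Rel K B s (k + 1) f) :
    IsCob K B s g f ↔ dT (St K B s) g = f := by
  constructor
  · intro h
    funext t
    by_cases h1 : t ∈ St K B s
    · rw [dT_apply h1, ← sum_sdiff_eq hg, h t h1.1 h1.2.1 h1.2.2]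
    · rw [dT_apply' h1]
      by_contra h2
      obtain ⟨h3, h4, h5, -⟩ := hf t (Ne.symm h2)
      exact h1 ⟨h3, h4, h5⟩
  · intro h t h1 h2 h3
    have h4 : t ∈ St K B s := ⟨h1, h2, h3⟩
    rw [sum_sdiff_eq hg, ← dT_apply h4, h]

theorem isCob_zero_iff {k : ℕ} {g : Finset U → ZMod 2} (hg : Rel K B s k g) :
    IsCob K B s g 0 ↔ dT (St K B s) g = 0 :=
  isCob_iff hg fun t ht => absurd rfl ht

/-- the local cohomology of a manifold below the top degree -/
theorem hz_st (hM : Mfd K B n) (hs : s ∈ K) {k : ℕ} (hk : k < n) :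
    HZ (Cc (St K B s)) (dT (St K B s)) k := by
  intro x hx hdx
  have h1 := mem_Cc_st.1 hx
  obtain ⟨g, hg, hgx⟩ := hM.low s hs k hk x h1 ((isCob_zero_iff h1).2 hdx)
  exact ⟨g, mem_Cc_st.2 hg, (isCob_iff hg h1).1 hgx⟩

/-- the sum of the values -/
noncomputable def ep {T : Set (Finset U)} (hT : T.Finite) : (Finset U → ZMod 2) →+ ZMod 2 where
  toFun f := ∑ t ∈ hT.toFinset, f t
  map_zero' := by simp
  map_add' f g := by simp [sum_add_distrib]

theorem ep_apply {T : Set (Finset U)} (hT : T.Finite) (f : Finset U → ZMod 2) :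
    ep hT f = ∑ t ∈ hT.toFinset, f t := rfl

theorem ep_eq {T : Set (Finset U)} (hT : T.Finite) {k : ℕ} {f : Finset U → ZMod 2} (hf : f ∈ Cc T k) :
    ep hT f = ∑ᶠ t, f t := by
  rw [ep_apply, finsum_eq_sum_of_support_subset]
  intro t ht
  rw [Set.Finite.coe_toFinset]
  exact (hf t ht).1

theorem ep_tr {T : Set (Finset U)} (h : Good τ T) (f : Finset U → ZMod 2) :
    ep h.fin (tr τ f) = ep h.fin f := by
  rw [ep_apply, ep_apply]
  refine sum_nbij' (fun t => t.image τ) (fun t => t.image τ) ?_ ?_ ?_ ?_ ?_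
  · intro t ht
    rw [Set.Finite.mem_toFinset] at ht ⊢
    exact h.mem t ht
  · intro t ht
    rw [Set.Finite.mem_toFinset] at ht ⊢
    exact h.mem t ht
  · intro t _
    exact image_image h.inv t
  · intro t _
    exact image_image h.inv t
  · intro t _
    rfl

/-- **The degree of the fixed set at `s`.** -/
theorem exists_deg (hM : Mfd K B n) (h : Inv τ K B) (hs : s ∈ Fx τ K) :
    ∃ m, (sq (good_st hM h hs)).Deg n m := by
  have hG := good_st hM h hs
  have htop : ∀ x ∈ Cc (St K B s) (n + 1), ep hG.fin x = 0 ↔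
      ∃ y ∈ Cc (St K B s) n, dT (St K B s) y = x := by
    intro x hx
    have h1 := mem_Cc_st.1 hx
    rw [ep_eq hG.fin hx, hM.top s hs.1 x h1]
    constructor
    · rintro ⟨g, hg, hgx⟩
      exact ⟨g, mem_Cc_st.2 hg, (isCob_iff hg h1).1 hgx⟩
    · rintro ⟨g, hg, hgx⟩
      exact ⟨g, mem_Cc_st.1 hg, (isCob_iff (mem_Cc_st.1 hg) h1).2 hgx⟩
  refine (sq hG).one (N := n) ?_ (fun k hk => hz_st hM hs.1 hk) (ep hG.fin) (fun x hx => (htop x hx).1)
    ?_ ?_ ?_
  · intro k hk x hx
    funext t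
    by_contra h1
    obtain ⟨h2, h3⟩ := hx t h1
    have h4 := hM.card_le t h2.1
    omega
  · intro y hy
    exact (htop _ (dT_mem hy)).2 ⟨y, hy, rfl⟩
  · intro x _
    show ep hG.fin (x + tr τ x) = 0
    rw [map_add, ep_tr hG]
    exact z2_add _
  · classical
    obtain ⟨t, ht, htB, hst, htc⟩ := hM.top_ex s hs.1
    have ht' : t ∈ St K B s := ⟨ht, htB, hst⟩
    refine ⟨Pi.single t 1, fun t' ht' => ?_, ?_⟩
    · by_cases h1 : t' = t
      · subst h1
        exact ⟨‹_›, htc⟩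
      · exact absurd (Pi.single_eq_of_ne h1 _) ht'
    · rw [ep_apply, sum_eq_single t]
      · rw [Pi.single_eq_same]; exact one_ne_zero
      · intro b _ hb
        exact Pi.single_eq_of_ne hb _
      · intro h1
        exact absurd ((Set.Finite.mem_toFinset _).2 ht') h1

end Pool.Agent.H8.SM
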