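import Pool.Agent.H8.SM.Base

/-!
# Project SM (Smith theory): connectivity, and the comparison of two stars
-/

set_option autoImplicit false
set_option linter.unusedSectionVars false

open Finset
open Pool.Agent.H37.TM

namespace Pool.Agent.H8.SM

variable {U : Type} [DecidableEq U] {K B : Set (Finset U)} {n : ℕ} {τ : U → U} {s : Finset U}

/-- a property of the vertices which passes along the edges of an acyclic complex -/
theorem conn (hK : Acyc K) (P : U → Prop) (hP : ∀ a b : U, ({a, b} : Finset U) ∈ K → P a → P b)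
    {u v : U} (hu : {u} ∈ K) (hv : {v} ∈ K) (h : P u) : P v := by
  classical
  by_contra hPv
  let w : Finset U → ZMod 2 := fun s => if ∃ a, s = {a} ∧ P a then 1 else 0
  have hw : ∀ a, w {a} = if P a then 1 else 0 := by
    intro a
    have : (∃ b, ({a} : Finset U) = {b} ∧ P b) ↔ P a := by
      constructor
      · rintro ⟨b, hb, hPb⟩
        rwa [singleton_injective hb]
      · exact fun ha => ⟨a, rfl, ha⟩
    simp only [w, this]
  have hw0 : ∀ s : Finset U, s.card ≠ 1 → w s = 0 := by
    intro s hs
    refine if_neg ?_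
    rintro ⟨a, rfl, -⟩
    exact hs (card_singleton a)
  let L := Finsupp.linearCombination (ZMod 2) w
  have hL : ∀ s : Finset U, s ∈ K → ∀ c, L (bdS (Finsupp.single s c)) = 0 := by
    intro s hs c
    have h1 : L (bdS (Finsupp.single s c)) = c * ∑ v ∈ s, w (s.erase v) := by
      simp only [L, bdS, Finsupp.linearCombination_single, map_smul, map_sum, smul_eq_mul, one_mul]
    rw [h1]
    by_cases h2 : s.card = 2
    · obtain ⟨a, b, hab, rfl⟩ := card_eq_two.1 h2
      rw [sum_pair hab]
      have h3 : ({a, b} : Finset U).erase a = {b} := by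
        ext x; simp only [mem_erase, mem_insert, mem_singleton]
        constructor
        · rintro ⟨h4, h5 | h5⟩
          · exact absurd h5 h4
          · exact h5
        · rintro rfl
          exact ⟨fun h4 => hab h4.symm, Or.inr rfl⟩
      have h4 : ({a, b} : Finset U).erase b = {a} := by
        ext x; simp only [mem_erase, mem_insert, mem_singleton]
        constructor
        · rintro ⟨h4, h5 | h5⟩
          · exact h5
          · exact absurd h5 h4
        · rintro rfl
          exact ⟨hab, Or.inl rfl⟩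
      rw [h3, h4, hw, hw]
      have h5 : P a ↔ P b := by
        constructor
        · exact hP a b hs
        · exact hP b a (by rwa [pair_comm])
      simp only [h5]
      rw [z2_add, mul_zero]
    · rw [sum_eq_zero, mul_zero]
      intro v hv
      apply hw0
      rw [card_erase_of_mem hv]
      have := card_pos.2 ⟨v, hv⟩
      omega
  obtain ⟨g, hg, hgb⟩ := hK (Finsupp.single {u} 1 + Finsupp.single {v} 1) (by
    intro s hs
    rw [Finsupp.add_apply, Finsupp.single_apply, Finsupp.single_apply] at hs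
    left
    by_cases h1 : {u} = s
    · rw [← h1]; exact hu
    · by_cases h2 : {v} = s
      · rw [← h2]; exact hv
      · rw [if_neg h1, if_neg h2, add_zero] at hs
        exact absurd rfl hs) (by
    have h1 : ∀ x : U, bdS (Finsupp.single ({x} : Finset U) (1 : ZMod 2)) = Finsupp.single ∅ 1 := by
      intro x
      simp only [bdS, Finsupp.linearCombination_single, one_smul, sum_singleton]
      rw [show ({x} : Finset U).erase x = ∅ from erase_singleton x]
    rw [map_add, h1, h1, ← Finsupp.single_add, z2_add, Finsupp.single_zero])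
  have h1 : L (bdS g) = 0 := by
    rw [← Finsupp.sum_single g, Finsupp.sum, map_sum, map_sum]
    refine sum_eq_zero fun s hs => ?_
    exact hL s (hg s (Finsupp.mem_support_iff.1 hs)) _
  rw [hgb, map_add, Finsupp.linearCombination_single, Finsupp.linearCombination_single, hw, hw,
    if_pos h, if_neg hPv, smul_zero, add_zero, smul_eq_mul, one_mul] at h1
  exact one_ne_zero h1

theorem acyc_nonempty (hK : Acyc K) : K.Nonempty := by
  obtain ⟨g, hg, hgb⟩ := hK (Finsupp.single ∅ 1) (fun s hs => by
    right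
    by_contra h
    exact hs (Finsupp.single_eq_of_ne h)) (by
    simp [bdS])
  by_contra h
  have h1 : g = 0 := by
    ext s
    by_contra h2
    exact h ⟨s, hg s h2⟩
  rw [h1, map_zero] at hgb
  have h2 := DFunLike.congr_fun hgb (∅ : Finset U)
  rw [Finsupp.single_eq_same] at h2
  exact zero_ne_one h2

/-- the restriction of a cochain to a set of sets -/
noncomputable def rt (R : Set (Finset U)) (f : Finset U → ZMod 2) : Finset U → ZMod 2 :=
  open Classical in fun t => if t ∈ R then f t else 0

theorem rt_mem {R T : Set (Finset U)} {k : ℕ} {f : Finset U → ZMod 2} (hf : f ∈ Cc T k) :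
    rt R f ∈ Cc R k := by
  classical
  intro t ht
  simp only [rt] at ht
  split_ifs at ht with h
  · exact ⟨h, (hf t ht).2⟩
  · exact absurd rfl ht

/-- restriction to the elements which do not contain `s'` commutes with the coboundary -/
theorem rt_dT {T : Set (Finset U)} {s' : Finset U} {k : ℕ} {y : Finset U → ZMod 2} (hy : y ∈ Cc T k) :
    rt {t | t ∈ T ∧ ¬ s' ⊆ t} (dT T y) =
      dT {t | t ∈ T ∧ ¬ s' ⊆ t} (rt {t | t ∈ T ∧ ¬ s' ⊆ t} y) := by
  classical
  funext t
  by_cases h : t ∈ {t | t ∈ T ∧ ¬ s' ⊆ t}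
  · rw [dT_apply h]
    simp only [rt]
    rw [if_pos h, dT_apply h.1]
    refine sum_congr rfl fun v _ => ?_
    by_cases h1 : t.erase v ∈ T
    · rw [if_pos]
      exact ⟨h1, fun h2 => h.2 (h2.trans (erase_subset v t))⟩
    · have h2 : y (t.erase v) = 0 := by
        by_contra h3
        exact h1 (hy _ h3).1
      rw [h2, ite_self]
  · rw [dT_apply' h]
    simp only [rt]
    rw [if_neg h]

/-- the coboundary in `T` of a cochain which is supported on the elements which contain `s'` -/
theorem dT_sup {T : Set (Finset U)} {s' : Finset U} {k : ℕ} {y : Finset U → ZMod 2}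
    (hy : y ∈ Cc {t | t ∈ T ∧ s' ⊆ t} k) : dT T y = dT {t | t ∈ T ∧ s' ⊆ t} y := by
  funext t
  by_cases h : t ∈ T
  · by_cases h1 : s' ⊆ t
    · rw [dT_apply h, dT_apply (show t ∈ {t | t ∈ T ∧ s' ⊆ t} from ⟨h, h1⟩)]
    · rw [dT_apply h, dT_apply' (fun h2 => h1 h2.2)]
      refine sum_eq_zero fun v _ => ?_
      by_contra h2
      exact h1 ((hy _ h2).1.2.trans (erase_subset v t))
  · rw [dT_apply' h, dT_apply' (fun h2 => h h2.1)]

/-- if the elements which do not contain `s'` have no cohomology, then a cochain on the elements which contain `s'`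
which is a coboundary is a coboundary of a cochain on these elements -/
theorem cob_sup {T : Set (Finset U)} {s' : Finset U} (hne : ∀ t ∈ T, t.Nonempty)
    (hc : ∀ t ∈ T, ∀ t' ∈ T, ∀ r, t ⊆ r → r ⊆ t' → r ∈ T)
    (hR : ∀ k, HZ (Cc {t | t ∈ T ∧ ¬ s' ⊆ t}) (dT {t | t ∈ T ∧ ¬ s' ⊆ t}) k)
    {k : ℕ} {x y : Finset U → ZMod 2} (hx : x ∈ Cc {t | t ∈ T ∧ s' ⊆ t} (k + 1)) (hy : y ∈ Cc T k)
    (h : dT T y = x) : ∃ y' ∈ Cc {t | t ∈ T ∧ s' ⊆ t} k, dT {t | t ∈ T ∧ s' ⊆ t} y' = x := by
  classical
  have hxR : rt {t | t ∈ T ∧ ¬ s' ⊆ t} x = 0 := by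
    funext t
    simp only [rt]
    split_ifs with h1
    · by_contra h2
      exact h1.2 (hx t h2).1.2
    · rfl
  have h1 : dT {t | t ∈ T ∧ ¬ s' ⊆ t} (rt {t | t ∈ T ∧ ¬ s' ⊆ t} y) = 0 := by
    rw [← rt_dT hy, h, hxR]
  cases k with
  | zero =>
    have h2 : y = 0 := by
      funext t
      by_contra h3
      obtain ⟨h4, h5⟩ := hy t h3
      exact (hne t h4).ne_empty (card_eq_zero.1 h5)
    refine ⟨0, AddSubgroup.zero_mem _, ?_⟩
    rw [map_zero, ← h, h2, map_zero]
  | succ k =>
    obtain ⟨z, hz, hzd⟩ := hR k _ (rt_mem hy) h1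
    have hz' : z ∈ Cc T k := fun t ht => ⟨(hz t ht).1.1, (hz t ht).2⟩
    have h3 : y + dT T z ∈ Cc {t | t ∈ T ∧ s' ⊆ t} (k + 1) := by
      have h4 : y + dT T z ∈ Cc T (k + 1) := AddSubgroup.add_mem _ hy (dT_mem hz')
      intro t ht
      refine ⟨⟨(h4 t ht).1, ?_⟩, (h4 t ht).2⟩
      by_contra h5
      have h6 : t ∈ {t | t ∈ T ∧ ¬ s' ⊆ t} := ⟨(h4 t ht).1, h5⟩
      have h7 := congrFun (rt_dT hz' (s' := s')) t
      have h8 : rt {t | t ∈ T ∧ ¬ s' ⊆ t} z = z := by
        funext r
        simp only [rt]
        split_ifs with h9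
        · rfl
        · by_contra h10
          exact h9 (hz r (Ne.symm h10)).1
      rw [h8, hzd] at h7
      simp only [rt] at h7
      rw [if_pos h6, if_pos h6] at h7
      apply ht
      rw [Pi.add_apply, h7]
      exact z2_add _
    refine ⟨_, h3, ?_⟩
    rw [← dT_sup h3, map_add, dT_dT hc hz', add_zero, h]

end Pool.Agent.H8.SM
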