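import Pool.Agent.H37.TM.MDefs

/-!
# Project SM (Smith theory): definitions

`τ` is an involution of the set of the vertices which preserves `K` and `B` and is regular: a simplex which is mapped
to itself is fixed pointwise. `Fx τ K` is the complex of the fixed simplices.
-/

set_option autoImplicit false
set_option linter.unusedSectionVars false

open Finset

namespace Pool.Agent.H8.SM

variable {U : Type} [DecidableEq U]

/-- a regular involution -/
structure Inv (τ : U → U) (K B : Set (Finset U)) : Prop where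
  inv : ∀ u, τ (τ u) = u
  K_mem : ∀ s ∈ K, s.image τ ∈ K
  B_mem : ∀ s ∈ B, s.image τ ∈ B
  reg : ∀ s ∈ K, s.image τ = s → ∀ u ∈ s, τ u = u

/-- the fixed simplices -/
def Fx (τ : U → U) (K : Set (Finset U)) : Set (Finset U) := {s | s ∈ K ∧ ∀ u ∈ s, τ u = u}

/-- the simplices outside `B` which contain `s` -/
def St (K B : Set (Finset U)) (s : Finset U) : Set (Finset U) := {t | t ∈ K ∧ t ∉ B ∧ s ⊆ t}

/-- the sets fixed by `τ` in a set of finite sets -/
def FT (τ : U → U) (T : Set (Finset U)) : Set (Finset U) := {t | t ∈ T ∧ ∀ u ∈ t, τ u = u}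

/-- the cochains on the elements of `T` with `k` vertices -/
def Cc (T : Set (Finset U)) (k : ℕ) : AddSubgroup (Finset U → ZMod 2) where
  carrier := {f | ∀ t, f t ≠ 0 → t ∈ T ∧ t.card = k}
  zero_mem' := fun t h => absurd rfl h
  add_mem' := by
    intro f g hf hg t h
    by_cases h1 : f t = 0
    · apply hg
      intro h2
      exact h (by rw [Pi.add_apply, h1, h2, add_zero])
    · exact hf t h1
  neg_mem' := by
    intro f hf t h
    exact hf t (by rwa [Pi.neg_apply, neg_ne_zero] at h)

theorem mem_Cc {T : Set (Finset U)} {k : ℕ} {f : Finset U → ZMod 2} :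
    f ∈ Cc T k ↔ ∀ t, f t ≠ 0 → t ∈ T ∧ t.card = k := Iff.rfl

open Classical in
/-- the coboundary on `T` -/
noncomputable def dT (T : Set (Finset U)) : (Finset U → ZMod 2) →+ (Finset U → ZMod 2) where
  toFun f t := if t ∈ T then ∑ v ∈ t, f (t.erase v) else 0
  map_zero' := by
    funext t
    simp
  map_add' f g := by
    funext t
    simp only [Pi.add_apply]
    split_ifs
    · rw [sum_add_distrib]
    · rw [add_zero]

/-- a finite convex set of nonempty sets with a regular involution -/
structure Good (τ : U → U) (T : Set (Finset U)) : Prop where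
  inv : ∀ u, τ (τ u) = u
  fin : T.Finite
  ne : ∀ t ∈ T, t.Nonempty
  conv : ∀ t ∈ T, ∀ t' ∈ T, ∀ r, t ⊆ r → r ⊆ t' → r ∈ T
  mem : ∀ t ∈ T, t.image τ ∈ T
  reg : ∀ t ∈ T, t.image τ = t → ∀ u ∈ t, τ u = u

end Pool.Agent.H8.SM
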