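import Pool.Agent.H8.SM.Base

/-!
# Project SM (Smith theory): the group `(ℤ/2)²` does not act freely on spheres

`klein`: suppose `m < n`, `T = St K B s`. `D = Dc g T`, `d = dT T`. For `m < k ≤ n` every cocycle
`w ∈ Dc g T (k + 1)` is `w₀ + d x'` with a cocycle `w₀ ∈ Dc g T (k + 1)` which is invariant under `v` and
`x' ∈ Dc g T k` (`Klein.split`):
* `k = m + 1`: `w = d c`, `c ∈ Cc T (m + 1)`, `σ c` is a cocycle of `D` in degree `m + 1`, so `σ c = d x''`
  (`Deg.D_hz`); lift `x''` to `c''` with `σ c'' = x''`, `ρ c'' = 0` and replace `c` by `c - d c''`: `σ c = 0`. The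
  cochain `y = rs g c` is invariant under `g` and `v` (the fixed sets are the same), `c - y ∈ D`,
  `w = d y + d (c - y)`, `w₀ = d y`.
* `k → k + 1`: `w = d c`, `ρ c` is a coboundary (`Deg.F_hz`), change `c` so that `ρ c = 0`; `σ c` is a cocycle of `D`,
  by induction `σ c = x₀ + d x'`, change `c` so that `σ c = x₀` is invariant under `v`. The group `{1, g, v, gv}` acts
  freely on the sets of `T` which are not fixed (`h1`, `h2`, regularity), so there is `c₀ ∈ Cc T`, `rs g c₀ = 0`,
  `tr v c₀ = c₀`, `c₀ + tr g c₀ = x₀` (`Klein.exists_half`). `c - c₀ ∈ D`, `w₀ = d c₀`.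
In the top degree `k = n`: every `u ∈ Dc g T (n + 1)` which is invariant under `v` is `w + tr v w`,
`w ∈ Dc g T (n + 1)` (freeness), `w = w₀ + d x'`, so `u = d (x' + tr v x')`, `x' + tr v x' ∈ D`. So every
`w ∈ Dc g T (n + 1)` is in `d (Dc g T n)`: this contradicts `Deg.D_one` (`HO.not`).
-/

set_option autoImplicit false
set_option linter.unusedSectionVars false

open Finset
open Pool.Agent.H37.TM

namespace Pool.Agent.H8.SM

variable {U : Type} [DecidableEq U] {K B : Set (Finset U)} {n : ℕ} {τ : U → U} {s : Finset U}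

namespace Klein

/-- a selector of the orbits of `b` on the orbits of `a` -/
theorem exists_half {a b : U → U} (ha : ∀ u, a (a u) = u) (hb : ∀ u, b (b u) = u)
    (hab : ∀ u, a (b u) = b (a u)) {x : Finset U → ZMod 2} (hxa : tr a x = x) (hxb : tr b x = x)
    (h : ∀ t, x t ≠ 0 → t.image b ≠ t ∧ t.image b ≠ t.image a) :
    ∃ c : Finset U → ZMod 2, (∀ t, c t ≠ 0 → x t ≠ 0) ∧ tr a c = c ∧ c + tr b c = x := by
  classical
  have hab' : ∀ t : Finset U, (t.image b).image a = (t.image a).image b := by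
    intro t
    rw [Finset.image_image, Finset.image_image]
    exact image_congr fun u _ => hab u
  obtain ⟨P, hP⟩ := exists_sel (τ := fun t : Finset U => t.image b) (fun t => image_image hb t)
  have hpair : ∀ t : Finset U, ({t, t.image a} : Finset (Finset U)).image (fun t => t.image b) =
      {t.image b, (t.image b).image a} := by
    intro t
    rw [image_insert, image_singleton, hab']
  refine ⟨fun t => if P {t, t.image a} then x t else 0, ?_, ?_, ?_⟩
  · intro t ht hx
    exact ht (by simp [hx])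
  · funext t
    rw [tr_apply]
    have h1 : x (t.image a) = x t := congrFun hxa t
    rw [image_image ha, pair_comm, h1]
  · funext t
    rw [Pi.add_apply, tr_apply]
    have h1 : x (t.image b) = x t := congrFun hxb t
    rw [h1, ← hpair]
    by_cases hx : x t = 0
    · simp [hx]
    · obtain ⟨h2, h3⟩ := h t hx
      have h4 : ({t, t.image a} : Finset (Finset U)).image (fun t => t.image b) ≠ {t, t.image a} := by
        intro h5
        have h6 : t.image b ∈ ({t, t.image a} : Finset (Finset U)) := by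
          rw [← h5, hpair]
          exact mem_insert_self _ _
        rcases mem_insert.1 h6 with h7 | h7
        · exact h2 h7
        · exact h3 (mem_singleton.1 h7)
      rcases hP _ h4 with ⟨h5, h6⟩ | ⟨h5, h6⟩
      · rw [if_pos h5, if_neg h6, add_zero]
      · rw [if_neg h5, if_pos h6, zero_add]

end Klein

/-- Commuting regular involutions `g`, `v` such that `g`, `v` and `g v` have the same fixed simplices act trivially
(the dimension of the fixed set is `n`). -/
theorem klein (hM : Mfd K B n) {g v : U → U} (hg : Inv g K B) (hv : Inv v K B)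
    (hc : ∀ u, g (v u) = v (g u)) (hgv : Inv (fun u => g (v u)) K B)
    (h1 : ∀ s ∈ K, (∀ u ∈ s, g u = u) ↔ ∀ u ∈ s, v u = u)
    (h2 : ∀ s ∈ K, (∀ u ∈ s, g (v u) = u) → ∀ u ∈ s, g u = u)
    (hs : s ∈ Fx g K) {m : ℕ} (hm : (sq (good_st hM hg hs)).Deg n m) : m = n := by
  have hG := good_st hM hg hs
  have hsv : s ∈ Fx v K := ⟨hs.1, (h1 s hs.1).1 hs.2⟩
  have hV := good_st hM hv hsv
  by_contra hne
  have hmn : m < n := lt_of_le_of_ne hm.le hne
  -- the sets which are not fixed
  have hfree : ∀ t ∈ St K B s, ¬ (∀ u ∈ t, g u = u) →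
      t.image g ≠ t ∧ t.image v ≠ t ∧ t.image g ≠ t.image v := by
    intro t ht hnf
    refine ⟨fun h => hnf (hg.reg t ht.1 h), fun h => hnf ((h1 t ht.1).2 (hv.reg t ht.1 h)), fun h => ?_⟩
    refine hnf (h2 t ht.1 (hgv.reg t ht.1 ?_))
    have h3 : t.image (fun u => g (v u)) = (t.image v).image g := by
      rw [Finset.image_image]; rfl
    rw [h3, ← h, image_image hg.inv]
  -- the elements of `D`
  have hDx : ∀ k, ∀ x ∈ Dc g (St K B s) k, ∀ t, x t ≠ 0 → t ∈ St K B s ∧ ¬ (∀ u ∈ t, g u = u) := by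
    intro k x hx t ht
    refine ⟨(hx.1 t ht).1, fun h => ht ?_⟩
    have h3 := congrFun hx.2.2 t
    rwa [rs_pos h] at h3
  have hcv : ∀ f : Finset U → ZMod 2, tr v (tr g f) = tr g (tr v f) := by
    intro f
    funext t
    rw [tr_apply, tr_apply, tr_apply, tr_apply]
    congr 1
    rw [Finset.image_image, Finset.image_image]
    exact image_congr fun u _ => hc u
  -- `v` preserves `D`
  have hDv : ∀ k, ∀ x ∈ Dc g (St K B s) k, tr v x ∈ Dc g (St K B s) k := by
    intro k x hx
    refine ⟨tr_mem hV hx.1, by rw [← hcv, hx.2.1], ?_⟩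
    funext t
    by_cases h : ∀ u ∈ t, g u = u
    · rw [rs_pos h, tr_apply]
      have h3 : ∀ u ∈ t.image v, g u = u := by
        intro u hu
        obtain ⟨w, hw, rfl⟩ := mem_image.1 hu
        rw [hc, h w hw]
      have h4 := congrFun hx.2.2 (t.image v)
      rwa [rs_pos h3] at h4
    · rw [rs_neg h, Pi.zero_apply]
  -- the cocycles of `D` are coboundaries
  have hB : ∀ k, k ≤ n → ∀ x ∈ Dc g (St K B s) (k + 1), dT (St K B s) x = 0 →
      ∃ c ∈ Cc (St K B s) k, dT (St K B s) c = x := by
    intro k hk x hx hdx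
    rcases Nat.lt_or_eq_of_le hk with h | h
    · exact hz_st hM hs.1 h x hx.1 hdx
    · subst h
      obtain ⟨c, hc', h3, -⟩ := (sq hG).surj _ x hx 0 ((sq hG).F _).zero_mem
      have h4 : ep hG.fin x = 0 := by
        rw [← h3]
        show ep hG.fin (c + tr g c) = 0
        rw [map_add, ep_tr hG]
        exact z2_add _
      have h5 := mem_Cc_st.1 hx.1
      rw [ep_eq hG.fin hx.1, hM.top s hs.1 x h5] at h4
      obtain ⟨y, hy, hyx⟩ := h4
      exact ⟨y, mem_Cc_st.2 hy, (isCob_iff hy h5).1 hyx⟩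
  -- the decomposition of the cocycles of `D`
  have key : ∀ j, ∀ k, k = m + 1 + j → k ≤ n → ∀ w ∈ Dc g (St K B s) (k + 1), dT (St K B s) w = 0 →
      ∃ w₀ ∈ Dc g (St K B s) (k + 1), tr v w₀ = w₀ ∧ dT (St K B s) w₀ = 0 ∧
        ∃ x' ∈ Dc g (St K B s) k, w = w₀ + dT (St K B s) x' := by
    intro j
    induction j with
    | zero =>
      intro k hk hkn w hw hdw
      obtain rfl : k = m + 1 := by omega
      obtain ⟨c, hc', hcw⟩ := hB _ hkn w hw hdw
      have h3 : (sq hG).σ c ∈ Dc g (St K B s) (m + 1) := (sq hG).σC _ c hc'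
      have h4 : dT (St K B s) ((sq hG).σ c) = 0 := by
        have h5 := (sq hG).σd _ c hc'
        have h6 : (sq hG).σ ((sq hG).d c) = 0 := by
          show (sq hG).σ (dT (St K B s) c) = 0
          rw [hcw]
          exact (sq hG).σD _ w hw
        rw [h6] at h5
        exact h5.symm
      obtain ⟨x'', hx'', hdx⟩ := hm.D_hz m le_rfl _ h3 h4
      obtain ⟨c'', hc'', h5, h6⟩ := (sq hG).surj _ x'' hx'' 0 ((sq hG).F _).zero_mem
      have hc1 : c + dT (St K B s) c'' ∈ Cc (St K B s) (m + 1) :=
        (Cc _ _).add_mem hc' (dT_mem hc'')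
      have hσ1 : (sq hG).σ (c + dT (St K B s) c'') = 0 := by
        rw [map_add]
        have h7 : (sq hG).σ (dT (St K B s) c'') = (sq hG).σ c := by
          rw [← hdx, ← h5]
          exact (sq hG).σd _ c'' hc''
        rw [h7, (sq hG).two]
      have hd1 : dT (St K B s) (c + dT (St K B s) c'') = w := by
        rw [map_add, dT_dT hG.conv hc'', add_zero, hcw]
      generalize hcc : c + dT (St K B s) c'' = c1 at hc1 hσ1 hd1
      -- the restriction to the fixed sets
      have hyF : rs g c1 ∈ Cc (FT g (St K B s)) (m + 1) := (sq hG).ρC _ c1 hc1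
      have hyC : rs g c1 ∈ Cc (St K B s) (m + 1) := fun t ht => ⟨(hyF t ht).1.1, (hyF t ht).2⟩
      have hyg : tr g (rs g c1) = rs g c1 := by
        funext t
        rw [tr_apply]
        by_cases h : ∀ u ∈ t, g u = u
        · rw [image_fix h]
        · rw [rs_neg h, rs_neg]
          intro h7
          apply h
          intro u hu
          have h8 := h7 (g u) (mem_image_of_mem g hu)
          rw [hg.inv] at h8
          exact h8.symm
      have hyv : tr v (rs g c1) = rs g c1 := by
        funext t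
        rw [tr_apply]
        by_cases h : t ∈ FT g (St K B s)
        · rw [image_fix ((h1 t h.1.1).1 h.2)]
        · have h7 : rs g c1 t = 0 := by
            by_contra h8
            exact h (hyF t h8).1
          rw [h7]
          by_contra h8
          obtain ⟨⟨h9, h10⟩, -⟩ := hyF _ h8
          have h11 := image_fix ((h1 _ h9.1).1 h10)
          rw [image_image hv.inv] at h11
          rw [← h11] at h9 h10
          exact h ⟨h9, h10⟩
      have hD1 : c1 + rs g c1 ∈ Dc g (St K B s) (m + 1) := by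
        refine (sq hG).ker _ _ ((Cc _ _).add_mem hc1 hyC) ?_ ?_
        · rw [map_add, hσ1, zero_add]
          show rs g c1 + tr g (rs g c1) = 0
          rw [hyg]
          exact (sq hG).two _
        · show rs g (c1 + rs g c1) = 0
          rw [map_add]
          have h7 : rs g (rs g c1) = rs g c1 := by
            funext t
            by_cases h : ∀ u ∈ t, g u = u
            · rw [rs_pos h]
            · rw [rs_neg h, rs_neg h]
          rw [h7]
          exact (sq hG).two _
      have hw0 : dT (St K B s) (rs g c1) = w + dT (St K B s) (c1 + rs g c1) := by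
        rw [map_add, hd1, ← add_assoc]
        have h7 : w + w = 0 := (sq hG).two w
        rw [h7, zero_add]
      refine ⟨dT (St K B s) (rs g c1), ?_, ?_, dT_dT hG.conv hyC, c1 + rs g c1, hD1, ?_⟩
      · rw [hw0]
        exact (Dc _ _ _).add_mem hw ((sq hG).dD _ _ hD1)
      · rw [tr_dT hV, hyv]
      · rw [hw0, add_assoc]
        have h7 := (sq hG).two (dT (St K B s) (c1 + rs g c1))
        rw [h7, add_zero]
    | succ j ih =>
      intro k' hk hkn w hw hdw
      obtain ⟨k, rfl⟩ : ∃ k, k' = k + 1 := ⟨m + 1 + j, by omega⟩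
      obtain ⟨c, hc', hcw⟩ := hB _ hkn w hw hdw
      have h3 : rs g c ∈ Cc (FT g (St K B s)) (k + 1) := (sq hG).ρC _ c hc'
      have h4 : dT (FT g (St K B s)) (rs g c) = 0 := by
        rw [← rs_dT, hcw]
        exact hw.2.2
      obtain ⟨b, hb, hbc⟩ := hm.F_hz k (by omega) _ h3 h4
      obtain ⟨c'', hc'', h5, h6⟩ := (sq hG).surj _ 0 ((sq hG).D _).zero_mem b hb
      have hc1 : c + dT (St K B s) c'' ∈ Cc (St K B s) (k + 1) :=
        (Cc _ _).add_mem hc' (dT_mem hc'')
      have hρ1 : rs g (c + dT (St K B s) c'') = 0 := by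
        rw [map_add, rs_dT]
        have h7 : rs g c'' = b := h6
        have h8 : dT (FT g (St K B s)) b = rs g c := hbc
        rw [h7, h8]
        exact (sq hG).two _
      have hd1 : dT (St K B s) (c + dT (St K B s) c'') = w := by
        rw [map_add, dT_dT hG.conv hc'', add_zero, hcw]
      generalize hcc : c + dT (St K B s) c'' = c1 at hc1 hρ1 hd1
      have hσ1 : (sq hG).σ c1 ∈ Dc g (St K B s) (k + 1) := (sq hG).σC _ c1 hc1
      have hσd1 : dT (St K B s) ((sq hG).σ c1) = 0 := by
        have h5 := (sq hG).σd _ c1 hc1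
        have h6 : (sq hG).σ ((sq hG).d c1) = 0 := by
          show (sq hG).σ (dT (St K B s) c1) = 0
          rw [hd1]
          exact (sq hG).σD _ w hw
        rw [h6] at h5
        exact h5.symm
      obtain ⟨x₀, hx₀, hx₀v, -, x', hx', hx⟩ := ih k (by omega) (by omega) _ hσ1 hσd1
      obtain ⟨c3, hc3, h7, h8⟩ := (sq hG).surj _ x' hx' 0 ((sq hG).F _).zero_mem
      have hc2 : c1 + dT (St K B s) c3 ∈ Cc (St K B s) (k + 1) :=
        (Cc _ _).add_mem hc1 (dT_mem hc3)
      have hσ2 : (sq hG).σ (c1 + dT (St K B s) c3) = x₀ := by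
        rw [map_add, hx]
        have h9 : (sq hG).σ (dT (St K B s) c3) = dT (St K B s) x' := by
          rw [← h7]
          exact (sq hG).σd _ c3 hc3
        rw [h9, add_assoc]
        have h10 := (sq hG).two (dT (St K B s) x')
        rw [h10, add_zero]
      have hρ2 : rs g (c1 + dT (St K B s) c3) = 0 := by
        rw [map_add, hρ1, rs_dT, zero_add]
        have h9 : rs g c3 = 0 := h8
        rw [h9, map_zero]
      have hd2 : dT (St K B s) (c1 + dT (St K B s) c3) = w := by
        rw [map_add, dT_dT hG.conv hc3, add_zero, hd1]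
      generalize hcc2 : c1 + dT (St K B s) c3 = c2 at hc2 hσ2 hρ2 hd2
      -- the half of `x₀`
      obtain ⟨c₀, hc₀, hc₀v, hc₀g⟩ := Klein.exists_half hv.inv hg.inv (fun u => (hc u).symm) hx₀v
        hx₀.2.1 (fun t ht => by
          obtain ⟨h9, h10⟩ := hDx _ x₀ hx₀ t ht
          obtain ⟨h11, h12, h13⟩ := hfree t h9 h10
          exact ⟨h11, h13⟩)
      have hc₀C : c₀ ∈ Cc (St K B s) (k + 1) := fun t ht => hx₀.1 t (hc₀ t ht)
      have hc₀ρ : rs g c₀ = 0 := by
        funext t
        by_cases h : ∀ u ∈ t, g u = u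
        · rw [rs_pos h, Pi.zero_apply]
          by_contra h9
          exact (hDx _ x₀ hx₀ t (hc₀ t h9)).2 h
        · rw [rs_neg h, Pi.zero_apply]
      have hD2 : c2 + c₀ ∈ Dc g (St K B s) (k + 1) := by
        refine (sq hG).ker _ _ ((Cc _ _).add_mem hc2 hc₀C) ?_ ?_
        · rw [map_add, hσ2]
          have h9 : (sq hG).σ c₀ = x₀ := hc₀g
          rw [h9]
          exact (sq hG).two _
        · show rs g (c2 + c₀) = 0
          rw [map_add, hρ2, hc₀ρ, add_zero]
      have hw0 : dT (St K B s) c₀ = w + dT (St K B s) (c2 + c₀) := by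
        rw [map_add, hd2, ← add_assoc]
        have h9 : w + w = 0 := (sq hG).two w
        rw [h9, zero_add]
      refine ⟨dT (St K B s) c₀, ?_, ?_, dT_dT hG.conv hc₀C, c2 + c₀, hD2, ?_⟩
      · rw [hw0]
        exact (Dc _ _ _).add_mem hw ((sq hG).dD _ _ hD2)
      · rw [tr_dT hV, hc₀v]
      · rw [hw0, add_assoc]
        have h9 := (sq hG).two (dT (St K B s) (c2 + c₀))
        rw [h9, add_zero]
  -- the top degree
  have htop : ∀ w ∈ Dc g (St K B s) (n + 1), dT (St K B s) w = 0 := by
    intro w hw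
    funext t
    by_contra h3
    obtain ⟨h4, h5⟩ := dT_mem hw.1 t h3
    have h6 := hM.card_le t h4.1
    omega
  refine (hm.D_one n hmn le_rfl).not ?_
  intro w hw _
  obtain ⟨w₀, hw₀, hw₀v, -, x', hx', hww⟩ := key (n - m - 1) n (by omega) le_rfl w hw (htop w hw)
  obtain ⟨c₀, hc₀, hc₀g, hc₀v⟩ := Klein.exists_half hg.inv hv.inv hc hw₀.2.1 hw₀v
    (fun t ht => by
      obtain ⟨h9, h10⟩ := hDx _ w₀ hw₀ t ht
      obtain ⟨h11, h12, h13⟩ := hfree t h9 h10
      exact ⟨h12, h13.symm⟩)
  have hc₀D : c₀ ∈ Dc g (St K B s) (n + 1) := by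
    refine ⟨fun t ht => hw₀.1 t (hc₀ t ht), hc₀g, ?_⟩
    funext t
    by_cases h : ∀ u ∈ t, g u = u
    · rw [rs_pos h, Pi.zero_apply]
      by_contra h9
      exact (hDx _ w₀ hw₀ t (hc₀ t h9)).2 h
    · rw [rs_neg h, Pi.zero_apply]
  obtain ⟨w₁, hw₁, hw₁v, -, x'', hx'', hww'⟩ := key (n - m - 1) n (by omega) le_rfl c₀ hc₀D
    (htop c₀ hc₀D)
  refine ⟨x'' + tr v x'' + x', (Dc _ _ _).add_mem ((Dc _ _ _).add_mem hx'' (hDv _ _ hx'')) hx', ?_⟩
  have h3 : w₀ = dT (St K B s) (x'' + tr v x'') := by
    rw [← hc₀v, hww', map_add, map_add, hw₁v, tr_dT hV]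
    have h4 : w₁ + w₁ = 0 := (sq hG).two w₁
    calc w₁ + dT (St K B s) x'' + (w₁ + dT (St K B s) (tr v x''))
        = (w₁ + w₁) + (dT (St K B s) x'' + dT (St K B s) (tr v x'')) := by abel
      _ = _ := by rw [h4, zero_add]
  show dT (St K B s) (x'' + tr v x'' + x') = w
  rw [hww, h3, map_add _ (x'' + tr v x'') x']

end Pool.Agent.H8.SM
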