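import Pool.Agent.H8.SM.Man
import Pool.Agent.H8.SM.Klein

/-!
# Project SM (Smith theory): elementary abelian groups

`drop'`: induction on the order of `E` modulo the subgroup `N` of the elements which act trivially on `K` (for all
`K`, `B`, `n`, `k`). If all elements of `E` act trivially: `FE E K = K`, `k = 0`. Otherwise choose `v ∈ E` which does not
act trivially such that the dimension `m` of `Fx v K` (`mfd_fx`) is maximal; `m < n`. `E` acts on `Fx v K`, `Fx v B`
(regular). Claim: the elements `g` of `E` which act trivially on `Fx v K` are those of `N ∪ v N`. Otherwise `g`, `g v`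
are not in `N`, `Fx v K ⊆ Fx g K`, `Fx v K ⊆ Fx (g v) K`, the dimensions of `Fx g K`, `Fx (g v) K` are at least `m`
(a simplex with `m + 1` vertices, `Mfd.top_ex`), so equal to `m` (maximality), and then `Fx g K = Fx v K = Fx (g v) K`:
a homology manifold of dimension `m` contained in a connected one of the same dimension (lemma `eq_of_sub` below, use
the degrees of `mfd_fx`), and `klein` gives `m = n`. So `|E / N'| = |E / N| / 2`, and the induction hypothesis for
`Fx v K` gives dimension `≤ m - (k - 1) ≤ n - k`; `FE E (Fx v K) = FE E K`.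
`eq_of_sub`: `L ⊆ K` homology manifolds of the same dimension `m` (boundaries `C = L ∩ B`), `K` acyclic, `L ≠ ∅`: `L = K`.
(If `s ∈ L` has `m` vertices and `s ∉ B` then it is contained in two simplices with `m + 1` vertices of `L`, and in
exactly two of `K`; the simplices with `m + 1` vertices of `K` are connected through such faces; or: for `s ∈ L` the
sum of the top simplices of `L` which contain `s` and the local cohomology `top`: the restriction to `L` of a cochain
...; any proof.)
-/

set_option autoImplicit false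
set_option linter.unusedSectionVars false

open Finset Pointwise
open Pool.Agent.H37.TM

namespace Pool.Agent.H8.SM

variable {U : Type} [DecidableEq U] {K B : Set (Finset U)} {n : ℕ}

/-- a simplex of `L` has the same star in `K` -/
private theorem star_sub {L : Set (Finset U)} {m : ℕ} (hM : Mfd K B m)
    (hL : Mfd L (L ∩ B) m) (hLK : L ⊆ K) {s : Finset U} (hs : s ∈ L) {r : Finset U} (hr : r ∈ K) (hsr : s ⊆ r) :
    r ∈ L := by
  classical
  have key : ∀ t ∈ K, t ∉ B → s ⊆ t → t.card = m + 1 → t ∈ L := by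
    intro t htK htB hst htc
    by_contra htL
    obtain ⟨t0, ht0L, ht0B, hst0, ht0c⟩ := hL.top_ex s hs
    have ht0B' : t0 ∉ B := fun h => ht0B ⟨ht0L, h⟩
    have hne : t0 ≠ t := by
      rintro rfl
      exact htL ht0L
    set f : Finset U → ZMod 2 := Pi.single t0 1 + Pi.single t 1 with hf
    have hfR : Rel K B s (m + 1) f := by
      intro x hx
      by_cases h1 : x = t0
      · subst h1; exact ⟨hLK ht0L, ht0B', hst0, ht0c⟩
      by_cases h2 : x = t
      · subst h2; exact ⟨htK, htB, hst, htc⟩
      exfalso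
      apply hx
      rw [hf, Pi.add_apply, Pi.single_eq_of_ne h1, Pi.single_eq_of_ne h2, add_zero]
    have hsum : ∑ᶠ x, f x = 0 := by
      rw [finsum_eq_sum_of_support_subset (s := {t0, t})]
      · rw [sum_pair hne, hf, Pi.add_apply, Pi.add_apply, Pi.single_eq_same, Pi.single_eq_same,
          Pi.single_eq_of_ne hne, Pi.single_eq_of_ne hne.symm]
        decide
      · intro x hx
        rw [Function.mem_support] at hx
        by_contra h1
        rw [mem_coe, mem_insert, mem_singleton, not_or] at h1
        apply hx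
        rw [hf, Pi.add_apply, Pi.single_eq_of_ne h1.1, Pi.single_eq_of_ne h1.2, add_zero]
    obtain ⟨g, hg, hgf⟩ := (hM.top s (hLK hs) f hfR).1 hsum
    let gL : Finset U → ZMod 2 := fun x => if x ∈ L then g x else 0
    have hgL : Rel L (L ∩ B) s m gL := by
      intro x hx
      have h1 : x ∈ L := by
        by_contra h1
        exact hx (if_neg h1)
      have h2 : g x ≠ 0 := by
        intro h2
        apply hx
        show (if x ∈ L then g x else 0) = 0
        rw [if_pos h1, h2]
      obtain ⟨-, h3, h4, h5⟩ := hg x h2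
      exact ⟨h1, fun h => h3 h.2, h4, h5⟩
    have hf0 : Rel L (L ∩ B) s (m + 1) (Pi.single t0 1) := by
      intro x hx
      by_cases h1 : x = t0
      · subst h1; exact ⟨ht0L, ht0B, hst0, ht0c⟩
      · exact absurd (Pi.single_eq_of_ne h1 _) hx
    have hc : IsCob L (L ∩ B) s gL (Pi.single t0 1) := by
      intro x hx hxB hsx
      have h1 := hgf x (hLK hx) (fun h => hxB ⟨hx, h⟩) hsx
      have h2 : f x = (Pi.single t0 1 : Finset U → ZMod 2) x := by
        have h3 : x ≠ t := by
          rintro rfl
          exact htL hx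
        rw [hf, Pi.add_apply, Pi.single_eq_of_ne h3, add_zero]
      rw [← h2, ← h1]
      refine sum_congr rfl fun v hv => ?_
      have h3 : s ⊆ x.erase v := by
        intro u hu
        refine mem_erase.2 ⟨?_, hsx hu⟩
        rintro rfl
        exact (mem_sdiff.1 hv).2 hu
      exact if_pos (hL.down x hx _ (erase_subset _ _) ((hL.ne s hs).mono h3))
    have h1 := (hL.top s hs _ hf0).2 ⟨gL, hgL, hc⟩
    rw [finsum_eq_single _ t0 (fun x hx => Pi.single_eq_of_ne hx _), Pi.single_eq_same] at h1
    exact one_ne_zero h1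
  obtain ⟨t, ht, htB, hrt, htc⟩ := hM.top_ex r hr
  exact hL.down t (key t ht htB (hsr.trans hrt) htc) r hrt (hM.ne r hr)

/-- a homology manifold contained in a connected one of the same dimension -/
theorem eq_of_sub {L : Set (Finset U)} {m : ℕ} (hM : Mfd K B m) (hK : Acyc K)
    (hL : Mfd L (L ∩ B) m) (hLK : L ⊆ K) (hne : L.Nonempty) : L = K := by
  classical
  have hvert : ∀ w, {w} ∈ K → {w} ∈ L := by
    intro w hw
    by_contra hwL
    obtain ⟨s, hs⟩ := hne
    obtain ⟨v, hv⟩ := hL.ne s hs
    have hvL : {v} ∈ L := hL.down s hs {v} (singleton_subset_iff.2 hv) (singleton_nonempty v)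
    let φ : (Finset U →₀ ZMod 2) →ₗ[ZMod 2] ZMod 2 :=
      Finsupp.linearCombination (ZMod 2) fun x => if x ∈ L ∧ x.card = 1 then (1 : ZMod 2) else 0
    have hφ : ∀ x : Finset U, φ (Finsupp.single x 1) = if x ∈ L ∧ x.card = 1 then (1 : ZMod 2) else 0 := by
      intro x
      show Finsupp.linearCombination (ZMod 2) _ _ = _
      rw [Finsupp.linearCombination_single, one_smul]
    have hb : ∀ x : Finset U, bdS (Finsupp.single x 1) = ∑ u ∈ x, Finsupp.single (x.erase u) 1 := by
      intro x
      show Finsupp.linearCombination (ZMod 2) _ _ = _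
      rw [Finsupp.linearCombination_single, one_smul]
    have hz : ∀ x ∈ K, φ (∑ u ∈ x, Finsupp.single (x.erase u) 1) = 0 := by
      intro x hx
      rw [map_sum]
      by_cases hc : x.card = 2
      · obtain ⟨a, b, hab, rfl⟩ := card_eq_two.1 hc
        rw [sum_pair hab, hφ, hφ]
        have h1 : ({a, b} : Finset U).erase a = {b} := by
          rw [erase_insert]
          simpa using hab
        have h2 : ({a, b} : Finset U).erase b = {a} := by
          rw [pair_comm, erase_insert]
          simpa using hab.symm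
        rw [h1, h2, card_singleton, card_singleton]
        have h3 : {b} ∈ L ↔ {a} ∈ L := by
          constructor
          · intro h
            have h4 := star_sub hM hL hLK h hx (by simp)
            exact hL.down _ h4 {a} (by simp) (singleton_nonempty a)
          · intro h
            have h4 := star_sub hM hL hLK h hx (by simp)
            exact hL.down _ h4 {b} (by simp) (singleton_nonempty b)
        by_cases h4 : {a} ∈ L
        · rw [if_pos ⟨h3.2 h4, rfl⟩, if_pos ⟨h4, rfl⟩]
          decide
        · rw [if_neg (fun h => h4 (h3.1 h.1)), if_neg (fun h => h4 h.1), add_zero]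
      · refine sum_eq_zero fun u hu => ?_
        rw [hφ, if_neg]
        rintro ⟨-, h1⟩
        rw [card_erase_of_mem hu] at h1
        have h2 : 0 < x.card := card_pos.2 ⟨u, hu⟩
        omega
    obtain ⟨g, hg, hgf⟩ := hK (Finsupp.single {v} 1 + Finsupp.single {w} 1) (by
      intro x hx
      left
      by_contra h1
      apply hx
      rw [Finsupp.add_apply, Finsupp.single_apply, Finsupp.single_apply, if_neg, if_neg, add_zero]
      · rintro rfl; exact h1 hw
      · rintro rfl; exact h1 (hLK hvL)) (by
      rw [map_add, hb, hb, sum_singleton, sum_singleton]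
      have h1 : ({v} : Finset U).erase v = ∅ := by simp
      have h2 : ({w} : Finset U).erase w = ∅ := by simp
      rw [h1, h2, ← Finsupp.single_add, show (1 : ZMod 2) + 1 = 0 by decide, Finsupp.single_zero])
    have h1 : φ (bdS g) = 0 := by
      have h2 : g = ∑ x ∈ g.support, g x • Finsupp.single x (1 : ZMod 2) := by
        conv_lhs => rw [← Finsupp.sum_single g, Finsupp.sum]
        refine sum_congr rfl fun x _ => ?_
        rw [Finsupp.smul_single, smul_eq_mul, mul_one]
      rw [h2, map_sum, map_sum]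
      refine sum_eq_zero fun x hx => ?_
      rw [map_smul, map_smul, hb, hz x (hg x (Finsupp.mem_support_iff.1 hx)), smul_zero]
    rw [hgf, map_add, hφ, hφ, if_pos ⟨hvL, card_singleton v⟩, if_neg (fun h => hwL h.1), add_zero] at h1
    exact one_ne_zero h1
  refine Set.Subset.antisymm hLK fun r hr => ?_
  obtain ⟨u, hu⟩ := hM.ne r hr
  have h1 : {u} ∈ K := hM.down r hr {u} (singleton_subset_iff.2 hu) (singleton_nonempty u)
  exact star_sub hM hL hLK (hvert u h1) hr (singleton_subset_iff.2 hu)

variable {A : Type} [Group A] [MulAction A U]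

/-- the simplices which are fixed pointwise by `E` -/
def FE (E : Subgroup A) (K : Set (Finset U)) : Set (Finset U) :=
  {s | s ∈ K ∧ ∀ g ∈ E, ∀ u ∈ s, g • u = u}

/-- a group of exponent two which acts without inversions -/
structure EAct (E : Subgroup A) (K B : Set (Finset U)) : Prop where
  sq : ∀ g ∈ E, g * g = 1
  K_mem : ∀ g ∈ E, ∀ s ∈ K, g • s ∈ K
  B_mem : ∀ g ∈ E, ∀ s ∈ B, g • s ∈ B
  reg : ∀ g ∈ E, ∀ s ∈ K, g • s = s → ∀ u ∈ s, g • u = u

private theorem EAct.comm {E : Subgroup A} (h : EAct E K B) {g v : A} (hg : g ∈ E) (hv : v ∈ E) : g * v = v * g := by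
  have h1 := h.sq g hg
  have h2 := h.sq v hv
  have h3 := h.sq (g * v) (E.mul_mem hg hv)
  calc g * v = (v * v) * (g * v) * (g * g) := by rw [h1, h2, one_mul, mul_one]
    _ = v * (v * g * v * g) * g := by group
    _ = v * ((v * g) * (v * g)) * g := by group
    _ = v * g := by rw [h.sq (v * g) (E.mul_mem hv hg), mul_one]

private theorem EAct.inv {E : Subgroup A} (h : EAct E K B) {g : A} (hg : g ∈ E) : Inv (fun u => g • u) K B where
  inv := fun u => by
    show g • g • u = u
    rw [← mul_smul, h.sq g hg, one_smul]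
  K_mem := fun s hs => h.K_mem g hg s hs
  B_mem := fun s hs => h.B_mem g hg s hs
  reg := fun s hs h1 => h.reg g hg s hs h1

/-- the elements which act trivially on the vertices -/
private def TR (E : Subgroup A) (K : Set (Finset U)) : Subgroup A where
  carrier := {g | g ∈ E ∧ ∀ u, {u} ∈ K → g • u = u}
  mul_mem' := by
    rintro a b ⟨ha, ha'⟩ ⟨hb, hb'⟩
    refine ⟨E.mul_mem ha hb, fun u hu => ?_⟩
    rw [mul_smul, hb' u hu, ha' u hu]
  one_mem' := ⟨E.one_mem, fun u _ => one_smul A u⟩
  inv_mem' := by
    rintro a ⟨ha, ha'⟩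
    refine ⟨E.inv_mem ha, fun u hu => ?_⟩
    rw [inv_smul_eq_iff, ha' u hu]

private theorem mem_TR {E : Subgroup A} {g : A} : g ∈ TR E K ↔ g ∈ E ∧ ∀ u, {u} ∈ K → g • u = u := Iff.rfl

private theorem acyc_ne (hK : Acyc K) : K.Nonempty := by
  classical
  obtain ⟨g, hg, hgf⟩ := hK (Finsupp.single ∅ 1) (by
    intro x hx
    right
    by_contra h1
    exact hx (Finsupp.single_eq_of_ne h1)) (by
    show Finsupp.linearCombination (ZMod 2) _ _ = _
    rw [Finsupp.linearCombination_single, sum_empty, smul_zero])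
  by_contra h
  rw [Set.not_nonempty_iff_eq_empty] at h
  have h1 : g = 0 := by
    ext x
    by_contra h2
    have h3 := hg x h2
    rw [h] at h3
    exact h3
  rw [h1, map_zero] at hgf
  have h2 := congrArg (fun f : Finset U →₀ ZMod 2 => f ∅) hgf
  simp at h2

private theorem drop' (E : Subgroup A) [Finite E] : ∀ (n : ℕ) (K B : Set (Finset U)), Mfd K B n → Acyc K → EAct E K B →
    ∀ k : ℕ, 2 ^ k * Nat.card (TR E K) ≤ Nat.card E →
    ∃ m, m + k ≤ n ∧ Mfd (FE E K) (FE E B) m ∧ Acyc (FE E K) := by
  classical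
  intro n
  induction n using Nat.strong_induction_on with
  | _ n ih =>
  intro K B hM hK hE k hk
  have hTRle : TR E K ≤ E := fun g hg => hg.1
  have hTRfin : Finite (TR E K) := Finite.of_injective (Subgroup.inclusion hTRle) (Subgroup.inclusion_injective hTRle)
  by_cases htriv : ∀ g ∈ E, g ∈ TR E K
  · have h1 : TR E K = E := le_antisymm hTRle htriv
    rw [h1] at hk
    have h2 : 0 < Nat.card E := Nat.card_pos
    have h3 : 2 ^ k ≤ 1 := by
      by_contra h3
      push Not at h3
      have h4 : 1 * Nat.card E < 2 ^ k * Nat.card E := Nat.mul_lt_mul_of_pos_right h3 h2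
      omega
    have h4 : k = 0 := by
      by_contra h4
      have h5 : 2 ^ 1 ≤ 2 ^ k := Nat.pow_le_pow_right (by norm_num) (by omega)
      omega
    have hFK : ∀ s ∈ K, ∀ g ∈ E, ∀ u ∈ s, g • u = u := by
      intro s hs g hg u hu
      exact (htriv g hg).2 u (hM.down s hs {u} (singleton_subset_iff.2 hu) (singleton_nonempty u))
    have h5 : FE E K = K := Set.Subset.antisymm (fun s hs => hs.1) fun s hs => ⟨hs, hFK s hs⟩
    have h6 : FE E B = B := Set.Subset.antisymm (fun s hs => hs.1) fun s hs => ⟨hs, hFK s (hM.bd_sub hs)⟩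
    rw [h5, h6]
    exact ⟨n, by omega, hM, hK⟩
  · push Not at htriv
    obtain ⟨g0, hg0E, hg0⟩ := htriv
    have hd : ∀ g : A, ∀ hg : g ∈ E, ∃ m, m ≤ n ∧ Mfd (Fx (fun u => g • u) K) (Fx (fun u => g • u) B) m ∧
        (∀ s, ∀ hs : s ∈ Fx (fun u => g • u) K, (sq (good_st hM (hE.inv hg) hs)).Deg n m) ∧
        (m = n → ∀ u, {u} ∈ K → (fun u => g • u) u = u) := fun g hg => mfd_fx hM hK (hE.inv hg)
    choose d hd1 hd2 hd3 hd4 using hd
    let S := {g : E // (g : A) ∉ TR E K}
    have hS : Nonempty S := ⟨⟨⟨g0, hg0E⟩, hg0⟩⟩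
    obtain ⟨⟨⟨v, hvE⟩, hv⟩, hmax⟩ := Finite.exists_max (fun g : S => d g.1.1 g.1.2)
    have hmax' : ∀ g, ∀ hg : g ∈ E, g ∉ TR E K → d g hg ≤ d v hvE := fun g hg hgT => hmax ⟨⟨g, hg⟩, hgT⟩
    have hlt : d v hvE < n := by
      refine lt_of_le_of_ne (hd1 v hvE) fun h => hv ⟨hvE, hd4 v hvE h⟩
    have hKv : Acyc (Fx (fun u => v • u) K) := acyc_fx hM hK (hE.inv hvE)
    have hEv : EAct E (Fx (fun u => v • u) K) (Fx (fun u => v • u) B) := by
      have hmv : ∀ g ∈ E, ∀ s : Finset U, (∀ u ∈ s, v • u = u) → ∀ u ∈ g • s, v • u = u := by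
        intro g hg s hs u hu
        obtain ⟨x, hx, rfl⟩ := mem_smul_finset.1 hu
        rw [← mul_smul, hE.comm hvE hg, mul_smul, hs x hx]
      exact ⟨hE.sq, fun g hg s hs => ⟨hE.K_mem g hg s hs.1, hmv g hg s hs.2⟩,
        fun g hg s hs => ⟨hE.B_mem g hg s hs.1, hmv g hg s hs.2⟩,
        fun g hg s hs => hE.reg g hg s hs.1⟩
    have hne : (Fx (fun u => v • u) K).Nonempty := acyc_ne hKv
    -- the elements which act trivially on the fixed set of `v`
    have hsub : ∀ g ∈ TR E (Fx (fun u => v • u) K), g ∈ TR E K ∨ g * v ∈ TR E K := by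
      intro g hg
      by_contra hcon
      rw [not_or] at hcon
      have heq : ∀ a, ∀ ha : a ∈ E, a ∉ TR E K → (∀ u, {u} ∈ Fx (fun u => v • u) K → a • u = u) →
          d a ha = d v hvE ∧ Fx (fun u => v • u) K = Fx (fun u => a • u) K := by
        intro a ha haT haf
        have h1 : ∀ s ∈ Fx (fun u => v • u) K, ∀ u ∈ s, a • u = u := by
          intro s hs u hu
          exact haf u ((hd2 v hvE).down s hs {u} (singleton_subset_iff.2 hu) (singleton_nonempty u))
        have h2 : Fx (fun u => v • u) K ⊆ Fx (fun u => a • u) K := fun s hs => ⟨hs.1, h1 s hs⟩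
        obtain ⟨s, hs⟩ := hne
        obtain ⟨t, ht, -, -, htc⟩ := (hd2 v hvE).top_ex s hs
        have h3 := (hd2 a ha).card_le t (h2 ht)
        have h4 := hmax' a ha haT
        have h5 : d a ha = d v hvE := by omega
        refine ⟨h5, ?_⟩
        have h6 := hd2 a ha
        rw [h5] at h6
        refine eq_of_sub h6 (acyc_fx hM hK (hE.inv ha)) ?_ h2 ⟨s, hs⟩
        have h7 : Fx (fun u => v • u) K ∩ Fx (fun u => a • u) B = Fx (fun u => v • u) B := by
          refine Set.Subset.antisymm (fun x hx => ⟨hx.2.1, hx.1.2⟩) fun x hx => ?_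
          have h8 : x ∈ Fx (fun u => v • u) K := ⟨hM.bd_sub hx.1, hx.2⟩
          exact ⟨h8, hx.1, h1 x h8⟩
        rw [h7]
        exact hd2 v hvE
      have hgE : g ∈ E := hg.1
      have hgvE : g * v ∈ E := E.mul_mem hgE hvE
      obtain ⟨e1, e2⟩ := heq g hgE hcon.1 hg.2
      obtain ⟨e3, e4⟩ := heq (g * v) hgvE hcon.2 (by
        intro u hu
        have h1 : v • u = u := hu.2 u (mem_singleton_self u)
        rw [mul_smul, h1, hg.2 u hu])
      obtain ⟨s, hs⟩ := hne
      have hsg : s ∈ Fx (fun u => g • u) K := e2 ▸ hs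
      have hgv' : Inv (fun u => g • (v • u)) K B := by
        have h1 := hE.inv hgvE
        have h2 : (fun u : U => (g * v) • u) = fun u => g • (v • u) := funext fun u => mul_smul g v u
        rwa [h2] at h1
      have h := klein (s := s) hM (hE.inv hgE) (hE.inv hvE) (fun u => by
        show g • v • u = v • g • u
        rw [← mul_smul, ← mul_smul, hE.comm hgE hvE]) hgv' (fun s hs => by
        constructor
        · intro h1
          have h2 : s ∈ Fx (fun u => g • u) K := ⟨hs, h1⟩
          rw [← e2] at h2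
          exact h2.2
        · intro h1
          have h2 : s ∈ Fx (fun u => v • u) K := ⟨hs, h1⟩
          rw [e2] at h2
          exact h2.2) (fun s hs h1 => by
        have h2 : s ∈ Fx (fun u => (g * v) • u) K := ⟨hs, fun u hu => by
          show (g * v) • u = u
          rw [mul_smul]
          exact h1 u hu⟩
        rw [← e4, e2] at h2
        exact h2.2) hsg (hd3 g hgE s hsg)
      omega
    have hTRv : TR E (Fx (fun u => v • u) K) ≤ E := fun g hg => hg.1
    have hcard : Nat.card (TR E (Fx (fun u => v • u) K)) ≤ 2 * Nat.card (TR E K) := by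
      have h1 : ((TR E (Fx (fun u => v • u) K) : Subgroup A) : Set A) ⊆ ((TR E K : Subgroup A) : Set A) ∪
          (fun x => x * v) '' ((TR E K : Subgroup A) : Set A) := by
        intro g hg
        rcases hsub g hg with h | h
        · exact Or.inl h
        · right
          refine ⟨g * v, h, ?_⟩
          show g * v * v = g
          rw [mul_assoc, hE.sq v hvE, mul_one]
      have hfin : ((TR E K : Subgroup A) : Set A).Finite := hTRfin
      have h2 := Set.ncard_le_ncard h1 (hfin.union (hfin.image _))
      have h3 := Set.ncard_union_le ((TR E K : Subgroup A) : Set A) ((fun x => x * v) '' ((TR E K : Subgroup A) : Set A))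
      have h4 := Set.ncard_image_le (f := fun x => x * v) hfin
      have h5 : Nat.card (TR E (Fx (fun u => v • u) K)) = ((TR E (Fx (fun u => v • u) K) : Subgroup A) : Set A).ncard := rfl
      have h6 : Nat.card (TR E K) = ((TR E K : Subgroup A) : Set A).ncard := rfl
      omega
    have hFE : FE E (Fx (fun u => v • u) K) = FE E K :=
      Set.Subset.antisymm (fun s hs => ⟨hs.1.1, hs.2⟩) fun s hs => ⟨⟨hs.1, hs.2 v hvE⟩, hs.2⟩
    have hFB : FE E (Fx (fun u => v • u) B) = FE E B :=
      Set.Subset.antisymm (fun s hs => ⟨hs.1.1, hs.2⟩) fun s hs => ⟨⟨hs.1, hs.2 v hvE⟩, hs.2⟩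
    have hk' : 2 ^ (k - 1) * Nat.card (TR E (Fx (fun u => v • u) K)) ≤ Nat.card E := by
      rcases Nat.eq_zero_or_pos k with h0 | h0
      · subst h0
        rw [Nat.zero_sub, pow_zero, one_mul]
        exact Nat.card_le_card_of_injective _ (Subgroup.inclusion_injective hTRv)
      · obtain ⟨j, rfl⟩ : ∃ j, k = j + 1 := ⟨k - 1, by omega⟩
        rw [Nat.add_sub_cancel]
        calc 2 ^ j * Nat.card (TR E (Fx (fun u => v • u) K)) ≤ 2 ^ j * (2 * Nat.card (TR E K)) :=
              Nat.mul_le_mul_left _ hcard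
          _ = 2 ^ (j + 1) * Nat.card (TR E K) := by ring
          _ ≤ Nat.card E := hk
    obtain ⟨m, hm1, hm2, hm3⟩ := ih (d v hvE) hlt _ _ (hd2 v hvE) hKv hEv (k - 1) hk'
    rw [hFE, hFB] at hm2
    rw [hFE] at hm3
    exact ⟨m, by omega, hm2, hm3⟩

/-- **The dimension of the fixed set.** -/
theorem drop (E : Subgroup A) [Finite E] (hM : Mfd K B n) (hK : Acyc K) (hE : EAct E K B)
    (hf : ∀ g ∈ E, (∀ u, {u} ∈ K → g • u = u) → g = 1) {k : ℕ} (hk : 2 ^ k ≤ Nat.card E) :
    ∃ m, m + k ≤ n ∧ Mfd (FE E K) (FE E B) m ∧ Acyc (FE E K) := by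
  refine drop' E n K B hM hK hE k ?_
  have h1 : TR E K = ⊥ := by
    rw [eq_bot_iff]
    intro g hg
    rw [Subgroup.mem_bot]
    exact hf g hg.1 hg.2
  rw [h1, Subgroup.card_bot, mul_one]
  exact hk

end Pool.Agent.H8.SM
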