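import Pool.Agent.H8.SM.Drop
import Pool.Agent.H65.RM.Defs

/-!
# Project SM (Smith theory): the fixed sets of the finite special subgroups
-/

set_option autoImplicit false
set_option linter.unusedSectionVars false

open Finset Pointwise
open Pool.Agent.H37.TM
open Pool.Agent.H65.RM

namespace Pool.Agent.H8.SM

variable {U : Type} [DecidableEq U] {K B : Set (Finset U)} {n : ℕ}
variable {A : Type} [Group A] [MulAction A U]

/-- products over the subsets of `t` -/
private theorem exists_sets {V : Type} [DecidableEq V] (e : V → A) (t : Finset V)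
    (h2 : ∀ v ∈ t, e v * e v = 1) (hc : ∀ v ∈ t, ∀ w ∈ t, e v * e w = e w * e v) :
    ∃ pr : Finset V → A, pr ∅ = 1 ∧ (∀ s ⊆ t, pr s * pr s = 1) ∧
      (∀ s ⊆ t, ∃ l : List V, l.Nodup ∧ (∀ v, v ∈ l ↔ v ∈ s) ∧ (l.map e).prod = pr s) ∧
      (∀ s ⊆ t, ∀ s' ⊆ t, pr s * pr s' = pr (symmDiff s s')) ∧ (∀ v ∈ t, pr {v} = e v) := by
  classical
  obtain ⟨k, hk⟩ : ∃ k : Set A, k = {x | ∃ v ∈ t, x = e v} := ⟨_, rfl⟩
  have hcomm : ∀ x ∈ k, ∀ y ∈ k, x * y = y * x := by
    intro x hx y hy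
    rw [hk] at hx hy
    obtain ⟨v, hv, rfl⟩ := hx
    obtain ⟨w, hw, rfl⟩ := hy
    exact hc v hv w hw
  letI : CommGroup (Subgroup.closure k) := Subgroup.closureCommGroupOfComm hcomm
  have hmem : ∀ v ∈ t, e v ∈ Subgroup.closure k := fun v hv =>
    Subgroup.subset_closure (by rw [hk]; exact ⟨v, hv, rfl⟩)
  obtain ⟨e', he'⟩ : ∃ e' : V → Subgroup.closure k, ∀ v ∈ t, ((e' v : Subgroup.closure k) : A) = e v :=
    ⟨fun v => if h : v ∈ t then ⟨e v, hmem v h⟩ else 1, fun v hv => by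
      simp only [dif_pos hv]⟩
  have hsq : ∀ v ∈ t, e' v * e' v = 1 := fun v hv => Subtype.ext (by
    rw [Subgroup.coe_mul, he' v hv, h2 v hv, Subgroup.coe_one])
  refine ⟨fun s => ((∏ v ∈ s, e' v : Subgroup.closure k) : A), ?_, ?_, ?_, ?_, ?_⟩
  · simp
  · intro s hs
    show ((∏ v ∈ s, e' v : Subgroup.closure k) : A) * ((∏ v ∈ s, e' v : Subgroup.closure k) : A) = 1
    rw [← Subgroup.coe_mul, ← prod_mul_distrib, prod_congr rfl fun v hv => hsq v (hs hv),
      prod_const_one, Subgroup.coe_one]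
  · intro s hs
    refine ⟨s.toList, s.nodup_toList, fun v => mem_toList, ?_⟩
    show (s.toList.map e).prod = ((∏ v ∈ s, e' v : Subgroup.closure k) : A)
    have h1 : (∏ v ∈ s, e' v : Subgroup.closure k) = (s.toList.map e').prod := (prod_map_toList s e').symm
    rw [h1]
    have h3 : ∀ l : List V, (∀ v ∈ l, v ∈ t) →
        (((l.map e').prod : Subgroup.closure k) : A) = (l.map e).prod := by
      intro l
      induction l with
      | nil => intro _; simp
      | cons a l ih =>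
        intro hl
        rw [List.map_cons, List.map_cons, List.prod_cons, List.prod_cons, Subgroup.coe_mul,
          ih fun v hv => hl v (List.mem_cons_of_mem a hv), he' a (hl a List.mem_cons_self)]
    exact (h3 _ fun v hv => hs (mem_toList.1 hv)).symm
  · intro s hs s' hs'
    show ((∏ v ∈ s, e' v : Subgroup.closure k) : A) * ((∏ v ∈ s', e' v : Subgroup.closure k) : A) =
      ((∏ v ∈ symmDiff s s', e' v : Subgroup.closure k) : A)
    rw [← Subgroup.coe_mul]
    congr 1
    have h1 : ∏ v ∈ s, e' v = (∏ v ∈ s \ s', e' v) * ∏ v ∈ s ∩ s', e' v := by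
      rw [← prod_union (disjoint_sdiff_inter s s'), sdiff_union_inter]
    have h2' : ∏ v ∈ s', e' v = (∏ v ∈ s ∩ s', e' v) * ∏ v ∈ s' \ s, e' v := by
      rw [mul_comm, inter_comm, ← prod_union (disjoint_sdiff_inter s' s), sdiff_union_inter]
    have h3 : (∏ v ∈ s ∩ s', e' v) * ∏ v ∈ s ∩ s', e' v = 1 := by
      rw [← prod_mul_distrib, prod_congr rfl fun v hv => hsq v (hs (mem_inter.1 hv).1), prod_const_one]
    have h4 : ∏ v ∈ symmDiff s s', e' v = (∏ v ∈ s \ s', e' v) * ∏ v ∈ s' \ s, e' v := by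
      rw [← prod_union (disjoint_sdiff_sdiff)]
      rfl
    rw [h1, h2', h4]
    calc (∏ v ∈ s \ s', e' v) * (∏ v ∈ s ∩ s', e' v) * ((∏ v ∈ s ∩ s', e' v) * ∏ v ∈ s' \ s, e' v) =
        (∏ v ∈ s \ s', e' v) * ((∏ v ∈ s ∩ s', e' v) * ∏ v ∈ s ∩ s', e' v) * ∏ v ∈ s' \ s, e' v := by
          simp only [mul_assoc]
      _ = _ := by rw [h3, mul_one]
  · intro v hv
    show ((∏ v ∈ {v}, e' v : Subgroup.closure k) : A) = e v
    rw [prod_singleton, he' v hv]

/-- **The fixed set of the group generated by the commuting involutions `e v`, `v ∈ t`** (all products over nonempty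
subsets of `t` act non trivially) is an acyclic homology manifold of dimension at most `n - |t|`, on which every
subgroup `C` which commutes with the `e v` acts properly. -/
theorem fixed {V : Type} [DecidableEq V] (hM : Mfd K B n) (hK : Acyc K) (hA : PAct A K B)
    (hreg : ∀ g : A, ∀ s ∈ K, g • s = s → ∀ u ∈ s, g • u = u) (e : V → A) (t : Finset V)
    (h2 : ∀ v ∈ t, e v * e v = 1) (hc : ∀ v ∈ t, ∀ w ∈ t, e v * e w = e w * e v)
    (hf : ∀ l : List V, l.Nodup → (∀ v ∈ l, v ∈ t) → (∀ u, {u} ∈ K → (l.map e).prod • u = u) → l = [])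
    (C : Subgroup A) (hC : ∀ g ∈ C, ∀ v ∈ t, g * e v = e v * g) :
    ∃ (K' B' : Set (Finset U)) (m : ℕ), m + t.card ≤ n ∧ Mfd K' B' m ∧ Acyc K' ∧ PAct C K' B' ∧
      ∀ g : C, ∀ s ∈ K', g • s = s → ∀ u ∈ s, g • u = u := by
  classical
  obtain ⟨pr, hp1, hp2, hp3, hp4, hp5⟩ := exists_sets e t h2 hc
  -- the group of the products
  let E : Subgroup A :=
    { carrier := {g | ∃ s ⊆ t, g = pr s}
      mul_mem' := by
        rintro g g' ⟨s, hs, rfl⟩ ⟨s', hs', rfl⟩
        refine ⟨symmDiff s s', fun v hv => ?_, hp4 s hs s' hs'⟩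
        rcases mem_symmDiff.1 hv with h | h
        · exact hs h.1
        · exact hs' h.1
      one_mem' := ⟨∅, empty_subset t, hp1.symm⟩
      inv_mem' := by
        rintro g ⟨s, hs, rfl⟩
        exact ⟨s, hs, inv_eq_of_mul_eq_one_right (hp2 s hs)⟩ }
  have hE : ∀ g, g ∈ E ↔ ∃ s ⊆ t, g = pr s := fun g => Iff.rfl
  have hfin : Finite E := by
    have h1 : ((E : Set A)).Finite := by
      refine (t.powerset.finite_toSet.image pr).subset ?_
      rintro g ⟨s, hs, rfl⟩
      exact ⟨s, mem_coe.2 (mem_powerset.2 hs), rfl⟩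
    exact h1.to_subtype
  have htriv : ∀ s ⊆ t, (∀ u, {u} ∈ K → pr s • u = u) → s = ∅ := by
    intro s hs h
    obtain ⟨l, hl1, hl2, hl3⟩ := hp3 s hs
    have h1 : l = [] := hf l hl1 (fun v hv => hs ((hl2 v).1 hv)) (by rw [hl3]; exact h)
    refine eq_empty_of_forall_notMem fun v hv => ?_
    have h2 := (hl2 v).2 hv
    rw [h1] at h2
    exact absurd h2 List.not_mem_nil
  have hinj : ∀ s ⊆ t, ∀ s' ⊆ t, pr s = pr s' → s = s' := by
    intro s hs s' hs' h
    have h1 : pr (symmDiff s s') = 1 := by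
      rw [← hp4 s hs s' hs', ← h, hp2 s hs]
    have h3 : symmDiff s s' ⊆ t := fun v hv => by
      rcases mem_symmDiff.1 hv with h | h
      · exact hs h.1
      · exact hs' h.1
    have h4 := htriv _ h3 fun u _ => by rw [h1, one_smul]
    exact symmDiff_eq_bot.1 h4
  have hcard : 2 ^ t.card ≤ Nat.card E := by
    rw [← card_powerset]
    have h1 : t.powerset.card = Nat.card t.powerset := by
      rw [Nat.card_eq_fintype_card, Fintype.card_coe]
    rw [h1]
    refine Nat.card_le_card_of_injective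
      (fun s : t.powerset => (⟨pr s.1, s.1, mem_powerset.1 s.2, rfl⟩ : E)) ?_
    intro s s' h
    exact Subtype.ext (hinj s.1 (mem_powerset.1 s.2) s'.1 (mem_powerset.1 s'.2)
      (congrArg Subtype.val h))
  have hEA : EAct E K B := by
    refine ⟨?_, fun g _ => hA.K_mem g, fun g _ => hA.B_mem g, fun g _ => hreg g⟩
    rintro g ⟨s, hs, rfl⟩
    exact hp2 s hs
  obtain ⟨m, hm, hMf, hAc⟩ := drop E hM hK hEA (by
    rintro g ⟨s, hs, rfl⟩ h
    rw [htriv s hs h, hp1]) hcard
  -- the centralizer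
  have hcen : ∀ g ∈ C, ∀ h ∈ E, g * h = h * g := by
    rintro g hg h ⟨s, hs, rfl⟩
    obtain ⟨l, hl1, hl2, hl3⟩ := hp3 s hs
    rw [← hl3]
    have key : ∀ l : List V, (∀ v ∈ l, v ∈ t) → g * (l.map e).prod = (l.map e).prod * g := by
      intro l
      induction l with
      | nil => intro _; simp
      | cons a l ih =>
        intro hl
        rw [List.map_cons, List.prod_cons, ← mul_assoc, hC g hg a (hl a List.mem_cons_self),
          mul_assoc, ih fun v hv => hl v (List.mem_cons_of_mem a hv), mul_assoc]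
    exact key l fun v hv => hs ((hl2 v).1 hv)
  have hstab : ∀ L : Set (Finset U), (∀ (g : A) (s : Finset U), s ∈ L → g • s ∈ L) →
      ∀ (g : C) (s : Finset U), s ∈ FE E L → g • s ∈ FE E L := by
    rintro L hL g s ⟨hs, hs'⟩
    refine ⟨hL g s hs, fun h hh u hu => ?_⟩
    have hu' : u ∈ (g : A) • s := hu
    obtain ⟨w, hw, rfl⟩ := mem_smul_finset.1 hu'
    rw [← mul_smul, ← hcen g g.2 h hh, mul_smul, hs' h hh w hw]
  refine ⟨FE E K, FE E B, m, hm, hMf, hAc, ⟨hstab K hA.K_mem, hstab B hA.B_mem, ?_⟩, ?_⟩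
  · intro u w hu
    refine ((hA.proper u w hu.1).preimage (f := fun g : C => (g : A))
      Subtype.val_injective.injOn).subset fun g hg => hg
  · intro g s hs h u hu
    exact hreg g s hs.1 h u hu

end Pool.Agent.H8.SM
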