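import Pool.Agent.H8.SM.Base

/-!
# Project SM (Smith theory): the fixed complex is acyclic

`acyc_fx`: augmented chains with `n + 1` vertices at most (`Mfd.card_le`). Let `σ f = f + τ f` (`Finsupp.mapDomain`, the
sets `s.image τ`). A chain `f` of `K` (augmented: the empty set is fixed) with `σ f = 0` is `σ p + q`, `q` a chain of
`Fx τ K`: choose one of `t`, `τ t` for each `t` which is not fixed (`exists_sel`). Descending induction on `k`: every
cycle `z` of `K` with `σ z = 0` on simplices with at least `k` vertices is `∂ (σ a + q)`, `q` a chain of `Fx τ K` (for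
`k > n + 1` there is nothing): `z = ∂ w` (`hK`), where the simplices of `w` have at least `k + 1` vertices; `σ w` is a
cycle with `σ σ w = 0`, so `σ w = ∂ (σ a + q)` by induction, `∂ q = 0` (it is supported on fixed simplices), so
`σ (w + ∂ a) = 0`, `w + ∂ a = σ a' + q'`, `z = ∂ (σ a' + q')`.
-/

set_option autoImplicit false
set_option linter.unusedSectionVars false

open Finset
open Pool.Agent.H37.TM

namespace Pool.Agent.H8.SM

variable {U : Type} [DecidableEq U] {K B : Set (Finset U)} {n : ℕ} {τ : U → U} {s : Finset U}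

theorem bdS_single (s : Finset U) (a : ZMod 2) :
    bdS (Finsupp.single s a) = ∑ v ∈ s, Finsupp.single (s.erase v) a := by
  rw [bdS, Finsupp.linearCombination_single, smul_sum]
  refine sum_congr rfl fun v _ => ?_
  rw [Finsupp.smul_single, smul_eq_mul, mul_one]

private theorem fadd (f : Finset U →₀ ZMod 2) : f + f = 0 := by
  ext t
  rw [Finsupp.add_apply, Finsupp.zero_apply]
  exact z2_add _

private theorem feq {f g : Finset U →₀ ZMod 2} (h : f + g = 0) : f = g := by
  ext t
  have h1 := DFunLike.congr_fun h t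
  rw [Finsupp.add_apply, Finsupp.zero_apply] at h1
  exact z2_eq h1

theorem bdS_bdS (f : Finset U →₀ ZMod 2) : bdS (bdS f) = 0 := by
  induction f using Finsupp.induction_linear with
  | zero => rw [map_zero, map_zero]
  | add f g hf hg => rw [map_add, map_add, hf, hg, add_zero]
  | single t a =>
    rw [bdS_single, map_sum]
    have h1 : ∀ v ∈ t, bdS (Finsupp.single (t.erase v) a) =
        ∑ w ∈ t.erase v, Finsupp.single ((t.erase v).erase w) a := fun v _ => bdS_single _ _
    rw [sum_congr rfl h1, sum_sigma']
    refine sum_involution (fun p _ => ⟨p.2, p.1⟩) ?_ ?_ ?_ ?_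
    · rintro ⟨v, w⟩ hp
      simp only
      rw [erase_right_comm]
      exact fadd _
    · rintro ⟨v, w⟩ hp _ heq
      simp only [mem_sigma, mem_erase, Sigma.mk.injEq, heq_eq_eq] at hp heq
      exact hp.2.1 heq.1
    · rintro ⟨v, w⟩ hp
      simp only [mem_sigma, mem_erase] at hp ⊢
      exact ⟨hp.2.2, fun h => hp.2.1 h.symm, hp.1⟩
    · rintro ⟨v, w⟩ hp
      rfl

/-- the support of the boundary of a chain -/
theorem bdS_supp {f : Finset U →₀ ZMod 2} {t : Finset U} (h : bdS f t ≠ 0) :
    ∃ r, f r ≠ 0 ∧ ∃ v ∈ r, t = r.erase v := by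
  rw [bdS, Finsupp.linearCombination_apply, Finsupp.sum, Finsupp.finsetSum_apply] at h
  obtain ⟨r, hr, h1⟩ := exists_ne_zero_of_sum_ne_zero h
  refine ⟨r, Finsupp.mem_support_iff.1 hr, ?_⟩
  rw [Finsupp.smul_apply, Finsupp.finsetSum_apply] at h1
  obtain ⟨v, hv, h2⟩ := exists_ne_zero_of_sum_ne_zero (right_ne_zero_of_smul h1)
  refine ⟨v, hv, ?_⟩
  by_contra h3
  exact h2 (Finsupp.single_eq_of_ne h3)

/-- the translate of a chain -/
noncomputable def trc (τ : U → U) : (Finset U →₀ ZMod 2) →ₗ[ZMod 2] (Finset U →₀ ZMod 2) :=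
  Finsupp.lmapDomain (ZMod 2) (ZMod 2) fun t => t.image τ

theorem trc_apply (hi : ∀ u, τ (τ u) = u) (f : Finset U →₀ ZMod 2) (t : Finset U) :
    trc τ f t = f (t.image τ) := by
  have hinj : Function.Injective fun t : Finset U => t.image τ := fun a b hab => by
    have h1 : (a.image τ).image τ = (b.image τ).image τ := congrArg (fun r => r.image τ) hab
    rwa [image_image hi, image_image hi] at h1
  have h2 := Finsupp.mapDomain_apply hinj f (t.image τ)
  beta_reduce at h2
  rw [image_image hi] at h2
  exact h2

theorem trc_bdS (hi : ∀ u, τ (τ u) = u) (f : Finset U →₀ ZMod 2) : trc τ (bdS f) = bdS (trc τ f) := by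
  induction f using Finsupp.induction_linear with
  | zero => simp only [map_zero]
  | add f g hf hg => rw [map_add, map_add, map_add, map_add, hf, hg]
  | single t a =>
    have hinj : Function.Injective τ := fun a b hab => by rw [← hi a, hab, hi b]
    have h1 : ∀ r : Finset U, trc τ (Finsupp.single r a) = Finsupp.single (r.image τ) a := fun r =>
      Finsupp.mapDomain_single
    rw [bdS_single, map_sum, h1, bdS_single, sum_image fun a _ b _ hab => hinj hab]
    refine sum_congr rfl fun v _ => ?_
    rw [h1, image_erase hi]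

theorem bdS_filter (f : Finset U →₀ ZMod 2) (k : ℕ) :
    bdS (f.filter fun t => k + 1 ≤ t.card) = (bdS f).filter fun t => k ≤ t.card := by
  induction f using Finsupp.induction_linear with
  | zero => rw [Finsupp.filter_zero, map_zero, Finsupp.filter_zero]
  | add f g hf hg => rw [map_add, Finsupp.filter_add, Finsupp.filter_add, map_add, hf, hg]
  | single t a =>
    have h0 : ∀ v ∈ t, (t.erase v).card + 1 = t.card := fun v hv => card_erase_add_one hv
    rw [bdS_single]
    ext r
    rw [Finsupp.filter_apply, Finsupp.finsetSum_apply]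
    by_cases h1 : k + 1 ≤ t.card
    · rw [Finsupp.filter_single_of_pos (fun t : Finset U => k + 1 ≤ t.card) h1, bdS_single, Finsupp.finsetSum_apply]
      by_cases h2 : k ≤ r.card
      · rw [if_pos h2]
      · rw [if_neg h2]
        refine sum_eq_zero fun v hv => Finsupp.single_eq_of_ne ?_
        rintro rfl
        have h3 := h0 v hv
        omega
    · rw [Finsupp.filter_single_of_neg (fun t : Finset U => k + 1 ≤ t.card) h1, map_zero, Finsupp.zero_apply]
      by_cases h2 : k ≤ r.card
      · rw [if_pos h2]
        symm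
        refine sum_eq_zero fun v hv => Finsupp.single_eq_of_ne ?_
        rintro rfl
        have h3 := h0 v hv
        omega
      · rw [if_neg h2]

/-- a chain which is a cycle of the form `z = τ z` is the boundary of a sum `a + τ a + q` -/
private theorem main (hM : Mfd K B n) (hK : Acyc K) (h : Inv τ K B) :
    ∀ j k, n + 2 ≤ k + j → ∀ z : Finset U →₀ ZMod 2, (∀ t, z t ≠ 0 → (t ∈ K ∨ t = ∅) ∧ k ≤ t.card) →
      z + trc τ z = 0 → bdS z = 0 → ∃ a q : Finset U →₀ ZMod 2, (∀ t, a t ≠ 0 → t ∈ K) ∧
        (∀ t, q t ≠ 0 → t ∈ Fx τ K) ∧ z = bdS (a + trc τ a + q) := by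
  intro j
  induction j with
  | zero =>
    intro k hk z hz _ _
    have h0 : z = 0 := by
      ext t
      by_contra h1
      obtain ⟨h2, h3⟩ := hz t h1
      rcases h2 with h2 | rfl
      · have h4 := hM.card_le t h2
        omega
      · rw [card_empty] at h3
        omega
    refine ⟨0, 0, fun t ht => absurd rfl ht, fun t ht => absurd rfl ht, ?_⟩
    rw [h0, map_zero, add_zero, add_zero, map_zero]
  | succ j ih =>
    intro k hk z hz hσ hdz
    obtain ⟨w, hw, hwz⟩ := hK z (fun t ht => (hz t ht).1) hdz
    obtain ⟨w', hw', hw'z⟩ : ∃ w' : Finset U →₀ ZMod 2, (∀ t, w' t ≠ 0 → t ∈ K ∧ k + 1 ≤ t.card) ∧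
        bdS w' = z := by
      refine ⟨w.filter fun t => k + 1 ≤ t.card, fun t ht => ?_, ?_⟩
      · rw [Finsupp.filter_apply] at ht
        split_ifs at ht with h1
        · exact ⟨hw t ht, h1⟩
        · exact absurd rfl ht
      · rw [bdS_filter, hwz]
        ext t
        rw [Finsupp.filter_apply]
        split_ifs with h1
        · rfl
        · by_contra h2
          exact h1 (hz t (Ne.symm h2)).2
    have hcard : ∀ t : Finset U, (t.image τ).card = t.card := fun t => card_image_of_injective t h.injective
    have htt : ∀ f : Finset U →₀ ZMod 2, trc τ (trc τ f) = f := by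
      intro f
      ext t
      rw [trc_apply h.inv, trc_apply h.inv, image_image h.inv]
    obtain ⟨a, q, ha, hq, haq⟩ := ih (k + 1) (by omega) (w' + trc τ w') (by
      intro t ht
      rw [Finsupp.add_apply, trc_apply h.inv] at ht
      by_cases h1 : w' t = 0
      · rw [h1, zero_add] at ht
        obtain ⟨h2, h3⟩ := hw' _ ht
        rw [hcard] at h3
        exact ⟨Or.inl ((h.K_iff t).1 h2), h3⟩
      · exact ⟨Or.inl (hw' t h1).1, (hw' t h1).2⟩) (by
      rw [map_add, htt, add_comm (trc τ w') w']
      exact fadd _) (by rw [map_add, ← trc_bdS h.inv, hw'z, hσ])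
    -- `∂ q = 0`
    have hdq : bdS q = 0 := by
      have h1 : bdS q = (w' + bdS a) + trc τ (w' + bdS a) := by
        have h2 : bdS q = bdS (a + trc τ a + q) + (bdS a + trc τ (bdS a)) := by
          rw [map_add bdS (a + trc τ a) q, map_add bdS a, trc_bdS h.inv, add_comm _ (bdS q), add_assoc, fadd, add_zero]
        rw [h2, ← haq, map_add]
        abel
      ext t
      rw [Finsupp.zero_apply]
      by_contra h2
      obtain ⟨r, hr, v, hv, rfl⟩ := bdS_supp h2
      have h3 : ∀ u ∈ r.erase v, τ u = u := fun u hu => (hq r hr).2 u (mem_of_mem_erase hu)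
      rw [h1, Finsupp.add_apply, trc_apply h.inv, image_fix h3] at h2
      exact h2 (z2_add _)
    have hu : (w' + bdS a) + trc τ (w' + bdS a) = 0 := by
      rw [map_add bdS, hdq, add_zero, map_add bdS, ← trc_bdS h.inv] at haq
      rw [map_add]
      calc w' + bdS a + (trc τ w' + trc τ (bdS a)) = (w' + trc τ w') + (bdS a + trc τ (bdS a)) := by abel
        _ = 0 := by rw [← haq]; exact fadd _
    -- the decomposition of `u = w' + ∂ a`
    obtain ⟨u, hudef⟩ : ∃ u, u = w' + bdS a := ⟨_, rfl⟩
    rw [← hudef] at hu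
    have huK : ∀ t, u t ≠ 0 → t ∈ K ∨ t = ∅ := by
      intro t ht
      rw [hudef, Finsupp.add_apply] at ht
      by_cases h1 : w' t = 0
      · rw [h1, zero_add] at ht
        obtain ⟨r, hr, v, hv, rfl⟩ := bdS_supp ht
        rcases (r.erase v).eq_empty_or_nonempty with h2 | h2
        · exact Or.inr h2
        · exact Or.inl (hM.down r (ha r hr) _ (erase_subset _ _) h2)
      · exact Or.inl (hw' t h1).1
    have hut : ∀ t, u (t.image τ) = u t := by
      intro t
      have h1 := DFunLike.congr_fun hu t
      rw [Finsupp.add_apply, Finsupp.zero_apply, trc_apply h.inv] at h1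
      exact (z2_eq h1).symm
    classical
    obtain ⟨P, hP⟩ := exists_sel h.inv
    have hfix : ∀ t : Finset U, (∀ u ∈ t.image τ, τ u = u) → ∀ u ∈ t, τ u = u := by
      intro t ht u hu
      have h1 := ht (τ u) (mem_image_of_mem τ hu)
      rw [h.inv] at h1
      exact h1.symm
    refine ⟨u.filter fun t => ¬ (∀ x ∈ t, τ x = x) ∧ P t, u.filter fun t => (∀ x ∈ t, τ x = x) ∧ t ≠ ∅,
      fun t ht => ?_, fun t ht => ?_, ?_⟩
    · rw [Finsupp.filter_apply] at ht
      split_ifs at ht with h1
      · rcases huK t ht with h2 | rfl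
        · exact h2
        · exact absurd (fun x hx => absurd hx (notMem_empty x)) h1.1
      · exact absurd rfl ht
    · rw [Finsupp.filter_apply] at ht
      split_ifs at ht with h1
      · exact ⟨(huK t ht).resolve_right h1.2, h1.1⟩
      · exact absurd rfl ht
    · have h1 : u + ((u.filter fun t => ¬ (∀ x ∈ t, τ x = x) ∧ P t) +
          trc τ (u.filter fun t => ¬ (∀ x ∈ t, τ x = x) ∧ P t) +
          u.filter fun t => (∀ x ∈ t, τ x = x) ∧ t ≠ ∅) = Finsupp.single ∅ (u ∅) := by
        ext t
        rw [Finsupp.add_apply, Finsupp.add_apply, Finsupp.add_apply, trc_apply h.inv, Finsupp.filter_apply,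
          Finsupp.filter_apply, Finsupp.filter_apply, hut]
        by_cases h2 : t = ∅
        · subst h2
          rw [Finsupp.single_eq_same, if_neg (fun h3 => h3.1 fun x hx => absurd hx (notMem_empty x)),
            if_neg (fun h3 => h3.1 fun x hx => absurd hx (notMem_empty x)), if_neg (fun h3 => h3.2 rfl),
            add_zero, add_zero, add_zero]
        · rw [Finsupp.single_eq_of_ne h2]
          by_cases h3 : ∀ x ∈ t, τ x = x
          · rw [if_neg (fun h4 => h4.1 h3), image_fix h3, if_neg (fun h4 => h4.1 h3), if_pos ⟨h3, h2⟩, add_zero,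
              zero_add]
            exact z2_add _
          · have h4 : ¬ ∀ x ∈ t.image τ, τ x = x := fun h5 => h3 (hfix t h5)
            by_cases h5 : u t = 0
            · rw [h5, ite_self, ite_self, ite_self, add_zero, add_zero, add_zero]
            · have h6 : t ∈ K := (huK t h5).resolve_right h2
              have h7 : t.image τ ≠ t := fun h8 => h3 (h.reg t h6 h8)
              rw [if_neg (fun h8 : (∀ x ∈ t, τ x = x) ∧ t ≠ ∅ => h3 h8.1), add_zero]
              rcases hP t h7 with ⟨h8, h9⟩ | ⟨h8, h9⟩
              · rw [if_pos ⟨h3, h8⟩, if_neg (fun h10 => h9 h10.2), add_zero]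
                exact z2_add _
              · rw [if_neg (fun h10 => h8 h10.2), if_pos ⟨h4, h9⟩, zero_add]
                exact z2_add _
      have h2 := congrArg bdS h1
      rw [map_add bdS u, bdS_single, sum_empty] at h2
      rw [← feq h2, hudef, map_add, bdS_bdS, add_zero, hw'z]

/-- **Smith.** The fixed complex of a regular involution of an acyclic complex is acyclic. -/
theorem acyc_fx (hM : Mfd K B n) (hK : Acyc K) (h : Inv τ K B) : Acyc (Fx τ K) := by
  intro f hf hdf
  have hfix : ∀ t, f t ≠ 0 → ∀ u ∈ t, τ u = u := by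
    intro t ht u hu
    rcases hf t ht with h1 | rfl
    · exact h1.2 u hu
    · exact absurd hu (notMem_empty u)
  have hft : f + trc τ f = 0 := by
    ext t
    rw [Finsupp.add_apply, Finsupp.zero_apply, trc_apply h.inv]
    by_cases h1 : f t = 0
    · by_cases h2 : f (t.image τ) = 0
      · rw [h1, h2, add_zero]
      · have h3 := hfix _ h2
        have h4 := image_fix h3
        rw [image_image h.inv] at h4
        rw [← h4]
        exact z2_add _
    · rw [image_fix (hfix t h1)]
      exact z2_add _
  obtain ⟨a, q, ha, hq, haq⟩ := main hM hK h (n + 2) 0 (by omega) f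
    (fun t ht => ⟨(hf t ht).imp (fun h1 => h1.1) id, Nat.zero_le _⟩) hft hdf
  refine ⟨q, hq, ?_⟩
  have h1 : f + bdS q = bdS a + trc τ (bdS a) := by
    conv_lhs => rw [haq]
    rw [map_add bdS (a + trc τ a) q, map_add bdS a, trc_bdS h.inv, add_assoc, fadd, add_zero]
  refine (feq ?_).symm
  ext t
  rw [Finsupp.zero_apply]
  by_contra h2
  have h3 : ∀ u ∈ t, τ u = u := by
    by_cases h4 : f t = 0
    · rw [Finsupp.add_apply, h4, zero_add] at h2
      obtain ⟨r, hr, v, hv, rfl⟩ := bdS_supp h2
      exact fun u hu => (hq r hr).2 u (mem_of_mem_erase hu)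
    · exact hfix t h4
  rw [h1, Finsupp.add_apply, trc_apply h.inv, image_fix h3] at h2
  exact h2 (z2_add _)

end Pool.Agent.H8.SM
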