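import Pool.Agent.H8.SM.Defs
import Pool.Agent.H8.SM.Alg

/-!
# Project SM (Smith theory): the Smith sequence of a finite convex set of simplices
-/

set_option autoImplicit false
set_option linter.unusedSectionVars false

open Finset

namespace Pool.Agent.H8.SM

variable {U : Type} [DecidableEq U] {τ : U → U} {T : Set (Finset U)}

theorem z2 {a : ZMod 2} (h : a ≠ 0) : a = 1 := by
  revert h; revert a; decide

theorem z2_add (a : ZMod 2) : a + a = 0 := by
  revert a; decide

theorem z2_eq {a b : ZMod 2} (h : a + b = 0) : a = b := by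
  revert h; revert a b; decide

theorem dT_apply {f : Finset U → ZMod 2} {t : Finset U} (h : t ∈ T) :
    dT T f t = ∑ v ∈ t, f (t.erase v) := if_pos h

theorem dT_apply' {f : Finset U → ZMod 2} {t : Finset U} (h : t ∉ T) : dT T f t = 0 := if_neg h

theorem dT_mem {k : ℕ} {f : Finset U → ZMod 2} (hf : f ∈ Cc T k) : dT T f ∈ Cc T (k + 1) := by
  intro t ht
  by_cases h : t ∈ T
  · refine ⟨h, ?_⟩
    rw [dT_apply h] at ht
    obtain ⟨v, hv, hfv⟩ := exists_ne_zero_of_sum_ne_zero ht
    have h1 := (hf _ hfv).2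
    rw [card_erase_of_mem hv] at h1
    have h2 := card_pos.2 ⟨v, hv⟩
    omega
  · exact absurd (dT_apply' h) ht

theorem dT_dT (hc : ∀ t ∈ T, ∀ t' ∈ T, ∀ r, t ⊆ r → r ⊆ t' → r ∈ T) {k : ℕ} {f : Finset U → ZMod 2}
    (hf : f ∈ Cc T k) : dT T (dT T f) = 0 := by
  funext t
  by_cases h : t ∈ T
  · rw [dT_apply h, Pi.zero_apply]
    have h1 : ∀ v ∈ t, dT T f (t.erase v) = ∑ w ∈ t.erase v, f ((t.erase v).erase w) := by
      intro v hv
      by_cases h2 : t.erase v ∈ T
      · exact dT_apply h2
      · rw [dT_apply' h2]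
        symm
        refine sum_eq_zero fun w hw => ?_
        by_contra h3
        exact h2 (hc _ (hf _ h3).1 t h _ (erase_subset _ _) (erase_subset _ _))
    rw [sum_congr rfl h1, sum_sigma']
    refine sum_involution (fun p _ => ⟨p.2, p.1⟩) ?_ ?_ ?_ ?_
    · rintro ⟨v, w⟩ hp
      simp only
      rw [erase_right_comm]
      exact z2_add _
    · rintro ⟨v, w⟩ hp _ heq
      simp only [mem_sigma, mem_erase, Sigma.mk.injEq, heq_eq_eq] at hp heq
      exact hp.2.1 heq.1
    · rintro ⟨v, w⟩ hp
      simp only [mem_sigma, mem_erase] at hp ⊢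
      exact ⟨hp.2.2, fun h => hp.2.1 h.symm, hp.1⟩
    · rintro ⟨v, w⟩ hp
      rfl
  · rw [dT_apply' h, Pi.zero_apply]

theorem Good.injective (h : Good τ T) : Function.Injective τ := fun a b hab => by
  rw [← h.inv a, hab, h.inv b]

theorem image_image (hi : ∀ u, τ (τ u) = u) (t : Finset U) : (t.image τ).image τ = t := by
  rw [Finset.image_image]
  conv_rhs => rw [← image_id (s := t)]
  refine image_congr fun u _ => ?_
  exact hi u

theorem image_erase (hi : ∀ u, τ (τ u) = u) (t : Finset U) (v : U) :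
    (t.image τ).erase (τ v) = (t.erase v).image τ := by
  have hinj : Function.Injective τ := fun a b hab => by rw [← hi a, hab, hi b]
  exact (Finset.image_erase hinj t v).symm

/-- the translate of a cochain -/
def tr (τ : U → U) : (Finset U → ZMod 2) →+ (Finset U → ZMod 2) where
  toFun f t := f (t.image τ)
  map_zero' := rfl
  map_add' _ _ := rfl

theorem tr_apply (f : Finset U → ZMod 2) (t : Finset U) : tr τ f t = f (t.image τ) := rfl

theorem Good.mem_iff (h : Good τ T) (t : Finset U) : t.image τ ∈ T ↔ t ∈ T := by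
  constructor
  · intro h1
    have h2 := h.mem _ h1
    rwa [image_image h.inv] at h2
  · exact h.mem t

theorem Good.card_image (h : Good τ T) (t : Finset U) : (t.image τ).card = t.card :=
  card_image_of_injective t h.injective

theorem tr_mem (h : Good τ T) {k : ℕ} {f : Finset U → ZMod 2} (hf : f ∈ Cc T k) : tr τ f ∈ Cc T k := by
  intro t ht
  obtain ⟨h1, h2⟩ := hf _ ht
  rw [h.card_image] at h2
  exact ⟨(h.mem_iff t).1 h1, h2⟩

theorem tr_dT (h : Good τ T) (f : Finset U → ZMod 2) : tr τ (dT T f) = dT T (tr τ f) := by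
  funext t
  rw [tr_apply]
  by_cases h1 : t ∈ T
  · rw [dT_apply h1, dT_apply (h.mem t h1), sum_image (fun a _ b _ hab => h.injective hab)]
    refine sum_congr rfl fun v _ => ?_
    rw [tr_apply, image_erase h.inv]
  · rw [dT_apply' h1, dT_apply' (fun h2 => h1 ((h.mem_iff t).1 h2))]

/-- the restriction to the fixed simplices -/
def rs (τ : U → U) : (Finset U → ZMod 2) →+ (Finset U → ZMod 2) where
  toFun f t := if ∀ u ∈ t, τ u = u then f t else 0
  map_zero' := by
    funext t
    simp
  map_add' f g := by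
    funext t
    simp only [Pi.add_apply]
    split_ifs
    · rfl
    · rw [add_zero]

theorem rs_pos {f : Finset U → ZMod 2} {t : Finset U} (h : ∀ u ∈ t, τ u = u) : rs τ f t = f t := if_pos h

theorem rs_neg {f : Finset U → ZMod 2} {t : Finset U} (h : ¬ ∀ u ∈ t, τ u = u) : rs τ f t = 0 := if_neg h

theorem image_fix {t : Finset U} (h : ∀ u ∈ t, τ u = u) : t.image τ = t := by
  conv_rhs => rw [← image_id (s := t)]
  exact image_congr fun u hu => h u hu

/-- the invariant cochains which vanish on the fixed simplices -/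
def Dc (τ : U → U) (T : Set (Finset U)) (k : ℕ) : AddSubgroup (Finset U → ZMod 2) where
  carrier := {f | f ∈ Cc T k ∧ tr τ f = f ∧ rs τ f = 0}
  zero_mem' := ⟨(Cc T k).zero_mem, map_zero _, map_zero _⟩
  add_mem' := by
    rintro f g ⟨h1, h2, h3⟩ ⟨h4, h5, h6⟩
    exact ⟨(Cc T k).add_mem h1 h4, by rw [map_add, h2, h5], by rw [map_add, h3, h6, add_zero]⟩
  neg_mem' := by
    rintro f ⟨h1, h2, h3⟩
    exact ⟨(Cc T k).neg_mem h1, by rw [map_neg, h2], by rw [map_neg, h3, neg_zero]⟩

theorem mem_Dc {k : ℕ} {f : Finset U → ZMod 2} :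
    f ∈ Dc τ T k ↔ f ∈ Cc T k ∧ tr τ f = f ∧ rs τ f = 0 := Iff.rfl

theorem rs_dT (f : Finset U → ZMod 2) : rs τ (dT T f) = dT (FT τ T) (rs τ f) := by
  funext t
  by_cases h : ∀ u ∈ t, τ u = u
  · rw [rs_pos h]
    by_cases h1 : t ∈ T
    · rw [dT_apply h1, dT_apply (show t ∈ FT τ T from ⟨h1, h⟩)]
      refine sum_congr rfl fun v _ => ?_
      rw [rs_pos fun u hu => h u (mem_of_mem_erase hu)]
    · rw [dT_apply' h1, dT_apply' (fun h2 => h1 h2.1)]
  · rw [rs_neg h, dT_apply' (fun h2 => h h2.2)]

/-- there is a set which contains exactly one of `t`, `τ t` for every `t` with `τ t ≠ t` -/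
theorem exists_sel (hi : ∀ u, τ (τ u) = u) : ∃ P : Finset U → Prop, ∀ t : Finset U, t.image τ ≠ t →
    (P t ∧ ¬ P (t.image τ)) ∨ (¬ P t ∧ P (t.image τ)) := by
  classical
  refine ⟨fun t => WellOrderingRel t (t.image τ), fun t ht => ?_⟩
  beta_reduce
  rw [image_image hi]
  rcases trichotomous_of WellOrderingRel t (t.image τ) with h | h | h
  · exact Or.inl ⟨h, fun h' => asymm_of WellOrderingRel h h'⟩
  · exact absurd h.symm ht
  · exact Or.inr ⟨fun h' => asymm_of WellOrderingRel h h', h⟩

/-- **The Smith sequence.** -/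
noncomputable def sq (h : Good τ T) : Sq (Finset U → ZMod 2) where
  C := Cc T
  D := Dc τ T
  F := Cc (FT τ T)
  d := dT T
  e := dT (FT τ T)
  σ := AddMonoidHom.id _ + tr τ
  ρ := rs τ
  two := fun x => funext fun t => z2_add (x t)
  zero := by
    intro x hx
    funext t
    by_contra h1
    obtain ⟨h2, h3⟩ := hx t h1
    exact (h.ne t h2).ne_empty (card_eq_zero.1 h3)
  D_le := fun k x hx => hx.1
  dC := fun k x hx => dT_mem hx
  dD := fun k x hx => ⟨dT_mem hx.1, by rw [tr_dT h, hx.2.1], by rw [rs_dT, hx.2.2, map_zero]⟩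
  eF := fun k x hx => dT_mem hx
  dd := fun k x hx => dT_dT h.conv hx
  σC := by
    intro k x hx
    refine ⟨(Cc T k).add_mem hx (tr_mem h hx), ?_, ?_⟩
    · have h1 : tr τ (tr τ x) = x := by
        funext t
        rw [tr_apply, tr_apply, image_image h.inv]
      show tr τ (x + tr τ x) = x + tr τ x
      rw [map_add, h1, add_comm]
    · funext t
      show rs τ (x + tr τ x) t = 0
      by_cases h1 : ∀ u ∈ t, τ u = u
      · rw [rs_pos h1, Pi.add_apply, tr_apply, image_fix h1]
        exact z2_add _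
      · rw [rs_neg h1]
  ρC := by
    intro k x hx t ht
    by_cases h1 : ∀ u ∈ t, τ u = u
    · rw [rs_pos h1] at ht
      exact ⟨⟨(hx t ht).1, h1⟩, (hx t ht).2⟩
    · exact absurd (rs_neg h1) ht
  σd := by
    intro k x _
    show dT T x + tr τ (dT T x) = dT T (x + tr τ x)
    rw [tr_dT h, map_add]
  ρd := fun k x _ => rs_dT x
  σD := by
    intro k x hx
    show x + tr τ x = 0
    rw [hx.2.1]
    exact funext fun t => z2_add (x t)
  ρD := fun k x hx => hx.2.2
  surj := by
    classical
    intro k x hx y hy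
    obtain ⟨P, hP⟩ := exists_sel h.inv
    have hyfix : ∀ t, ¬ (∀ u ∈ t, τ u = u) → y t = 0 := by
      intro t ht
      by_contra h1
      exact ht (hy t h1).1.2
    have hxfix : ∀ t, (∀ u ∈ t, τ u = u) → x t = 0 := by
      intro t ht
      have h1 := congrFun hx.2.2 t
      rwa [rs_pos ht] at h1
    have hxτ : ∀ t, x (t.image τ) = x t := fun t => congrFun hx.2.1 t
    have hfixim : ∀ t : Finset U, (∀ u ∈ t.image τ, τ u = u) → ∀ u ∈ t, τ u = u := by
      intro t ht u hu
      have h1 := ht (τ u) (mem_image_of_mem τ hu)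
      rw [h.inv] at h1
      exact h1.symm
    refine ⟨y + fun t => if P t then x t else 0, (Cc T k).add_mem (fun t ht => ⟨(hy t ht).1.1, (hy t ht).2⟩)
      (fun t ht => ?_), ?_, ?_⟩
    · have ht' : (if P t then x t else 0) ≠ 0 := ht
      split_ifs at ht'
      · exact hx.1 t ht'
      · exact absurd rfl ht'
    · funext t
      show (y t + if P t then x t else 0) + (y (t.image τ) + if P (t.image τ) then x (t.image τ) else 0) = x t
      by_cases h1 : ∀ u ∈ t, τ u = u
      · rw [image_fix h1, hxfix t h1]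
        exact z2_add _
      · rw [hyfix t h1, hyfix (t.image τ) (fun h2 => h1 (hfixim t h2)), zero_add, zero_add, hxτ]
        by_cases hxt : x t = 0
        · simp [hxt]
        · have h3 : t.image τ ≠ t := fun h4 => h1 (h.reg t (hx.1 t hxt).1 h4)
          rcases hP t h3 with ⟨h5, h6⟩ | ⟨h5, h6⟩
          · rw [if_pos h5, if_neg h6, add_zero]
          · rw [if_neg h5, if_pos h6, zero_add]
    · funext t
      by_cases h1 : ∀ u ∈ t, τ u = u
      · rw [rs_pos h1, Pi.add_apply, hxfix t h1, ite_self, add_zero]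
      · rw [rs_neg h1, hyfix t h1]
  ker := by
    intro k c hc h1 h2
    refine ⟨hc, ?_, h2⟩
    funext t
    exact (z2_eq (congrFun h1 t)).symm

end Pool.Agent.H8.SM
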