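import Pool.Agent.H8.SM.ManB
import Pool.Agent.H8.SM.Glo

/-!
# Project SM (Smith theory): the fixed complex is a homology manifold
-/

set_option autoImplicit false
set_option linter.unusedSectionVars false

open Finset
open Pool.Agent.H37.TM

namespace Pool.Agent.H8.SM

variable {U : Type} [DecidableEq U] {K B : Set (Finset U)} {n m : ℕ} {τ : U → U} {s : Finset U}

/-- the degree is constant -/
theorem exists_allDeg (hM : Mfd K B n) (hK : Acyc K) (h : Inv τ K B) : ∃ m, AllDeg hM h m := by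
  have hF := acyc_fx hM hK h
  obtain ⟨s₀, hs₀⟩ := acyc_nonempty hF
  obtain ⟨u₀, hu₀⟩ := hM.ne s₀ hs₀.1
  have hv : ∀ s ∈ Fx τ K, ∀ u ∈ s, ({u} : Finset U) ∈ Fx τ K := fun s hs u hu =>
    ⟨hM.down s hs.1 _ (singleton_subset_iff.2 hu) (singleton_nonempty u), fun w hw => by
      rw [mem_singleton.1 hw]; exact hs.2 u hu⟩
  obtain ⟨m, hm⟩ := exists_deg hM h (hv s₀ hs₀ u₀ hu₀)
  refine ⟨m, fun s hs => ?_⟩
  obtain ⟨u, hu⟩ := hM.ne s hs.1
  obtain ⟨m', hm'⟩ := exists_deg hM h hs
  have h1 : ∀ k, (sq (good_st hM h (hv s hs u hu))).Deg n k → k = m' := fun k hk =>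
    deg_eq hM h (hv s hs u hu) hs (singleton_subset_iff.2 hu) hk hm'
  have h2 := conn hF (fun w => ∃ hw : ({w} : Finset U) ∈ Fx τ K, (sq (good_st hM h hw)).Deg n m) (by
    rintro a b hab ⟨ha, hda⟩
    have hb : ({b} : Finset U) ∈ Fx τ K := hv _ hab b (by simp)
    obtain ⟨k, hk⟩ := exists_deg hM h hb
    obtain ⟨k', hk'⟩ := exists_deg hM h hab
    have h3 : m = k' := deg_eq hM h ha hab (by simp) hda hk'
    have h4 : k = k' := deg_eq hM h hb hab (by simp) hk hk'
    refine ⟨hb, ?_⟩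
    rw [h3, ← h4]
    exact hk) (hv s₀ hs₀ u₀ hu₀) (hv s hs u hu) ⟨hv s₀ hs₀ u₀ hu₀, hm⟩
  obtain ⟨hw, h3⟩ := h2
  rw [h1 m h3]
  exact hm'

theorem rel_fx {j : ℕ} {f : Finset U → ZMod 2} : Rel (Fx τ K) (Fx τ B) s j f ↔ f ∈ Cc (FT τ (St K B s)) j := by
  constructor
  · intro h t ht
    obtain ⟨h1, h2, h3, h4⟩ := h t ht
    exact ⟨⟨⟨h1.1, fun h5 => h2 ⟨h5, h1.2⟩, h3⟩, h1.2⟩, h4⟩
  · intro h t ht
    obtain ⟨⟨⟨h1, h2, h3⟩, h4⟩, h5⟩ := h t ht
    exact ⟨⟨h1, h4⟩, fun h6 => h2 h6.1, h3, h5⟩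

theorem st_fx : St (Fx τ K) (Fx τ B) s = FT τ (St K B s) := by
  ext t
  constructor
  · rintro ⟨h1, h2, h3⟩
    exact ⟨⟨h1.1, fun h5 => h2 ⟨h5, h1.2⟩, h3⟩, h1.2⟩
  · rintro ⟨⟨h1, h2, h3⟩, h4⟩
    have h5 : t ∈ Fx τ K := ⟨h1, h4⟩
    have h7 : t ∉ Fx τ B := fun h6 => h2 h6.1
    exact ⟨h5, h7, h3⟩

/-- the coboundary of a simplex with `m` vertices has sum zero -/
theorem ep_d_single (hM : Mfd K B n) (h : Inv τ K B) (hm : AllDeg hM h m) (hs : s ∈ Fx τ K)
    {r : Finset U} (hr : r ∈ FT τ (St K B s)) (hc : r.card = m) :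
    ep (ft_fin hM h hs) (dT (FT τ (St K B s)) (Pi.single r 1)) = 0 := by
  classical
  have hr' : r ∈ Fx τ K := ⟨hr.1.1, hr.2⟩
  have h1 : (Pi.single r 1 : Finset U → ZMod 2) ∈ Cc {t | t ∈ FT τ (St K B s) ∧ r ⊆ t} m :=
    single_mem (show r ∈ {t | t ∈ FT τ (St K B s) ∧ r ⊆ t} from ⟨hr, Subset.rfl⟩) hc
  rw [dT_sup h1, ft_eq hr.1.2.2, ep_apply]
  have h2 : ∀ t ∈ (ft_fin hM h hs).toFinset, dT (FT τ (St K B r)) (Pi.single r 1) t =
      if t ∈ cf hM h hr' m then 1 else 0 := fun t _ => d_single hM h hm hr' hc t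
  rw [sum_congr rfl h2, ← sum_filter, sum_const, nsmul_eq_mul, mul_one]
  have h3 : (ft_fin hM h hs).toFinset.filter (fun t => t ∈ cf hM h hr' m) = cf hM h hr' m := by
    ext t
    rw [mem_filter, Set.Finite.mem_toFinset]
    constructor
    · exact fun h4 => h4.2
    · intro h4
      refine ⟨?_, h4⟩
      have h5 := (mem_cf.1 h4).1
      rw [← ft_eq hr.1.2.2] at h5
      exact h5.1
  rw [h3, two_cf hM h hm hr' hr.1.2.1 hc]
  rfl

/-- the coboundaries in the top degree have sum zero -/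
theorem ep_cob (hM : Mfd K B n) (h : Inv τ K B) (hm : AllDeg hM h m) (hs : s ∈ Fx τ K)
    {y : Finset U → ZMod 2} (hy : y ∈ Cc (FT τ (St K B s)) m) :
    ep (ft_fin hM h hs) (dT (FT τ (St K B s)) y) = 0 := by
  classical
  have h1 : y = ∑ r ∈ (ft_fin hM h hs).toFinset, Pi.single r (y r) := by
    funext t
    rw [Finset.sum_apply]
    by_cases h2 : y t = 0
    · rw [h2]
      symm
      refine sum_eq_zero fun r _ => ?_
      by_cases h3 : t = r
      · subst h3; rw [h2, Pi.single_zero]; rfl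
      · exact Pi.single_eq_of_ne h3 _
    · rw [sum_eq_single t]
      · rw [Pi.single_eq_same]
      · intro b _ hb
        exact Pi.single_eq_of_ne (Ne.symm hb) _
      · intro h3
        exact absurd ((Set.Finite.mem_toFinset _).2 (hy t h2).1) h3
  rw [h1, map_sum, map_sum]
  refine sum_eq_zero fun r _ => ?_
  by_cases h2 : y r = 0
  · rw [h2, Pi.single_zero, map_zero, map_zero]
  · rw [z2 h2]
    exact ep_d_single hM h hm hs (hy r h2).1 (hy r h2).2

/-- a cochain in the top degree is a coboundary if and only if its sum is zero -/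
theorem top_fx_iff (hM : Mfd K B n) (h : Inv τ K B) (hm : AllDeg hM h m) (hs : s ∈ Fx τ K)
    {z : Finset U → ZMod 2} (hz : z ∈ Cc (FT τ (St K B s)) (m + 1)) :
    ep (ft_fin hM h hs) z = 0 ↔ ∃ y ∈ Cc (FT τ (St K B s)) m, dT (FT τ (St K B s)) y = z := by
  constructor
  · intro h0
    obtain ⟨x, hx, -, hno, hall⟩ := (hm s hs).one
    have hcoc : ∀ w ∈ Cc (FT τ (St K B s)) (m + 1), dT (FT τ (St K B s)) w = 0 := fun w hw =>
      bot_fx hM h hm (by omega) (dT_mem hw)
    have hall' : ∀ w ∈ Cc (FT τ (St K B s)) (m + 1),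
        (∃ y ∈ Cc (FT τ (St K B s)) m, dT (FT τ (St K B s)) y = w) ∨
        ∃ y ∈ Cc (FT τ (St K B s)) m, dT (FT τ (St K B s)) y = w + x := fun w hw =>
      hall w hw (hcoc w hw)
    rcases hall' z hz with h1 | ⟨y, hy, hyd⟩
    · exact h1
    · exfalso
      have h2 : ep (ft_fin hM h hs) (z + x) = 0 := by rw [← hyd]; exact ep_cob hM h hm hs hy
      rw [map_add, h0, zero_add] at h2
      obtain ⟨t, ht, htc⟩ := top_fx hM h hm hs
      rcases hall' _ (single_mem ht htc) with h3 | ⟨y', hy', hyd'⟩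
      · exact single_ne_cob hM h hs ht htc h3
      · have h4 : ep (ft_fin hM h hs) (Pi.single t 1 + x) = 0 := by
          rw [← hyd']; exact ep_cob hM h hm hs hy'
        rw [map_add, ep_single _ ht, h2, add_zero] at h4
        exact one_ne_zero h4
  · rintro ⟨y, hy, rfl⟩
    exact ep_cob hM h hm hs hy

theorem mfd_of_allDeg (hM : Mfd K B n) (h : Inv τ K B) (hm : AllDeg hM h m) :
    Mfd (Fx τ K) (Fx τ B) m where
  ne := fun s hs => hM.ne s hs.1
  down := fun s hs t hts hne => ⟨hM.down s hs.1 t hts hne, fun u hu => hs.2 u (hts hu)⟩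
  bd_sub := fun s hs => ⟨hM.bd_sub hs.1, hs.2⟩
  bd_down := fun s hs t hts hne => ⟨hM.bd_down s hs.1 t hts hne, fun u hu => hs.2 u (hts hu)⟩
  locfin := fun s hs => (hM.locfin s hs.1).subset fun t ht => ⟨ht.1.1, ht.2⟩
  card_le := fun s hs => card_le_fx hM h hm hs
  top_ex := by
    intro s hs
    obtain ⟨t, ht, htc⟩ := top_fx hM h hm hs
    exact ⟨t, ⟨ht.1.1, ht.2⟩, fun h5 => ht.1.2.1 h5.1, ht.1.2.2, htc⟩
  low := by
    intro s hs j hj f hf hcf
    have h1 := rel_fx.1 hf
    have h2 : HZ (Cc (FT τ (St K B s))) (dT (FT τ (St K B s))) j := (hm s hs).F_hz j (by omega)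
    have h3 : dT (FT τ (St K B s)) f = 0 := by
      have := (isCob_zero_iff hf).1 hcf
      rwa [st_fx] at this
    obtain ⟨y, hy, hyd⟩ := h2 f h1 h3
    refine ⟨y, rel_fx.2 hy, (isCob_iff (rel_fx.2 hy) hf).2 ?_⟩
    rw [st_fx]
    exact hyd
  top := by
    intro s hs f hf
    have h1 := rel_fx.1 hf
    rw [← ep_eq (ft_fin hM h hs) h1, top_fx_iff hM h hm hs h1]
    constructor
    · rintro ⟨y, hy, hyd⟩
      refine ⟨y, rel_fx.2 hy, (isCob_iff (rel_fx.2 hy) hf).2 ?_⟩
      rw [st_fx]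
      exact hyd
    · rintro ⟨y, hy, hyd⟩
      refine ⟨y, rel_fx.1 hy, ?_⟩
      have := (isCob_iff hy hf).1 hyd
      rwa [st_fx] at this

/-- if the degree is `n`, then the stars of the fixed simplices are fixed -/
theorem star_fixed (hM : Mfd K B n) (h : Inv τ K B) (hm : AllDeg hM h n) : ∀ k : ℕ, ∀ s ∈ Fx τ K,
    n + 1 ≤ s.card + k → ∀ t ∈ K, s ⊆ t → ∀ u ∈ t, τ u = u := by
  classical
  intro k
  induction k with
  | zero =>
    intro s hs hk t ht hst u hu
    have h1 := hM.card_le t ht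
    have h2 := eq_of_subset_of_card_le hst (by omega)
    rw [← h2] at hu
    exact hs.2 u hu
  | succ k ih =>
    intro s hs hk t ht hst
    by_contra hnf
    -- a top simplex which is not fixed
    obtain ⟨t₁, ht₁, htB₁, htt₁, htc₁⟩ := hM.top_ex t ht
    have hnf₁ : ¬ ∀ u ∈ t₁, τ u = u := fun h1 => hnf fun u hu => h1 u (htt₁ hu)
    have hst₁ : s ⊆ t₁ := hst.trans htt₁
    -- no fixed simplex between
    have hbet : ∀ r ∈ Fx τ K, s ⊂ r → ∀ t' ∈ K, r ⊆ t' → ∀ u ∈ t', τ u = u := by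
      intro r hr hsr t' ht' hrt'
      have h1 := card_lt_card hsr
      exact ih r hr (by omega) t' ht' hrt'
    obtain ⟨t₀, ht₀, htc₀⟩ := top_fx hM h hm hs
    have h1T : t₁ ∈ St K B s := ⟨ht₁, htB₁, hst₁⟩
    have h0T : t₀ ∈ St K B s := ht₀.1
    have hne01 : t₀ ≠ t₁ := by
      rintro rfl
      exact hnf₁ ht₀.2
    -- the sum of the two top simplices is a coboundary
    obtain ⟨y, hy, hyd⟩ := (top_st hM hs.1 (AddSubgroup.add_mem _ (single_mem h0T htc₀)
      (single_mem h1T htc₁))).1 (by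
        rw [map_add, ep_single _ h0T, ep_single _ h1T]
        exact z2_add 1)
    by_cases hys : y s = 0
    · -- restrict to the fixed simplices
      have hrs : rs τ y ∈ Cc (St K B s) n := by
        intro t' ht'
        by_cases h2 : ∀ u ∈ t', τ u = u
        · rw [rs_pos h2] at ht'
          exact hy t' ht'
        · exact absurd (rs_neg h2) ht'
      have h3 : dT (St K B s) (rs τ y) = Pi.single t₀ 1 := by
        funext t'
        by_cases h4 : t' ∈ St K B s
        · by_cases h5 : ∀ u ∈ t', τ u = u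
          · have h6 : dT (St K B s) (rs τ y) t' = dT (St K B s) y t' := by
              rw [dT_apply h4, dT_apply h4]
              exact sum_congr rfl fun v _ => rs_pos fun u hu => h5 u (mem_of_mem_erase hu)
            rw [h6, hyd, Pi.add_apply]
            have h7 : t' ≠ t₁ := by
              rintro rfl
              exact hnf₁ h5
            rw [Pi.single_eq_of_ne h7, add_zero]
          · rw [dT_apply h4, Pi.single_eq_of_ne (by rintro rfl; exact h5 ht₀.2)]
            refine sum_eq_zero fun v hv => ?_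
            by_contra h6
            have h7 : ∀ u ∈ t'.erase v, τ u = u := by
              by_contra h8
              exact h6 (rs_neg h8)
            rw [rs_pos h7] at h6
            have h8 := (hy _ h6).1
            rcases eq_or_ssubset_of_subset h8.2.2 with h9 | h9
            · rw [← h9] at h6
              exact h6 hys
            · exact h5 (hbet _ ⟨h8.1, h7⟩ h9 t' h4.1 (erase_subset v t'))
        · rw [dT_apply' h4, Pi.single_eq_of_ne (by rintro rfl; exact h4 h0T)]
      have h4 := (top_st hM hs.1 (single_mem h0T htc₀)).2 ⟨_, hrs, h3⟩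
      rw [ep_single _ h0T] at h4
      exact one_ne_zero h4
    · -- `s` has codimension one and is not in the boundary
      obtain ⟨hsT, hsc⟩ := hy s hys
      have hy1 : y = Pi.single s 1 := by
        funext t'
        by_cases h2 : t' = s
        · rw [h2, Pi.single_eq_same, z2 hys]
        · rw [Pi.single_eq_of_ne h2]
          by_contra h3
          obtain ⟨h4, h5⟩ := hy t' h3
          exact h2 (eq_of_subset_of_card_le h4.2.2 (by omega)).symm
      have h2 := two_cf hM h hm hs hsT.2.1 hsc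
      obtain ⟨a, b, hab, hcf⟩ := card_eq_two.1 h2
      have hcfm : ∀ t' ∈ cf hM h hs n, t' = t₀ := by
        intro t' ht'
        have h3 := mem_cf.1 ht'
        have h4 := congrFun hyd t'
        obtain ⟨v, hv, hv'⟩ := erase_eq_iff h3.1.1.2.2 (by rw [h3.2, hsc])
        rw [hy1, dT_apply h3.1.1, sum_eq_single v, (hv' v hv).2 rfl, Pi.single_eq_same,
          Pi.add_apply] at h4
        · by_contra h5
          have h6 : t' ≠ t₁ := by
            rintro rfl
            exact hnf₁ h3.1.2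
          rw [Pi.single_eq_of_ne h5, Pi.single_eq_of_ne h6, add_zero] at h4
          exact one_ne_zero h4
        · intro w hw hwv
          exact Pi.single_eq_of_ne (fun h7 => hwv ((hv' w hw).1 h7)) _
        · exact fun h7 => absurd hv h7
      have ha := hcfm a (by rw [hcf]; simp)
      have hb := hcfm b (by rw [hcf]; simp)
      exact hab (ha.trans hb.symm)

/-- **Smith.** The fixed complex of a regular involution is a homology manifold with boundary. -/
theorem mfd_fx (hM : Mfd K B n) (hK : Acyc K) (h : Inv τ K B) :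
    ∃ m, m ≤ n ∧ Mfd (Fx τ K) (Fx τ B) m ∧
      (∀ s, ∀ hs : s ∈ Fx τ K, (sq (good_st hM h hs)).Deg n m) ∧
      (m = n → ∀ u, {u} ∈ K → τ u = u) := by
  obtain ⟨m, hm⟩ := exists_allDeg hM hK h
  obtain ⟨s₀, hs₀⟩ := acyc_nonempty (acyc_fx hM hK h)
  refine ⟨m, (hm s₀ hs₀).le, mfd_of_allDeg hM h hm, hm, ?_⟩
  rintro rfl u hu
  obtain ⟨u₀, hu₀⟩ := hM.ne s₀ hs₀.1
  have h0 : ({u₀} : Finset U) ∈ K := hM.down s₀ hs₀.1 _ (singleton_subset_iff.2 hu₀) (singleton_nonempty u₀)
  refine conn hK (fun w => τ w = w) (fun a b hab ha => ?_) h0 hu (hs₀.2 u₀ hu₀)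
  have ha' : ({a} : Finset U) ∈ Fx τ K := ⟨hM.down _ hab _ (by simp) (singleton_nonempty a), fun w hw => by
    rw [mem_singleton.1 hw]; exact ha⟩
  exact star_fixed hM h hm m {a} ha' (by rw [card_singleton]; omega) _ hab (by simp) b (by simp)

end Pool.Agent.H8.SM
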