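import Pool.Agent.H8.SM.Conn

/-!
# Project SM (Smith theory): the degree of the fixed set is locally constant
-/

set_option autoImplicit false
set_option linter.unusedSectionVars false

open Finset
open Pool.Agent.H37.TM

namespace Pool.Agent.H8.SM

variable {U : Type} [DecidableEq U] {K B : Set (Finset U)} {n : ℕ} {τ : U → U} {s s' : Finset U}

/-- the star of `s'` is the set of the elements of the star of `s` which contain `s'` -/
theorem st_eq (h : s ⊆ s') : {t | t ∈ St K B s ∧ s' ⊆ t} = St K B s' := by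
  ext t
  constructor
  · rintro ⟨⟨h1, h2, -⟩, h3⟩
    exact ⟨h1, h2, h3⟩
  · rintro ⟨h1, h2, h3⟩
    exact ⟨⟨h1, h2, h.trans h3⟩, h3⟩

theorem st_conv (hM : Mfd K B n) (hs : s.Nonempty) :
    ∀ t ∈ St K B s, ∀ t' ∈ St K B s, ∀ r, t ⊆ r → r ⊆ t' → r ∈ St K B s :=
  fun t ht t' ht' r h1 h2 => ⟨hM.down t' ht'.1 r h2 ((hM.ne t ht.1).mono h1), fun hr => ht.2.1
      (hM.bd_down r hr t h1 (hM.ne t ht.1)), ht.2.2.trans h1⟩

theorem st_fin (hM : Mfd K B n) (hs : s ∈ K) : (St K B s).Finite :=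
  (hM.locfin s hs).subset fun _ ht => ⟨ht.1, ht.2.2⟩

/-- the cohomology in the top degree -/
theorem top_st (hM : Mfd K B n) (hs : s ∈ K) {x : Finset U → ZMod 2} (hx : x ∈ Cc (St K B s) (n + 1)) :
    ep (st_fin hM hs) x = 0 ↔ ∃ y ∈ Cc (St K B s) n, dT (St K B s) y = x := by
  have h1 := mem_Cc_st.1 hx
  rw [ep_eq (st_fin hM hs) hx, hM.top s hs x h1]
  constructor
  · rintro ⟨g, hg, hgx⟩
    exact ⟨g, mem_Cc_st.2 hg, (isCob_iff hg h1).1 hgx⟩
  · rintro ⟨g, hg, hgx⟩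
    exact ⟨g, mem_Cc_st.1 hg, (isCob_iff (mem_Cc_st.1 hg) h1).2 hgx⟩

theorem cc_bot (hM : Mfd K B n) {T : Set (Finset U)} (hT : T ⊆ K) {k : ℕ} (hk : n + 1 < k)
    {x : Finset U → ZMod 2} (hx : x ∈ Cc T k) : x = 0 := by
  funext t
  by_contra h1
  obtain ⟨h2, h3⟩ := hx t h1
  have h4 := hM.card_le t (hT h2)
  omega

theorem rt_self {R : Set (Finset U)} {k : ℕ} {z : Finset U → ZMod 2} (hz : z ∈ Cc R k) : rt R z = z := by
  classical
  funext r
  simp only [rt]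
  split_ifs with h9
  · rfl
  · by_contra h10
    exact h9 (hz r (Ne.symm h10)).1

theorem rt_add (R : Set (Finset U)) (f g : Finset U → ZMod 2) : rt R (f + g) = rt R f + rt R g := by
  classical
  funext r
  simp only [rt, Pi.add_apply]
  split_ifs
  · rfl
  · rw [add_zero]

theorem rt_of_sup {T : Set (Finset U)} {s' : Finset U} {k : ℕ} {y : Finset U → ZMod 2}
    (hy : y ∈ Cc {t | t ∈ T ∧ s' ⊆ t} k) : rt {t | t ∈ T ∧ ¬ s' ⊆ t} y = 0 := by
  classical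
  funext t
  simp only [rt]
  split_ifs with h1
  · by_contra h2
    exact h1.2 (hy t h2).1.2
  · rfl

/-- the elements of the star of `s` which do not contain `s'` have no cohomology -/
theorem hz_diff (hM : Mfd K B n) (hs : s ∈ K) (hs' : s' ∈ K) (hss : s ⊆ s') (k : ℕ) :
    HZ (Cc {t | t ∈ St K B s ∧ ¬ s' ⊆ t}) (dT {t | t ∈ St K B s ∧ ¬ s' ⊆ t}) k := by
  classical
  intro x hx hdx
  have hxT : x ∈ Cc (St K B s) (k + 1) := fun t ht => ⟨(hx t ht).1.1, (hx t ht).2⟩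
  -- it is enough to find a cochain `a` of the star of `s'` such that `x + a` is a coboundary
  have main : (∃ a ∈ Cc {t | t ∈ St K B s ∧ s' ⊆ t} (k + 1), ∃ z ∈ Cc (St K B s) k,
      dT (St K B s) z = x + a) →
      ∃ y ∈ Cc {t | t ∈ St K B s ∧ ¬ s' ⊆ t} k, dT {t | t ∈ St K B s ∧ ¬ s' ⊆ t} y = x := by
    rintro ⟨a, ha, z, hz, hzd⟩
    refine ⟨_, rt_mem (R := {t | t ∈ St K B s ∧ ¬ s' ⊆ t}) hz, ?_⟩
    rw [← rt_dT hz, hzd, rt_add, rt_self hx, rt_of_sup ha, add_zero]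
  apply main
  rcases lt_trichotomy k n with hk | hk | hk
  · -- the coboundary of `x` is a cocycle of the star of `s'`
    have hw : dT (St K B s) x ∈ Cc {t | t ∈ St K B s ∧ s' ⊆ t} (k + 2) := by
      have h1 := dT_mem hxT
      intro t ht
      refine ⟨⟨(h1 t ht).1, ?_⟩, (h1 t ht).2⟩
      by_contra h2
      have h3 : t ∈ {t | t ∈ St K B s ∧ ¬ s' ⊆ t} := ⟨(h1 t ht).1, h2⟩
      have h4 := congrFun (rt_dT hxT (s' := s')) t
      rw [rt_self hx, hdx] at h4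
      simp only [rt] at h4
      rw [if_pos h3] at h4
      exact ht h4
    have hdw : dT (St K B s) (dT (St K B s) x) = 0 := dT_dT (st_conv hM (hM.ne s hs)) hxT
    obtain ⟨y', hy', hyd⟩ : ∃ y' ∈ Cc (St K B s') (k + 1), dT (St K B s') y' = dT (St K B s) x := by
      have hw' : dT (St K B s) x ∈ Cc (St K B s') (k + 2) := by rwa [st_eq hss] at hw
      have hdw' : dT (St K B s') (dT (St K B s) x) = 0 := by
        rw [← st_eq hss, ← dT_sup hw, hdw]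
      rcases Nat.lt_or_ge (k + 1) n with h1 | h1
      · exact hz_st hM hs' h1 _ hw' hdw'
      · obtain rfl : n = k + 1 := by omega
        rw [← top_st hM hs' hw']
        have h2 : ep (st_fin hM hs) (dT (St K B s) x) = 0 :=
          (top_st hM hs (dT_mem hxT)).2 ⟨x, hxT, rfl⟩
        rw [ep_eq _ (dT_mem hxT)] at h2
        rw [ep_eq _ hw', h2]
    have hy'' : y' ∈ Cc {t | t ∈ St K B s ∧ s' ⊆ t} (k + 1) := by rwa [st_eq hss]
    refine ⟨y', hy'', ?_⟩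
    refine hz_st hM hs hk _ (AddSubgroup.add_mem _ hxT fun t ht => ⟨(hy'' t ht).1.1, (hy'' t ht).2⟩) ?_
    rw [map_add, dT_sup hy'', st_eq hss, hyd]
    exact funext fun t => z2_add _
  · subst hk
    by_cases h1 : ep (st_fin hM hs) x = 0
    · obtain ⟨z, hz, hzd⟩ := (top_st hM hs hxT).1 h1
      exact ⟨0, AddSubgroup.zero_mem _, z, hz, by rw [hzd, add_zero]⟩
    · obtain ⟨t, ht, htB, hst, htc⟩ := hM.top_ex s' hs'
      have ht' : t ∈ {t | t ∈ St K B s ∧ s' ⊆ t} := ⟨⟨ht, htB, hss.trans hst⟩, hst⟩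
      have ha : (Pi.single t 1 : Finset U → ZMod 2) ∈ Cc {t | t ∈ St K B s ∧ s' ⊆ t} (k + 1) := by
        intro t' h2
        by_cases h3 : t' = t
        · subst h3
          exact ⟨ht', htc⟩
        · exact absurd (Pi.single_eq_of_ne h3 _) h2
      have ha' : (Pi.single t 1 : Finset U → ZMod 2) ∈ Cc (St K B s) (k + 1) :=
        fun t' h2 => ⟨(ha t' h2).1.1, (ha t' h2).2⟩
      refine ⟨_, ha, (top_st hM hs (AddSubgroup.add_mem _ hxT ha')).1 ?_⟩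
      have h4 : ep (st_fin hM hs) (Pi.single t 1) = 1 := by
        rw [ep_apply, sum_eq_single t]
        · rw [Pi.single_eq_same]
        · intro b _ hb
          exact Pi.single_eq_of_ne hb _
        · intro h5
          exact absurd ((Set.Finite.mem_toFinset _).2 ht'.1) h5
      rw [map_add, h4, z2 h1]
      decide
  · refine ⟨0, AddSubgroup.zero_mem _, 0, AddSubgroup.zero_mem _, ?_⟩
    rw [map_zero, add_zero]
    exact (cc_bot hM (fun t ht => ht.1) (by omega) hxT).symm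

/-- the fixed elements of the star of `s` which do not contain `s'` have no cohomology -/
theorem hz_fdiff (hM : Mfd K B n) (h : Inv τ K B) (hs : s ∈ Fx τ K) (hs' : s' ∈ Fx τ K) (hss : s ⊆ s')
    (k : ℕ) : HZ (Cc {t | t ∈ FT τ (St K B s) ∧ ¬ s' ⊆ t}) (dT {t | t ∈ FT τ (St K B s) ∧ ¬ s' ⊆ t}) k := by
  have h1 := ((sq (good_diff hM h hs hs')).acyclic (N := n + 1)
    (fun k hk x hx => cc_bot hM (fun t ht => ht.1.1) hk hx)
    (fun k => hz_diff hM hs.1 hs'.1 hss k) k).2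
  have h2 : FT τ {t | t ∈ St K B s ∧ ¬ s' ⊆ t} = {t | t ∈ FT τ (St K B s) ∧ ¬ s' ⊆ t} := by
    ext t
    constructor
    · rintro ⟨⟨h3, h4⟩, h5⟩
      exact ⟨⟨h3, h5⟩, h4⟩
    · rintro ⟨⟨h3, h5⟩, h4⟩
      exact ⟨⟨h3, h4⟩, h5⟩
  have h3 : HZ (Cc (FT τ {t | t ∈ St K B s ∧ ¬ s' ⊆ t})) (dT (FT τ {t | t ∈ St K B s ∧ ¬ s' ⊆ t})) k := h1
  rwa [h2] at h3

theorem ft_eq (h : s ⊆ s') : {t | t ∈ FT τ (St K B s) ∧ s' ⊆ t} = FT τ (St K B s') := by
  ext t
  constructor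
  · rintro ⟨⟨⟨h1, h2, -⟩, h4⟩, h3⟩
    exact ⟨⟨h1, h2, h3⟩, h4⟩
  · rintro ⟨⟨h1, h2, h3⟩, h4⟩
    exact ⟨⟨⟨h1, h2, h.trans h3⟩, h4⟩, h3⟩

theorem ft_conv (hM : Mfd K B n) (h : Inv τ K B) (hs : s ∈ Fx τ K) :
    ∀ t ∈ FT τ (St K B s), ∀ t' ∈ FT τ (St K B s), ∀ r, t ⊆ r → r ⊆ t' → r ∈ FT τ (St K B s) :=
  fun t ht t' ht' r h1 h2 => ⟨(good_st hM h hs).conv t ht.1 t' ht'.1 r h1 h2,
    fun u hu => ht'.2 u (h2 hu)⟩

/-- a coboundary in the fixed star of `s` which is supported on the fixed star of `s'` is a coboundary there -/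
theorem cob_ft (hM : Mfd K B n) (h : Inv τ K B) (hs : s ∈ Fx τ K) (hs' : s' ∈ Fx τ K) (hss : s ⊆ s')
    {k : ℕ} {x y : Finset U → ZMod 2} (hx : x ∈ Cc (FT τ (St K B s')) (k + 1))
    (hy : y ∈ Cc (FT τ (St K B s)) k) (hd : dT (FT τ (St K B s)) y = x) :
    ∃ y' ∈ Cc (FT τ (St K B s')) k, dT (FT τ (St K B s')) y' = x := by
  have h1 := cob_sup (T := FT τ (St K B s)) (s' := s') (fun t ht => (good_st hM h hs).ne t ht.1)
    (ft_conv hM h hs) (hz_fdiff hM h hs hs' hss) (x := x) (y := y) (by rwa [ft_eq hss]) hy hd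
  rwa [ft_eq hss] at h1

/-- the degree is the same at `s ⊆ s'` -/
theorem deg_eq (hM : Mfd K B n) (h : Inv τ K B) (hs : s ∈ Fx τ K) (hs' : s' ∈ Fx τ K) (hss : s ⊆ s')
    {m m' : ℕ} (hm : (sq (good_st hM h hs)).Deg n m) (hm' : (sq (good_st hM h hs')).Deg n m') :
    m = m' := by
  by_contra hne
  obtain ⟨x, hx, hdx, hno, -⟩ := hm'.one
  have hx1 : x ∈ Cc (FT τ (St K B s')) (m' + 1) := hx
  have hdx1 : dT (FT τ (St K B s')) x = 0 := hdx
  have hx2 : x ∈ Cc {t | t ∈ FT τ (St K B s) ∧ s' ⊆ t} (m' + 1) := by rwa [ft_eq hss]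
  have hx3 : x ∈ Cc (FT τ (St K B s)) (m' + 1) := fun t ht => ⟨(hx2 t ht).1.1, (hx2 t ht).2⟩
  have h1 : HZ (Cc (FT τ (St K B s))) (dT (FT τ (St K B s))) m' := hm.F_hz m' (Ne.symm hne)
  obtain ⟨y, hy, hyd⟩ := h1 x hx3 (by rw [dT_sup hx2, ft_eq hss, hdx1])
  exact hno (cob_ft hM h hs hs' hss hx1 hy hyd)

/-- the degree is unique -/
theorem deg_unique (hM : Mfd K B n) (h : Inv τ K B) (hs : s ∈ Fx τ K) {m m' : ℕ}
    (hm : (sq (good_st hM h hs)).Deg n m) (hm' : (sq (good_st hM h hs)).Deg n m') : m = m' :=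
  deg_eq hM h hs hs Subset.rfl hm hm'

end Pool.Agent.H8.SM
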