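import Pool.Agent.H8.SM.ManA

/-!
# Project SM (Smith theory): the fixed complex near a simplex
-/

set_option autoImplicit false
set_option linter.unusedSectionVars false

open Finset
open Pool.Agent.H37.TM

namespace Pool.Agent.H8.SM

variable {U : Type} [DecidableEq U] {K B : Set (Finset U)} {n m : ℕ} {τ : U → U} {s s' : Finset U}

theorem single_mem {T : Set (Finset U)} {t : Finset U} (ht : t ∈ T) {k : ℕ} (hk : t.card = k) :
    (Pi.single t 1 : Finset U → ZMod 2) ∈ Cc T k := by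
  intro t' h2
  by_cases h3 : t' = t
  · subst h3
    exact ⟨ht, hk⟩
  · exact absurd (Pi.single_eq_of_ne h3 _) h2

theorem ep_single {T : Set (Finset U)} (hT : T.Finite) {t : Finset U} (ht : t ∈ T) :
    ep hT (Pi.single t 1) = 1 := by
  rw [ep_apply, sum_eq_single t]
  · rw [Pi.single_eq_same]
  · intro b _ hb
    exact Pi.single_eq_of_ne hb _
  · intro h5
    exact absurd ((Set.Finite.mem_toFinset _).2 ht) h5

/-- the degree is `m` at every fixed simplex -/
def AllDeg (hM : Mfd K B n) (h : Inv τ K B) (m : ℕ) : Prop :=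
  ∀ s, ∀ hs : s ∈ Fx τ K, (sq (good_st hM h hs)).Deg n m

theorem top_fx (hM : Mfd K B n) (h : Inv τ K B) (hm : AllDeg hM h m) (hs : s ∈ Fx τ K) :
    ∃ t ∈ FT τ (St K B s), t.card = m + 1 := by
  obtain ⟨x, hx, -, hno, -⟩ := (hm s hs).one
  have hx' : x ∈ Cc (FT τ (St K B s)) (m + 1) := hx
  have h1 : x ≠ 0 := by
    rintro rfl
    exact hno ⟨0, AddSubgroup.zero_mem _, map_zero _⟩
  obtain ⟨t, ht⟩ := Function.ne_iff.1 h1
  exact ⟨t, (hx' t ht).1, (hx' t ht).2⟩

theorem card_le_fx (hM : Mfd K B n) (h : Inv τ K B) (hm : AllDeg hM h m) (hs : s ∈ Fx τ K) :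
    s.card ≤ m + 1 := by
  obtain ⟨t, ht, htc⟩ := top_fx hM h hm hs
  rw [← htc]
  exact card_le_card ht.1.2.2

theorem bot_fx (hM : Mfd K B n) (h : Inv τ K B) (hm : AllDeg hM h m) {k : ℕ} (hk : m + 1 < k)
    {x : Finset U → ZMod 2} (hx : x ∈ Cc (FT τ (St K B s)) k) : x = 0 := by
  funext t
  by_contra h1
  obtain ⟨h2, h3⟩ := hx t h1
  have h4 := card_le_fx hM h hm (s := t) ⟨h2.1.1, h2.2⟩
  omega

/-- a top simplex of the fixed star is not a coboundary -/
theorem single_ne_cob (hM : Mfd K B n) (h : Inv τ K B) (hs : s ∈ Fx τ K)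
    {t : Finset U} (ht : t ∈ FT τ (St K B s)) (hc : t.card = m + 1) :
    ¬ ∃ y ∈ Cc (FT τ (St K B s)) m, dT (FT τ (St K B s)) y = Pi.single t 1 := by
  rintro ⟨y, hy, hyd⟩
  have ht' : t ∈ Fx τ K := ⟨ht.1.1, ht.2⟩
  have h1 : t ∈ FT τ (St K B t) := ⟨⟨ht.1.1, ht.1.2.1, Subset.rfl⟩, ht.2⟩
  obtain ⟨y', hy', hyd'⟩ := cob_ft hM h hs ht' ht.1.2.2 (single_mem h1 hc) hy hyd
  have h2 : y' = 0 := by
    funext r
    by_contra h3
    obtain ⟨h4, h5⟩ := hy' r h3
    have := card_le_card h4.1.2.2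
    omega
  rw [h2, map_zero] at hyd'
  have h3 := congrFun hyd' t
  rw [Pi.single_eq_same] at h3
  exact zero_ne_one h3

theorem ft_fin (hM : Mfd K B n) (h : Inv τ K B) (hs : s ∈ Fx τ K) : (FT τ (St K B s)).Finite :=
  (good_st hM h hs).fin.subset fun _ ht => ht.1

/-- the fixed cofaces -/
noncomputable def cf (hM : Mfd K B n) (h : Inv τ K B) (hs : s ∈ Fx τ K) (m : ℕ) : Finset (Finset U) :=
  (ft_fin hM h hs).toFinset.filter fun t => t.card = m + 1

theorem mem_cf {hM : Mfd K B n} {h : Inv τ K B} {hs : s ∈ Fx τ K} {t : Finset U} :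
    t ∈ cf hM h hs m ↔ t ∈ FT τ (St K B s) ∧ t.card = m + 1 := by
  rw [cf, mem_filter, Set.Finite.mem_toFinset]

theorem erase_eq_iff {t : Finset U} (hst : s ⊆ t) (hc : t.card = s.card + 1) :
    ∃ v ∈ t, ∀ w ∈ t, t.erase w = s ↔ w = v := by
  obtain ⟨v, hv, hv'⟩ := exists_eq_insert_iff.2 ⟨hst, hc.symm⟩
  refine ⟨v, by rw [← hv']; exact mem_insert_self v s, fun w hw => ?_⟩
  subst hv'
  constructor
  · intro h
    by_contra hne
    have h1 : w ∈ s := (mem_insert.1 hw).resolve_left hne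
    rw [← h] at h1
    exact notMem_erase w _ h1
  · rintro rfl
    exact erase_insert hv

/-- the coboundary of a simplex `s` with `m` vertices -/
theorem d_single (hM : Mfd K B n) (h : Inv τ K B) (hm : AllDeg hM h m) (hs : s ∈ Fx τ K)
    (hsc : s.card = m) (t : Finset U) :
    dT (FT τ (St K B s)) (Pi.single s 1) t = if t ∈ cf hM h hs m then 1 else 0 := by
  by_cases h1 : t ∈ FT τ (St K B s)
  · rw [dT_apply h1]
    have h2 : s ⊆ t := h1.1.2.2
    have h3 : t.card ≤ m + 1 := card_le_fx hM h hm (s := t) ⟨h1.1.1, h1.2⟩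
    by_cases h4 : t.card = m + 1
    · rw [if_pos (mem_cf.2 ⟨h1, h4⟩)]
      obtain ⟨v, hv, hv'⟩ := erase_eq_iff h2 (by rw [h4, hsc])
      rw [sum_eq_single v]
      · rw [(hv' v hv).2 rfl, Pi.single_eq_same]
      · intro w hw hwv
        exact Pi.single_eq_of_ne (fun h5 => hwv ((hv' w hw).1 h5)) _
      · exact fun h5 => absurd hv h5
    · rw [if_neg (fun h5 => h4 (mem_cf.1 h5).2)]
      refine sum_eq_zero fun v hv => Pi.single_eq_of_ne (fun h5 => ?_) _
      have h6 := card_erase_of_mem hv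
      rw [h5] at h6
      have h7 := card_pos.2 ⟨v, hv⟩
      omega
  · rw [dT_apply' h1, if_neg (fun h5 => h1 (mem_cf.1 h5).1)]

theorem cc_single (hM : Mfd K B n) (h : Inv τ K B) (hs : s ∈ Fx τ K) (hsc : s.card = m)
    {y : Finset U → ZMod 2} (hy : y ∈ Cc (FT τ (St K B s)) m) : y = 0 ∨ y = Pi.single s 1 := by
  have h1 : ∀ t, t ≠ s → y t = 0 := by
    intro t ht
    by_contra h2
    obtain ⟨h3, h4⟩ := hy t h2
    exact ht (eq_of_subset_of_card_le h3.1.2.2 (by omega)).symm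
  by_cases h2 : y s = 0
  · left
    funext t
    by_cases h3 : t = s
    · rw [h3, h2]; rfl
    · exact h1 t h3
  · right
    funext t
    by_cases h3 : t = s
    · rw [h3, Pi.single_eq_same, z2 h2]
    · rw [h1 t h3, Pi.single_eq_of_ne h3]

/-- **A simplex of codimension one of the fixed complex which is not in the boundary has exactly two cofaces.** -/
theorem two_cf (hM : Mfd K B n) (h : Inv τ K B) (hm : AllDeg hM h m) (hs : s ∈ Fx τ K) (hB : s ∉ B)
    (hsc : s.card = m) : (cf hM h hs m).card = 2 := by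
  have hsT : s ∈ FT τ (St K B s) := ⟨⟨hs.1, hB, Subset.rfl⟩, hs.2⟩
  have hcoc : ∀ x ∈ Cc (FT τ (St K B s)) (m + 1), dT (FT τ (St K B s)) x = 0 := fun x hx =>
    bot_fx hM h hm (by omega) (dT_mem hx)
  -- the elements of `cf` as cochains
  have hmem : ∀ a ∈ cf hM h hs m, (Pi.single a 1 : Finset U → ZMod 2) ∈ Cc (FT τ (St K B s)) (m + 1) :=
    fun a ha => single_mem (mem_cf.1 ha).1 (mem_cf.1 ha).2
  obtain ⟨x, hx, -, hno, hall⟩ := (hm s hs).one
  have hx' : x ∈ Cc (FT τ (St K B s)) (m + 1) := hx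
  have hall' : ∀ z ∈ Cc (FT τ (St K B s)) (m + 1),
      (∃ y ∈ Cc (FT τ (St K B s)) m, dT (FT τ (St K B s)) y = z) ∨
      ∃ y ∈ Cc (FT τ (St K B s)) m, dT (FT τ (St K B s)) y = z + x := fun z hz =>
    hall z hz (hcoc z hz)
  have hno' : ¬ ∃ y ∈ Cc (FT τ (St K B s)) m, dT (FT τ (St K B s)) y = x := hno
  -- nonempty
  have hne : (cf hM h hs m).Nonempty := by
    rw [nonempty_iff_ne_empty]
    intro h0
    have h1 : dT (FT τ (St K B s)) (Pi.single s 1) = 0 := by
      funext t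
      rw [d_single hM h hm hs hsc, h0]
      simp
    have hpos : 1 ≤ m := by
      rw [← hsc]
      exact card_pos.2 (hM.ne s hs.1)
    obtain ⟨m', rfl⟩ : ∃ m', m = m' + 1 := ⟨m - 1, by omega⟩
    have h2 : HZ (Cc (FT τ (St K B s))) (dT (FT τ (St K B s))) m' := (hm s hs).F_hz m' (by omega)
    obtain ⟨y, hy, hyd⟩ := h2 _ (single_mem hsT hsc) h1
    have h3 : y = 0 := by
      funext t
      by_contra h4
      obtain ⟨h5, h6⟩ := hy t h4
      have := card_le_card h5.1.2.2
      omega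
    rw [h3, map_zero] at hyd
    have h4 := congrFun hyd s
    rw [Pi.single_eq_same] at h4
    exact zero_ne_one h4
  have hcard1 : (cf hM h hs m).card ≠ 1 := by
    intro h1
    obtain ⟨a, ha⟩ := card_eq_one.1 h1
    have hxa : ∀ t, t ≠ a → x t = 0 := by
      intro t ht
      by_contra h2
      have h3 : t ∈ cf hM h hs m := mem_cf.2 (hx' t h2)
      rw [ha, mem_singleton] at h3
      exact ht h3
    apply hno'
    by_cases h2 : x a = 0
    · refine ⟨0, AddSubgroup.zero_mem _, ?_⟩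
      rw [map_zero]
      funext t
      by_cases h3 : t = a
      · rw [h3, h2]; rfl
      · rw [hxa t h3]; rfl
    · refine ⟨_, single_mem hsT hsc, ?_⟩
      funext t
      rw [d_single hM h hm hs hsc, ha]
      by_cases h3 : t = a
      · rw [if_pos (mem_singleton.2 h3), h3, z2 h2]
      · rw [if_neg (fun h4 => h3 (mem_singleton.1 h4)), hxa t h3]
  have hpair : ∀ a ∈ cf hM h hs m, ∀ b ∈ cf hM h hs m, ∀ c ∈ cf hM h hs m, a ≠ b → c ≠ a → c ≠ b →
      ¬ ∃ y ∈ Cc (FT τ (St K B s)) m, dT (FT τ (St K B s)) y = Pi.single a 1 + Pi.single b 1 := by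
    rintro a ha b hb c hc hab hca hcb ⟨y, hy, hyd⟩
    rcases cc_single hM h hs hsc hy with rfl | rfl
    · rw [map_zero] at hyd
      have h1 := congrFun hyd a
      rw [Pi.add_apply, Pi.single_eq_same, Pi.single_eq_of_ne hab, add_zero] at h1
      exact zero_ne_one h1
    · have h1 := congrFun hyd c
      rw [d_single hM h hm hs hsc, if_pos hc, Pi.add_apply, Pi.single_eq_of_ne hca,
        Pi.single_eq_of_ne hcb, add_zero] at h1
      exact one_ne_zero h1
  have hle : (cf hM h hs m).card ≤ 2 := by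
    by_contra hgt
    obtain ⟨a, b, c, ha, hb, hc, hab, hac, hbc⟩ := two_lt_card_iff.1 (by omega : 2 < (cf hM h hs m).card)
    -- the sum of two elements of the same kind is a coboundary
    have hsum : ∀ z w : Finset U → ZMod 2,
        (∃ y ∈ Cc (FT τ (St K B s)) m, dT (FT τ (St K B s)) y = z) →
        (∃ y ∈ Cc (FT τ (St K B s)) m, dT (FT τ (St K B s)) y = w) →
        ∃ y ∈ Cc (FT τ (St K B s)) m, dT (FT τ (St K B s)) y = z + w := by
      rintro z w ⟨y, hy, rfl⟩ ⟨y', hy', rfl⟩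
      exact ⟨y + y', AddSubgroup.add_mem _ hy hy', map_add _ _ _⟩
    have hx2 : ∀ z w : Finset U → ZMod 2, (z + x) + (w + x) = z + w := by
      intro z w
      funext t
      simp only [Pi.add_apply]
      have := z2_add (x t)
      linear_combination this
    rcases hall' _ (hmem a ha) with h1 | h1 <;> rcases hall' _ (hmem b hb) with h2 | h2 <;>
      rcases hall' _ (hmem c hc) with h3 | h3
    · exact hpair a ha b hb c hc hab (Ne.symm hac) (Ne.symm hbc) (hsum _ _ h1 h2)
    · exact hpair a ha b hb c hc hab (Ne.symm hac) (Ne.symm hbc) (hsum _ _ h1 h2)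
    · exact hpair a ha c hc b hb hac (Ne.symm hab) hbc (hsum _ _ h1 h3)
    · exact hpair b hb c hc a ha hbc hab hac (by rw [← hx2]; exact hsum _ _ h2 h3)
    · exact hpair b hb c hc a ha hbc hab hac (hsum _ _ h2 h3)
    · exact hpair a ha c hc b hb hac (Ne.symm hab) hbc (by rw [← hx2]; exact hsum _ _ h1 h3)
    · exact hpair a ha b hb c hc hab (Ne.symm hac) (Ne.symm hbc) (by rw [← hx2]; exact hsum _ _ h1 h2)
    · exact hpair a ha b hb c hc hab (Ne.symm hac) (Ne.symm hbc) (by rw [← hx2]; exact hsum _ _ h1 h2)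
  have h1 := card_pos.2 hne
  omega

end Pool.Agent.H8.SM
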