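import Pool.Agent.H8.SM.Fixed
import Pool.Agent.H8.SM.Faith

/-!
# Project SM (Smith theory): the fixed sets of the finite special subgroups of a right-angled Coxeter group

`Wsp G A` = the special subgroup of the letters `A`. One group `RGrp G` acts on one set `U` of vertices; the special
subgroups act properly on the complexes `K`.
-/

set_option autoImplicit false
set_option linter.unusedSectionVars false

open Finset Pointwise
open Pool.Agent.H37.TM
open Pool.Agent.H65.RM Pool.Agent.H4.Singer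

namespace Pool.Agent.H8.SM

variable {U : Type} [DecidableEq U] {K B : Set (Finset U)} {n : ℕ}

/-- `fixed` for a subgroup `D` of a group which acts on the vertices -/
theorem fixed_sub {A : Type} [Group A] [MulAction A U] (D : Subgroup A) {V : Type} [DecidableEq V]
    (hM : Mfd K B n) (hK : Acyc K) (hA : PAct D K B)
    (hreg : ∀ g ∈ D, ∀ s ∈ K, g • s = s → ∀ u ∈ s, g • u = u) (e : V → A) (t : Finset V)
    (he : ∀ v ∈ t, e v ∈ D)
    (h2 : ∀ v ∈ t, e v * e v = 1) (hc : ∀ v ∈ t, ∀ w ∈ t, e v * e w = e w * e v)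
    (hf : ∀ l : List V, l.Nodup → (∀ v ∈ l, v ∈ t) → (∀ u, {u} ∈ K → (l.map e).prod • u = u) → l = [])
    (C : Subgroup A) (hCD : C ≤ D) (hC : ∀ g ∈ C, ∀ v ∈ t, g * e v = e v * g) :
    ∃ (K' B' : Set (Finset U)) (m : ℕ), m + t.card ≤ n ∧ Mfd K' B' m ∧ Acyc K' ∧ PAct C K' B' ∧
      ∀ g ∈ C, ∀ s ∈ K', g • s = s → ∀ u ∈ s, g • u = u := by
  classical
  obtain ⟨e', he'⟩ : ∃ e' : V → D, ∀ v ∈ t, ((e' v : D) : A) = e v :=
    ⟨fun v => if h : v ∈ t then ⟨e v, he v h⟩ else 1, fun v hv => by simp only [dif_pos hv]⟩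
  have hpr : ∀ l : List V, (∀ v ∈ l, v ∈ t) → (((l.map e').prod : D) : A) = (l.map e).prod := by
    intro l
    induction l with
    | nil => intro _; simp
    | cons a l ih =>
      intro hl
      rw [List.map_cons, List.map_cons, List.prod_cons, List.prod_cons, Subgroup.coe_mul,
        ih fun v hv => hl v (List.mem_cons_of_mem a hv), he' a (hl a List.mem_cons_self)]
  obtain ⟨K', B', m, hm, hM', hK', hP, hR⟩ := fixed (A := D) hM hK hA
    (fun g s hs h => hreg g g.2 s hs h) e' t
    (fun v hv => Subtype.ext (by rw [Subgroup.coe_mul, he' v hv, h2 v hv, Subgroup.coe_one]))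
    (fun v hv w hw => Subtype.ext (by
      rw [Subgroup.coe_mul, Subgroup.coe_mul, he' v hv, he' w hw, hc v hv w hw]))
    (fun l hl hlt h => hf l hl hlt fun u hu => by
      have h3 : (((l.map e').prod : D) : A) • u = u := h u hu
      rwa [hpr l hlt] at h3)
    (C.subgroupOf D)
    (fun g hg v hv => Subtype.ext (by
      rw [Subgroup.coe_mul, Subgroup.coe_mul, he' v hv, hC _ (Subgroup.mem_subgroupOf.1 hg) v hv]))
  obtain ⟨φ, hφ⟩ : ∃ φ : C → C.subgroupOf D, ∀ g : C, (((φ g : C.subgroupOf D) : D) : A) = g :=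
    ⟨fun g => ⟨⟨g, hCD g.2⟩, Subgroup.mem_subgroupOf.2 g.2⟩, fun g => rfl⟩
  have hs1 : ∀ (g : C) (u : U), φ g • u = g • u := fun g u => by
    show (((φ g : C.subgroupOf D) : D) : A) • u = (g : A) • u
    rw [hφ]
  have hs2 : ∀ (g : C) (s : Finset U), φ g • s = g • s := fun g s => by
    ext w
    rw [mem_smul_finset, mem_smul_finset]
    constructor
    · rintro ⟨u, hu, rfl⟩
      exact ⟨u, hu, (hs1 g u).symm⟩
    · rintro ⟨u, hu, rfl⟩
      exact ⟨u, hu, hs1 g u⟩
  have hinj : Function.Injective φ := fun g g' h => Subtype.ext (by rw [← hφ g, ← hφ g', h])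
  refine ⟨K', B', m, hm, hM', hK', ⟨fun g s hs => ?_, fun g s hs => ?_, fun u w hu => ?_⟩, ?_⟩
  · rw [← hs2]
    exact hP.K_mem _ s hs
  · rw [← hs2]
    exact hP.B_mem _ s hs
  · refine ((hP.proper u w hu).preimage (f := φ) hinj.injOn).subset fun g hg => ?_
    show φ g • u = w
    rw [hs1]
    exact hg
  · intro g hg s hs h u hu
    have h3 := hR (φ ⟨g, hg⟩) s hs (by rw [hs2]; exact h) u hu
    rw [hs1] at h3
    exact h3

variable {V : Type} [DecidableEq V]

/-- the special subgroup of the letters in `A` -/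
noncomputable def Wsp (G : SimpleGraph V) (A : Finset V) : Subgroup (RGrp G) :=
  Subgroup.closure (gen G '' (A : Set V))

theorem gen_mem_Wsp {G : SimpleGraph V} {A : Finset V} {v : V} (hv : v ∈ A) : gen G v ∈ Wsp G A :=
  Subgroup.subset_closure ⟨v, hv, rfl⟩

theorem Wsp_mono {G : SimpleGraph V} {A A' : Finset V} (h : A ⊆ A') : Wsp G A ≤ Wsp G A' :=
  Subgroup.closure_mono (Set.image_mono (by exact_mod_cast h))

open Classical in
/-- **The fixed set of the finite special subgroup of the clique `t` of `A`** (no letter of `t` is adjacent to all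
other letters of `A`) is an acyclic homology manifold of dimension at most `n - |t|` with a proper action of the
special subgroup of the letters of `A` which are adjacent to all letters of `t`. -/
theorem fixed_racg (G : SimpleGraph V) [MulAction (RGrp G) U] (A : Finset V) (hM : Mfd K B n)
    (hK : Acyc K) (hA : PAct (Wsp G A) K B)
    (hreg : ∀ g ∈ Wsp G A, ∀ s ∈ K, g • s = s → ∀ u ∈ s, g • u = u) (t : Finset V) (htA : t ⊆ A)
    (ht : G.IsClique (t : Set V)) (hcone : ∀ v ∈ t, ∃ u ∈ A, u ≠ v ∧ ¬ G.Adj u v) :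
    ∃ (K' B' : Set (Finset U)) (m : ℕ), m + t.card ≤ n ∧ Mfd K' B' m ∧ Acyc K' ∧
      PAct (Wsp G (A.filter fun u => ∀ v ∈ t, G.Adj u v)) K' B' ∧
      ∀ g ∈ Wsp G (A.filter fun u => ∀ v ∈ t, G.Adj u v), ∀ s ∈ K', g • s = s →
        ∀ u ∈ s, g • u = u := by
  refine fixed_sub (Wsp G A) hM hK hA hreg (gen G) t (fun v hv => gen_mem_Wsp (htA hv))
    (fun v _ => gen_mul_gen G v) (fun v hv w hw => ?_) (fun l hl hlt h => ?_) _
    (Wsp_mono (filter_subset _ _)) (fun g hg v hv => ?_)
  · by_cases h : v = w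
    · rw [h]
    · exact gen_comm G v w (ht hv hw h)
  · by_contra hne
    obtain ⟨v, hvl⟩ := List.exists_mem_of_ne_nil l hne
    obtain ⟨u, huA, huv, hadj⟩ := hcone v (hlt v hvl)
    have hul : u ∉ l := fun h1 => hadj (ht (hlt u h1) (hlt v hvl) huv)
    have hmem : (l.map (gen G)).prod ∈ Wsp G A := by
      refine Subgroup.list_prod_mem _ fun x hx => ?_
      obtain ⟨w, hw, rfl⟩ := List.mem_map.1 hx
      exact gen_mem_Wsp (htA (hlt w hw))
    -- a vertex
    have hvert : ∃ w, {w} ∈ K := by
      obtain ⟨g, hg1, hg2⟩ := hK (Finsupp.single ∅ 1) (fun s hs => by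
        right
        by_contra h1
        exact hs (Finsupp.single_eq_of_ne h1)) (by
          simp [bdS])
      by_contra hno
      push Not at hno
      have hKe : ∀ s, s ∉ K := fun s hs => by
        obtain ⟨w, hw⟩ := hM.ne s hs
        exact hno w (hM.down s hs {w} (singleton_subset_iff.2 hw) (singleton_nonempty w))
      have h0 : g = 0 := by
        ext s
        by_contra h1
        exact hKe s (hg1 s h1)
      rw [h0, map_zero] at hg2
      have h1 := DFunLike.congr_fun hg2 ∅
      rw [Finsupp.single_eq_same] at h1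
      exact zero_ne_one h1
    exact not_trivial G (Wsp G A) hA hvert huv hadj (gen_mem_Wsp huA)
      (gen_mem_Wsp (htA (hlt v hvl))) l hl hvl hul ⟨_, hmem⟩ rfl fun w hw => h w hw
  · -- the centralizer
    refine Subgroup.closure_induction (p := fun g _ => g * gen G v = gen G v * g) ?_ ?_ ?_ ?_ hg
    · rintro x ⟨w, hw, rfl⟩
      have h1 := (mem_filter.1 (mem_coe.1 hw)).2 v hv
      exact gen_comm G w v h1
    · rw [one_mul, mul_one]
    · intro x y _ _ hx hy
      rw [mul_assoc, hy, ← mul_assoc, hx, mul_assoc]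
    · intro x _ hx
      have h1 : gen G v * x⁻¹ = x⁻¹ * gen G v := by
        rw [eq_inv_mul_iff_mul_eq, ← mul_assoc, hx, mul_inv_cancel_right]
      exact h1.symm

end Pool.Agent.H8.SM
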